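import Pool.Agent.CG.B.Lq

/-!
# CG-B-Alg (helper66): algebra of the relation `HW`

PLAN.  Everything from the definition of `HW` and `B/Lq.lean`, `B/Calc.lean` (LqLoc.mono, .mono_exp, .add, .sub, .const_smul,
.congr, .integrable_mul_X, .comp_apply, .integrable_mul).
* `add`, `sub`, `add_const`: linearity of the integral (`LqLoc.integrable_mul_X` for `u`, `LqLoc.comp_apply` + `integrable_mul` for
  the components of `F`, the test function `φ` is continuous with compact support in `Ω`); for `add_const` use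
  `G.integral_X` (`∫ X_k φ = 0`); locally constant functions are in every `L^q_loc` (`LqLoc.const`).
* `congr`: `LqLoc.congr`; the integrals agree because `φ` and `X_k φ` vanish off `Ω` (`Test.eq_zero`, `tsupport_X_subset`,
  `integral_congr_ae`).
* `lim`: for a test function `φ` let `K = tsupport φ`; `|∫ (u_n - u) X_k φ| ≤ sup|X_k φ| ‖u_n - u‖_{L^1(K)} ≤ C ‖u_n - u‖_{L^q(K)}`
  (`eLpNorm_le_eLpNorm_mul_rpow_measure_univ` on the finite measure `volume.restrict K`, or `tendsto_integral_of_L1`), so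
  `∫ u_n X_k φ → ∫ u X_k φ`, same for the gradients (`|F x k| ≤ ‖F x‖`), uniqueness of limits.
-/

set_option autoImplicit false

namespace Pool.Agent.CG

open MeasureTheory Set Filter Topology
open scoped ContDiff ENNReal

variable {N m : ℕ} {G : Carnot N m} {q : ℝ≥0∞} {Ω Ω' : Set (Pt N)} {u v : Pt N → ℝ}
  {F V : Pt N → Hv m}

private theorem HW.int_u (hq : 1 ≤ q) (hu : LqLoc q Ω u) {φ : Pt N → ℝ} (hφ : Test Ω φ) (k : Fin m) :
    Integrable (fun x => u x * G.X k φ x) := hu.integrable_mul_X hq hφ k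

private theorem HW.int_F (hq : 1 ≤ q) (hF : LqLoc q Ω F) {φ : Pt N → ℝ} (hφ : Test Ω φ) (k : Fin m) :
    Integrable (fun x => F x k * φ x) :=
  (hF.comp_apply k).integrable_mul hq hφ.continuous hφ.cpt hφ.sub

theorem HW.mono (h : HW G q Ω u F) (hs : Ω' ⊆ Ω) : HW G q Ω' u F :=
  ⟨h.lq.mono hs, h.lqg.mono hs, fun φ hφ k => h.weak φ (hφ.mono hs) k⟩

theorem HW.mono_exp {q' : ℝ≥0∞} (h : HW G q Ω u F) (hq : q' ≤ q) : HW G q' Ω u F :=
  ⟨h.lq.mono_exp hq, h.lqg.mono_exp hq, h.weak⟩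

theorem HW.add (hq : 1 ≤ q) (hu : HW G q Ω u F) (hv : HW G q Ω v V) :
    HW G q Ω (fun x => u x + v x) (fun x => F x + V x) := by
  refine ⟨hu.lq.add hv.lq, hu.lqg.add hv.lqg, fun φ hφ k => ?_⟩
  simp only [PiLp.add_apply, add_mul]
  rw [integral_add (HW.int_u hq hu.lq hφ k) (HW.int_u hq hv.lq hφ k),
    integral_add (HW.int_F hq hu.lqg hφ k) (HW.int_F hq hv.lqg hφ k), hu.weak φ hφ k,
    hv.weak φ hφ k, neg_add]

theorem HW.sub (hq : 1 ≤ q) (hu : HW G q Ω u F) (hv : HW G q Ω v V) :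
    HW G q Ω (fun x => u x - v x) (fun x => F x - V x) := by
  refine ⟨hu.lq.sub hv.lq, hu.lqg.sub hv.lqg, fun φ hφ k => ?_⟩
  simp only [PiLp.sub_apply, sub_mul]
  rw [integral_sub (HW.int_u hq hu.lq hφ k) (HW.int_u hq hv.lq hφ k),
    integral_sub (HW.int_F hq hu.lqg hφ k) (HW.int_F hq hv.lqg hφ k), hu.weak φ hφ k,
    hv.weak φ hφ k, neg_sub_neg, neg_sub]

theorem HW.smul (c : ℝ) (hu : HW G q Ω u F) :
    HW G q Ω (fun x => c * u x) (fun x => c • F x) := by
  refine ⟨hu.lq.const_smul c, hu.lqg.const_smul c, fun φ hφ k => ?_⟩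
  simp only [PiLp.smul_apply, smul_eq_mul, mul_assoc]
  rw [integral_const_mul, integral_const_mul, hu.weak φ hφ k, mul_neg]

theorem HW.add_const (hq : 1 ≤ q) (c : ℝ) (hu : HW G q Ω u F) :
    HW G q Ω (fun x => u x + c) F := by
  refine ⟨hu.lq.add (LqLoc.const c), hu.lqg, fun φ hφ k => ?_⟩
  simp only [add_mul]
  rw [integral_add (HW.int_u hq hu.lq hφ k) (HW.int_u hq (LqLoc.const c) hφ k),
    integral_const_mul, G.integral_X hφ.c1 hφ.cpt k, mul_zero, add_zero, hu.weak φ hφ k]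

theorem HW.congr (hΩ : IsOpen Ω) (hu : HW G q Ω u F) {u' : Pt N → ℝ} {F' : Pt N → Hv m}
    (h1 : ∀ᵐ x, x ∈ Ω → u x = u' x) (h2 : ∀ᵐ x, x ∈ Ω → F x = F' x) : HW G q Ω u' F' := by
  refine ⟨hu.lq.congr hΩ h1, hu.lqg.congr hΩ h2, fun φ hφ k => ?_⟩
  have e1 : ∫ x, u' x * G.X k φ x = ∫ x, u x * G.X k φ x := by
    refine integral_congr_ae ?_
    filter_upwards [h1] with x hx
    by_cases hxΩ : x ∈ Ω
    · rw [hx hxΩ]
    · rw [G.X_eq_zero k (fun h => hxΩ (hφ.sub h)), mul_zero, mul_zero]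
  have e2 : ∫ x, F' x k * φ x = ∫ x, F x k * φ x := by
    refine integral_congr_ae ?_
    filter_upwards [h2] with x hx
    by_cases hxΩ : x ∈ Ω
    · rw [hx hxΩ]
    · rw [hφ.eq_zero hxΩ, mul_zero, mul_zero]
  rw [e1, e2, hu.weak φ hφ k]

/-- convergence of integrals against a bounded function supported in a compact set -/
private theorem HW.tendsto_aux {E : Type*} [NormedAddCommGroup E] (hq : 1 ≤ q) {fs : ℕ → Pt N → E}
    {f : Pt N → E} {K : Set (Pt N)} (hK : IsCompact K) (P : E → ℝ) (hP : ∀ a b, |P a - P b| ≤ ‖a - b‖)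
    (hm : ∀ n, AEStronglyMeasurable (fun x => fs n x - f x) (volume.restrict K))
    {ψ : Pt N → ℝ} {D : ℝ} (hD : ∀ x, |ψ x| ≤ D) (h0 : ∀ x, x ∉ K → ψ x = 0)
    (hi : ∀ n, Integrable (fun x => P (fs n x) * ψ x)) (hi' : Integrable (fun x => P (f x) * ψ x))
    (h : Tendsto (fun n => eLpNorm (fun x => fs n x - f x) q (volume.restrict K)) atTop (𝓝 0)) :
    Tendsto (fun n => ∫ x, P (fs n x) * ψ x) atTop (𝓝 (∫ x, P (f x) * ψ x)) := by
  have : Fact (IsCompact K) := ⟨hK⟩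
  refine tendsto_integral_of_L1 _ hi'.aestronglyMeasurable (Eventually.of_forall hi) ?_
  have h1 : ∀ n, eLpNorm (fun x => fs n x - f x) 1 (volume.restrict K) ≤
      eLpNorm (fun x => fs n x - f x) q (volume.restrict K) *
        (volume.restrict K) univ ^ (1 / (1 : ℝ≥0∞).toReal - 1 / q.toReal) := fun n =>
    eLpNorm_le_eLpNorm_mul_rpow_measure_univ hq (hm n)
  have hfin : (volume.restrict K) univ ^ (1 / (1 : ℝ≥0∞).toReal - 1 / q.toReal) ≠ ⊤ := by
    refine (ENNReal.rpow_lt_top_of_nonneg ?_ (measure_ne_top _ _)).ne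
    rcases eq_or_ne q ⊤ with rfl | hqt
    · simp
    · have h2 : (1 : ℝ) ≤ q.toReal := by
        have := (ENNReal.toReal_le_toReal ENNReal.one_ne_top hqt).2 hq
        simpa using this
      rw [ENNReal.toReal_one, div_one, sub_nonneg, div_le_one (by linarith)]
      exact h2
  have h3 : Tendsto (fun n => ENNReal.ofReal D * (eLpNorm (fun x => fs n x - f x) q (volume.restrict K) *
      (volume.restrict K) univ ^ (1 / (1 : ℝ≥0∞).toReal - 1 / q.toReal))) atTop (𝓝 0) := by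
    have h4 := ENNReal.Tendsto.mul_const h (Or.inr hfin)
    have h5 := ENNReal.Tendsto.const_mul (a := ENNReal.ofReal D) h4 (Or.inr ENNReal.ofReal_ne_top)
    simpa using h5
  refine tendsto_of_tendsto_of_tendsto_of_le_of_le tendsto_const_nhds h3 (fun n => zero_le)
    fun n => ?_
  have hsup : (fun x => ‖P (fs n x) * ψ x - P (f x) * ψ x‖ₑ).support ⊆ K := by
    intro x hx
    by_contra hxK
    apply hx
    simp [h0 x hxK]
  rw [← setLIntegral_eq_of_support_subset hsup]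
  calc ∫⁻ x in K, ‖P (fs n x) * ψ x - P (f x) * ψ x‖ₑ
      ≤ ∫⁻ x in K, ENNReal.ofReal D * ‖fs n x - f x‖ₑ := by
        refine lintegral_mono fun x => ?_
        show ‖P (fs n x) * ψ x - P (f x) * ψ x‖ₑ ≤ ENNReal.ofReal D * ‖fs n x - f x‖ₑ
        rw [← ofReal_norm, ← ofReal_norm (fs n x - f x),
          ← ENNReal.ofReal_mul ((abs_nonneg _).trans (hD x))]
        refine ENNReal.ofReal_le_ofReal ?_
        rw [← sub_mul, Real.norm_eq_abs, abs_mul, mul_comm]
        exact mul_le_mul (hD x) (hP _ _) (abs_nonneg _) ((abs_nonneg _).trans (hD x))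
    _ = ENNReal.ofReal D * ∫⁻ x in K, ‖fs n x - f x‖ₑ := by
        rw [lintegral_const_mul' _ _ ENNReal.ofReal_ne_top]
    _ ≤ _ := by
        refine mul_le_mul_right ?_ _
        rw [← eLpNorm_one_eq_lintegral_enorm]
        exact h1 n

theorem HW.lim (hq : 1 ≤ q) {us : ℕ → Pt N → ℝ} {Fs : ℕ → Pt N → Hv m}
    (h : ∀ n, HW G q Ω (us n) (Fs n)) (hu : LqLoc q Ω u) (hF : LqLoc q Ω F)
    (h1 : ∀ K, IsCompact K → K ⊆ Ω →
      Tendsto (fun n => eLpNorm (fun x => us n x - u x) q (volume.restrict K)) atTop (𝓝 0))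
    (h2 : ∀ K, IsCompact K → K ⊆ Ω →
      Tendsto (fun n => eLpNorm (fun x => Fs n x - F x) q (volume.restrict K)) atTop (𝓝 0)) :
    HW G q Ω u F := by
  refine ⟨hu, hF, fun φ hφ k => ?_⟩
  have hK : IsCompact (tsupport φ) := hφ.cpt
  obtain ⟨D1, hD1⟩ := hφ.cpt.exists_bound_of_continuous hφ.continuous
  have hXc : HasCompactSupport (G.X k φ) :=
    HasCompactSupport.intro hφ.cpt fun x hx => G.X_eq_zero k hx
  obtain ⟨D2, hD2⟩ := hXc.exists_bound_of_continuous (G.continuous_X hφ.c1 k)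
  have t1 : Tendsto (fun n => ∫ x, us n x * G.X k φ x) atTop (𝓝 (∫ x, u x * G.X k φ x)) :=
    HW.tendsto_aux hq hK (fun a => a) (fun a b => le_of_eq (Real.norm_eq_abs _).symm)
      (fun n => (((h n).lq _ hK hφ.sub).sub (hu _ hK hφ.sub)).aestronglyMeasurable)
      (fun x => hD2 x) (fun x hx => G.X_eq_zero k hx)
      (fun n => HW.int_u hq (h n).lq hφ k) (HW.int_u hq hu hφ k) (h1 _ hK hφ.sub)
  have t2 : Tendsto (fun n => ∫ x, Fs n x k * φ x) atTop (𝓝 (∫ x, F x k * φ x)) :=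
    HW.tendsto_aux hq hK (fun a : Hv m => a k)
      (fun a b => by
        have := PiLp.norm_apply_le (a - b) k
        rwa [PiLp.sub_apply, Real.norm_eq_abs] at this)
      (fun n => (((h n).lqg _ hK hφ.sub).sub (hF _ hK hφ.sub)).aestronglyMeasurable)
      (fun x => hD1 x) (fun x hx => image_eq_zero_of_notMem_tsupport hx)
      (fun n => HW.int_F hq (h n).lqg hφ k) (HW.int_F hq hF hφ k) (h2 _ hK hφ.sub)
  refine tendsto_nhds_unique t1 ?_
  refine t2.neg.congr fun n => ?_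
  exact ((h n).weak φ hφ k).symm

end Pool.Agent.CG
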