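import Pool.Agent.CG.B.Alg

/-!
# CG-B-Mul (helper66): smooth functions, products with smooth functions, extension by zero, uniqueness

PLAN.
* `HW.smooth`: `LqLoc.of_continuous` (`G.continuous_grad`), weak formula = `G.integral_mul_X`.
* `HW.linear`: `HW.smooth` for `φ x = ∑ k, a k * x (hor k)`, `G.grad φ x = a` by `G.X_coord` and linearity
  (`G.X_eq`, `fderiv` of a linear map, or `X_add`/`X_const_mul` and `Finset` induction).
* `HW.mul_smooth`: `LqLoc.bdd_smul`, `LqLoc.add`; weak formula: test `u` with `η φ` (`Test.smooth_mul`):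
  `X_k (η φ) = η X_k φ + φ X_k η` (`G.X_mul`), so `∫ η u X_k φ = ∫ u X_k(η φ) - ∫ u φ X_k η = -∫ F_k η φ - ∫ u X_k η φ`.
* `HW.extend`: choose `η` from `exists_test_eq_one hK hΩ hKΩ` (`η = 1` on an open `U ⊇ K`, `η ∈ Test Ω`).  For a test function `φ` on
  `univ`: `η φ ∈ Test Ω`, on `K` we have `η φ = φ` and `X_k (η φ) = X_k φ` (`G.grad_congr_nhds` / `Filter.EventuallyEq`), off `K` both
  `u` and `F` vanish, so `∫ u X_k φ = ∫ u X_k (η φ) = -∫ F_k η φ = -∫ F_k φ`.  `LqLoc.memLp_of_zero`, `LqLoc.of_memLp`.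
* `HW.unique`: for every `k` and every smooth `φ` with compact support in `Ω`: `∫ (F x k - F' x k) φ x = 0`;
  `IsOpen.ae_eq_zero_of_integral_contDiff_smul_eq_zero` (locally integrable on `Ω`: `locallyIntegrableOn_iff` with compact subsets,
  `LqLoc.integrableOn`), then `ae_all_iff` over `k`.
-/

set_option autoImplicit false

namespace Pool.Agent.CG

open MeasureTheory Set Filter Topology
open scoped ContDiff ENNReal

variable {N m : ℕ} {G : Carnot N m} {q : ℝ≥0∞} {Ω Ω' : Set (Pt N)} {u v : Pt N → ℝ}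
  {F V : Pt N → Hv m}

theorem HW.smooth {φ : Pt N → ℝ} (hφ : ContDiff ℝ ∞ φ) : HW G q Ω φ (G.grad φ) := by
  have h1 : ContDiff ℝ 1 φ := hφ.of_le (by exact_mod_cast le_top)
  exact ⟨LqLoc.of_continuous hφ.continuous, LqLoc.of_continuous (G.continuous_grad h1),
    fun ψ hψ k => G.integral_mul_X h1 hψ.c1 hψ.cpt k⟩

private theorem X_sum (a : Hv m) (k : Fin m) (x : Pt N) (s : Finset (Fin m)) :
    G.X k (fun y => ∑ j ∈ s, a j * y (G.hor j)) x = ∑ j ∈ s, if k = j then a j else 0 := by
  classical
  have hd : ∀ j, DifferentiableAt ℝ (fun y : Pt N => y (G.hor j)) x := fun j =>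
    (ContinuousLinearMap.proj (R := ℝ) (φ := fun _ : Fin N => ℝ) (G.hor j)).differentiableAt
  induction s using Finset.induction_on with
  | empty => simpa using G.X_const 0 k x
  | insert i s hi ih =>
    simp only [Finset.sum_insert hi]
    have h1 : DifferentiableAt ℝ (fun y : Pt N => ∑ j ∈ s, a j * y (G.hor j)) x :=
      DifferentiableAt.fun_sum fun j _ => (hd j).const_mul (a j)
    rw [G.X_add ((hd i).const_mul (a i)) h1, G.X_const_mul (a i) (hd i), ih, G.X_coord]
    split_ifs <;> simp

/-- The horizontal linear function with gradient `a`. -/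
theorem HW.linear (a : Hv m) : HW G q Ω (fun x => ∑ k, a k * x (G.hor k)) (fun _ => a) := by
  have h1 : ContDiff ℝ ∞ (fun x : Pt N => ∑ k, a k * x (G.hor k)) :=
    ContDiff.sum fun j _ => contDiff_const.mul
      (ContinuousLinearMap.proj (R := ℝ) (φ := fun _ : Fin N => ℝ) (G.hor j)).contDiff
  have h2 : G.grad (fun x : Pt N => ∑ k, a k * x (G.hor k)) = fun _ => a := by
    funext x
    ext k
    rw [G.grad_apply, X_sum]
    simp
  have h3 := HW.smooth (G := G) (q := q) (Ω := Ω) h1
  rwa [h2] at h3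

theorem HW.mul_smooth (hq : 1 ≤ q) (hu : HW G q Ω u F) {η : Pt N → ℝ} (hη : ContDiff ℝ ∞ η) :
    HW G q Ω (fun x => η x * u x) (fun x => η x • F x + u x • G.grad η x) := by
  have h1 : ContDiff ℝ 1 η := hη.of_le (by exact_mod_cast le_top)
  have hgc : Continuous (G.grad η) := G.continuous_grad h1
  have l1 : LqLoc q Ω (fun x => η x * u x) := hu.lq.bdd_smul hη.continuous.continuousOn
  have l2 : LqLoc q Ω (fun x => u x • G.grad η x) := by
    refine LqLoc.of_apply fun k => ?_
    have h2 : LqLoc q Ω (fun x => G.X k η x • u x) := hu.lq.bdd_smul (G.continuous_X h1 k).continuousOn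
    refine fun K hK hK' => ((h2 K hK hK').congr_norm ?_ ?_)
    · refine ((h2 K hK hK').aestronglyMeasurable).congr (Eventually.of_forall fun x => ?_)
      simp [mul_comm]
    · exact Eventually.of_forall fun x => by simp [mul_comm]
  refine ⟨l1, (hu.lqg.bdd_smul hη.continuous.continuousOn).add l2, fun φ hφ k => ?_⟩
  have ht : Test Ω (fun x => η x * φ x) := Test.smooth_mul hη hφ
  have h3 := hu.weak _ ht k
  have h4 : ∀ x, G.X k (fun y => η y * φ y) x = G.X k η x * φ x + η x * G.X k φ x := fun x =>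
    G.X_mul (h1.differentiable (by simp)).differentiableAt hφ.diff.differentiableAt k
  have i1 : Integrable (fun x => u x * (η x * G.X k φ x)) := by
    refine hu.lq.integrable_mul hq (hη.continuous.mul (G.continuous_X hφ.c1 k)) ?_ ?_
    · exact (hφ.cpt.mono' ((subset_closure).trans (G.tsupport_X_subset φ k))).mul_left
    · exact (closure_mono (Function.support_mul_subset_right _ _)).trans
        ((G.tsupport_X_subset φ k).trans hφ.sub)
  have i2 : Integrable (fun x => u x * (G.X k η x * φ x)) := by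
    refine hu.lq.integrable_mul hq ((G.continuous_X h1 k).mul hφ.continuous) hφ.cpt.mul_left ?_
    exact (closure_mono (Function.support_mul_subset_right _ _)).trans hφ.sub
  have i3 : Integrable (fun x => F x k * (η x * φ x)) :=
    (hu.lqg.comp_apply k).integrable_mul hq ht.continuous ht.cpt ht.sub
  have e1 : ∫ x, u x * G.X k (fun y => η y * φ y) x = (∫ x, u x * (G.X k η x * φ x)) +
      ∫ x, u x * (η x * G.X k φ x) := by
    rw [← integral_add i2 i1]
    refine integral_congr_ae (Eventually.of_forall fun x => ?_)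
    simp only [h4]
    ring
  have e2 : ∫ x, (η x • F x + u x • G.grad η x) k * φ x = (∫ x, F x k * (η x * φ x)) +
      ∫ x, u x * (G.X k η x * φ x) := by
    rw [← integral_add i3 i2]
    refine integral_congr_ae (Eventually.of_forall fun x => ?_)
    simp only [PiLp.add_apply, PiLp.smul_apply, smul_eq_mul, G.grad_apply]
    ring
  have e3 : ∫ x, η x * u x * G.X k φ x = ∫ x, u x * (η x * G.X k φ x) :=
    integral_congr_ae (Eventually.of_forall fun x => by simp only; ring)
  rw [e2, e3]
  rw [e1] at h3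
  linarith

/-- Extension by zero of a function vanishing off a compact subset of `Ω`. -/
theorem HW.extend (hΩ : IsOpen Ω) (hq : 1 ≤ q) (hu : HW G q Ω u F) {K : Set (Pt N)} (hK : IsCompact K)
    (hKΩ : K ⊆ Ω) (h1 : ∀ x, x ∉ K → u x = 0) (h2 : ∀ x, x ∉ K → F x = 0) : HW G q univ u F := by
  refine ⟨LqLoc.of_memLp (hu.lq.memLp_of_zero hK hKΩ h1), LqLoc.of_memLp (hu.lqg.memLp_of_zero hK hKΩ h2),
    fun φ hφ k => ?_⟩
  obtain ⟨η, hη, _, _, U, hU, hKU, hη1⟩ := exists_test_eq_one hK hΩ hKΩ
  have ht : Test Ω (fun x => φ x * η x) := Test.smooth_mul hφ.smooth hη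
  have h3 := hu.weak _ ht k
  have e1 : ∫ x, u x * G.X k φ x = ∫ x, u x * G.X k (fun y => φ y * η y) x := by
    refine integral_congr_ae (Eventually.of_forall fun x => ?_)
    by_cases hx : x ∈ K
    · have h4 : (fun y => φ y * η y) =ᶠ[𝓝 x] φ := by
        filter_upwards [hU.mem_nhds (hKU hx)] with y hy
        rw [hη1 y hy, mul_one]
      have h5 := congrArg (fun v : Hv m => v k) (G.grad_congr_nhds h4)
      simp only [G.grad_apply] at h5
      simp only [h5]
    · simp only [h1 x hx, zero_mul]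
  have e2 : ∫ x, F x k * φ x = ∫ x, F x k * (φ x * η x) := by
    refine integral_congr_ae (Eventually.of_forall fun x => ?_)
    by_cases hx : x ∈ K
    · simp only [hη1 x (hKU hx), mul_one]
    · simp only [h2 x hx, PiLp.zero_apply, zero_mul]
  rw [e1, e2]
  exact h3

theorem HW.unique (hΩ : IsOpen Ω) (hq : 1 ≤ q) (hu : HW G q Ω u F) {F' : Pt N → Hv m}
    (hu' : HW G q Ω u F') : ∀ᵐ x, x ∈ Ω → F x = F' x := by
  have h1 : ∀ k : Fin m, ∀ᵐ x, x ∈ Ω → F x k - F' x k = 0 := by
    intro k
    have l1 : LqLoc q Ω (fun x => F x k - F' x k) := (hu.lqg.comp_apply k).sub (hu'.lqg.comp_apply k)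
    refine hΩ.ae_eq_zero_of_integral_contDiff_smul_eq_zero ?_ fun φ h2 h3 h4 => ?_
    · rw [locallyIntegrableOn_iff hΩ.isLocallyClosed]
      exact fun K hK hK' => l1.integrableOn hq hK' hK
    · have ht : Test Ω φ := ⟨h2, h3, h4⟩
      have i1 := (hu.lqg.comp_apply k).integrable_mul hq ht.continuous ht.cpt ht.sub
      have i2 := (hu'.lqg.comp_apply k).integrable_mul hq ht.continuous ht.cpt ht.sub
      have h5 := hu.weak φ ht k
      have h6 := hu'.weak φ ht k
      have h7 : ∫ x, φ x • (F x k - F' x k) = (∫ x, F x k * φ x) - ∫ x, F' x k * φ x := by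
        rw [← integral_sub i1 i2]
        refine integral_congr_ae (Eventually.of_forall fun x => ?_)
        simp only [smul_eq_mul]
        ring
      rw [h7]
      linarith
  filter_upwards [ae_all_iff.2 h1] with x hx hxΩ
  ext k
  exact sub_eq_zero.1 (hx k hxΩ)

end Pool.Agent.CG
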