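import Pool.Agent.CG.B.MollLq
import Pool.Agent.CG.B.Mul

/-!
# CG-B-Approx (helper66): approximation by test functions, extension of the class of test functions

PLAN.
* `HW.approx_loc`: `η` from `exists_test_eq_one hK hΩ hKΩ` (`η = 1` on an open `U ⊇ K`, `η ∈ Test Ω`); `u₁ = η u`,
  `F₁ = η • F + u • grad η` (`HW.mul_smooth`), in `HW G q univ` (`HW.extend` with the compact `tsupport η`), and in `L^q(volume)`
  (`LqLoc.memLp_of_zero`).  `φ_n = moll G (ρ n) u₁` with `Mol (r n) (ρ n)`, `r n ≤ 1/(n+1)` and `r n` small enough that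
  (i) `moll` is supported in a fixed compact `K' ⊆ Ω` (`left_small'` for `tsupport η`), (ii) for `x ∈ K` the kernel at `x` is supported
  in `U` (`left_small`).  `moll_smooth`, `moll_grad` (on `univ`) and `moll_tendsto` for `u₁` and `F₁`; on `K` one has `u₁ = u`,
  `F₁ = F`, so the `L^q(K)` norms are at most the global ones.  Bounds: `moll_norm_le` (for `x ∈ K` the kernel only sees
  `U`, where `F₁ = F`; `|u₁| ≤ |u|`).
* `HW.approx_cpt`: the same with `u₁ = u` (`HW.extend`, no cut-off), supports in a common compact set; `HW.approx` follows.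
* `test_ext`: `φ_n` from `HW.approx_cpt`; `|∫ ⟨H, grad φ_n - Z⟩| ≤ ‖H‖_{L^{p'}(K')} ‖grad φ_n - Z‖_{L^p} → 0`
  (Hölder: `ENNReal.lintegral_mul_le_Lp_mul_Lq` or `MemLp.integrable_mul`/`eLpNorm_smul_le_mul_eLpNorm` with `HolderTriple p p' 1`;
  everything vanishes off the compact `K' ∪ K`).
-/

set_option autoImplicit false

namespace Pool.Agent.CG

open MeasureTheory Set Filter Topology
open scoped ContDiff ENNReal

variable {N m : ℕ} {G : Carnot N m} {q : ℝ≥0∞} {Ω Ω' : Set (Pt N)} {u v : Pt N → ℝ}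
  {F V : Pt N → Hv m}

section helpers

variable (G)

private theorem ax_seq {r0 : ℝ} (hr0 : 0 < r0) : ∃ (r : ℕ → ℝ) (ρ : ℕ → Pt N → ℝ), (∀ n, r n ≤ r0) ∧
    Tendsto r atTop (𝓝 0) ∧ ∀ n, Mol (r n) (ρ n) := by
  have h1 : ∀ n : ℕ, 0 < min r0 (1 / ((n : ℝ) + 1)) := fun n => lt_min hr0 (by positivity)
  have h2 : ∀ n : ℕ, ∃ ρ : Pt N → ℝ, Mol (min r0 (1 / ((n : ℝ) + 1))) ρ := fun n => exists_mollifier (h1 n)
  choose ρ hρ using h2
  refine ⟨fun n => min r0 (1 / ((n : ℝ) + 1)), ρ, fun n => min_le_left _ _, ?_, hρ⟩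
  refine squeeze_zero (fun n => (h1 n).le) (fun n => min_le_right _ _) ?_
  exact tendsto_one_div_add_atTop_nhds_zero_nat

private theorem ax_ker {r : ℝ} {ρ : Pt N → ℝ} (h : Mol r ρ) {x y : Pt N} (hne : ρ (G.mul x (-y)) ≠ 0) :
    ‖G.mul x (-y)‖ ≤ r := by
  have h1 : G.mul x (-y) ∈ tsupport ρ := subset_closure hne
  have h2 := h.supp h1
  simpa [Metric.mem_closedBall, dist_zero_right] using h2

private theorem ax_zero {E : Type} [NormedAddCommGroup E] [NormedSpace ℝ E] {K K' : Set (Pt N)} {r r1 : ℝ} {ρ : Pt N → ℝ}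
    (h : Mol r ρ) (hr : r ≤ r1) (hKK : ∀ y ∈ K, ∀ x, ‖G.mul x (-y)‖ ≤ r1 → x ∈ K') {f : Pt N → E}
    (hf : ∀ x, x ∉ K → f x = 0) {x : Pt N} (hx : x ∉ K') : moll G ρ f x = 0 := by
  have h1 : ∀ y, ρ (G.mul x (-y)) • f y = 0 := by
    intro y
    by_cases hy : y ∈ K
    · have h2 : ρ (G.mul x (-y)) = 0 := by
        by_contra hc
        exact hx (hKK y hy x ((ax_ker G h hc).trans hr))
      rw [h2, zero_smul]
    · rw [hf y hy, smul_zero]
  unfold moll
  simp only [h1]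
  exact integral_zero _ _

private theorem ax_core (hΩ : IsOpen Ω) (hq : 1 ≤ q) (hq' : q ≠ ⊤) (hu : HW G q univ u F) {K : Set (Pt N)}
    (hK : IsCompact K) (hKΩ : K ⊆ Ω) (h1 : ∀ x, x ∉ K → u x = 0) (h2 : ∀ x, x ∉ K → F x = 0) {r0 : ℝ} (hr0 : 0 < r0) :
    ∃ K' : Set (Pt N), IsCompact K' ∧ K' ⊆ Ω ∧ ∃ (r : ℕ → ℝ) (ρ : ℕ → Pt N → ℝ), (∀ n, r n ≤ r0) ∧
      (∀ n, Mol (r n) (ρ n)) ∧ (∀ n, Test Ω (moll G (ρ n) u)) ∧
      (∀ n, tsupport (moll G (ρ n) u) ⊆ K') ∧
      (∀ n, ∀ x, G.grad (moll G (ρ n) u) x = moll G (ρ n) F x) ∧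
      Tendsto (fun n => eLpNorm (fun x => moll G (ρ n) u x - u x) q volume) atTop (𝓝 0) ∧
      Tendsto (fun n => eLpNorm (fun x => G.grad (moll G (ρ n) u) x - F x) q volume) atTop (𝓝 0) := by
  obtain ⟨r1, hr1, K', hK', hK'Ω, hKK⟩ := left_small' G hK hΩ hKΩ
  obtain ⟨r, ρ, hr, hlim, hρ⟩ := ax_seq (N := N) (lt_min hr0 hr1)
  have hum : MemLp u q volume := hu.lq.memLp_of_zero hK (subset_univ _) h1
  have hFm : MemLp F q volume := hu.lqg.memLp_of_zero hK (subset_univ _) h2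
  have hul : LocallyIntegrable u volume := hum.locallyIntegrable hq
  have hsupp : ∀ n, Function.support (moll G (ρ n) u) ⊆ K' := by
    intro n x hx
    by_contra hc
    exact hx (ax_zero G (hρ n) ((hr n).trans (min_le_right _ _)) hKK h1 hc)
  have hts : ∀ n, tsupport (moll G (ρ n) u) ⊆ K' := fun n => closure_minimal (hsupp n) hK'.isClosed
  have hgr : ∀ n, ∀ x, G.grad (moll G (ρ n) u) x = moll G (ρ n) F x := fun n x =>
    moll_grad G (hρ n).smooth (hρ n).cpt hq hu hul (subset_univ _)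
  refine ⟨K', hK', hK'Ω, r, ρ, fun n => (hr n).trans (min_le_left _ _), hρ, fun n => ⟨?_, ?_, ?_⟩, hts, hgr, ?_, ?_⟩
  · exact moll_smooth G (hρ n).smooth (hρ n).cpt hul
  · exact HasCompactSupport.of_support_subset_isCompact hK' (hsupp n)
  · exact (hts n).trans hK'Ω
  · exact moll_tendsto G hlim hρ hq hq' hum
  · simp only [hgr]
    exact moll_tendsto G hlim hρ hq hq' hFm

end helpers

theorem HW.approx_loc (hΩ : IsOpen Ω) (hq : 1 ≤ q) (hq' : q ≠ ⊤) (hu : HW G q Ω u F) {K : Set (Pt N)}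
    (hK : IsCompact K) (hKΩ : K ⊆ Ω) :
    ∃ φ : ℕ → Pt N → ℝ, (∀ n, Test Ω (φ n)) ∧
      Tendsto (fun n => eLpNorm (fun x => φ n x - u x) q (volume.restrict K)) atTop (𝓝 0) ∧
      Tendsto (fun n => eLpNorm (fun x => G.grad (φ n) x - F x) q (volume.restrict K)) atTop (𝓝 0) ∧
      (∀ L : ℝ, 0 ≤ L → (∀ᵐ x, x ∈ Ω → ‖F x‖ ≤ L) → ∀ n, ∀ x ∈ K, ‖G.grad (φ n) x‖ ≤ L) ∧
      (∀ L : ℝ, 0 ≤ L → (∀ᵐ x, x ∈ Ω → |u x| ≤ L) → ∀ n, ∀ x, |φ n x| ≤ L) := by
  obtain ⟨η, hη, hη0, hη1, U, hU, hKU, hηU⟩ := exists_test_eq_one hK hΩ hKΩ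
  obtain ⟨r0, hr0, hsm⟩ := left_small G hK hU hKU
  have hUΩ : U ⊆ Ω := by
    intro x hx
    apply hη.sub
    apply subset_closure
    show η x ≠ 0
    rw [hηU x hx]
    exact one_ne_zero
  have hw := hu.mul_smooth hq hη.smooth
  have hz1 : ∀ x, x ∉ tsupport η → η x * u x = 0 := by
    intro x hx
    rw [image_eq_zero_of_notMem_tsupport hx, zero_mul]
  have hz2 : ∀ x, x ∉ tsupport η → η x • F x + u x • G.grad η x = 0 := by
    intro x hx
    rw [image_eq_zero_of_notMem_tsupport hx, G.grad_eq_zero hx, zero_smul, smul_zero, add_zero]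
  have hw' := hw.extend hΩ hq hη.cpt hη.sub hz1 hz2
  obtain ⟨K', hK', hK'Ω, r, ρ, hr, hρ, hT, hts, hgr, hl1, hl2⟩ :=
    ax_core G hΩ hq hq' hw' hη.cpt hη.sub hz1 hz2 hr0
  have hgU : ∀ x ∈ U, G.grad η x = 0 := by
    intro x hx
    have h3 : η =ᶠ[𝓝 x] fun _ => (1 : ℝ) := by
      filter_upwards [hU.mem_nhds hx] with y hy
      exact hηU y hy
    rw [G.grad_congr_nhds h3, G.grad_const]
  have hFU : ∀ x ∈ U, η x • F x + u x • G.grad η x = F x := by
    intro x hx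
    rw [hgU x hx, hηU x hx, one_smul, smul_zero, add_zero]
  refine ⟨fun n => moll G (ρ n) (fun x => η x * u x), hT, ?_, ?_, ?_, ?_⟩
  · refine tendsto_of_tendsto_of_tendsto_of_le_of_le tendsto_const_nhds hl1 (fun n => zero_le) (fun n => ?_)
    have h3 : eLpNorm (fun x => moll G (ρ n) (fun x => η x * u x) x - u x) q (volume.restrict K) =
        eLpNorm (fun x => moll G (ρ n) (fun x => η x * u x) x - η x * u x) q (volume.restrict K) := by
      refine eLpNorm_congr_ae ?_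
      rw [Filter.EventuallyEq, ae_restrict_iff' hK.measurableSet]
      refine Eventually.of_forall fun x hx => ?_
      rw [hηU x (hKU hx), one_mul]
    show eLpNorm (fun x => moll G (ρ n) (fun x => η x * u x) x - u x) q (volume.restrict K) ≤ _
    rw [h3]
    exact eLpNorm_mono_measure _ Measure.restrict_le_self
  · refine tendsto_of_tendsto_of_tendsto_of_le_of_le tendsto_const_nhds hl2 (fun n => zero_le) (fun n => ?_)
    have h3 : eLpNorm (fun x => G.grad (moll G (ρ n) (fun x => η x * u x)) x - F x) q (volume.restrict K) =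
        eLpNorm (fun x => G.grad (moll G (ρ n) (fun x => η x * u x)) x - (η x • F x + u x • G.grad η x)) q
          (volume.restrict K) := by
      refine eLpNorm_congr_ae ?_
      rw [Filter.EventuallyEq, ae_restrict_iff' hK.measurableSet]
      refine Eventually.of_forall fun x hx => ?_
      rw [hFU x (hKU hx)]
    show eLpNorm (fun x => G.grad (moll G (ρ n) (fun x => η x * u x)) x - F x) q (volume.restrict K) ≤ _
    rw [h3]
    exact eLpNorm_mono_measure _ Measure.restrict_le_self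
  · intro L hL hF n x hx
    show ‖G.grad (moll G (ρ n) (fun x => η x * u x)) x‖ ≤ L
    rw [hgr n x]
    refine moll_norm_le G (hρ n) ?_
    filter_upwards [hF] with y hy hne
    have hyU : y ∈ U := hsm x hx y ((ax_ker G (hρ n) hne).trans (hr n))
    rw [hFU y hyU]
    exact hy (hUΩ hyU)
  · intro L hL hF n x
    show |moll G (ρ n) (fun x => η x * u x) x| ≤ L
    rw [← Real.norm_eq_abs]
    refine moll_norm_le G (hρ n) ?_
    filter_upwards [hF] with y hy _
    by_cases hyΩ : y ∈ Ω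
    · rw [Real.norm_eq_abs, abs_mul, abs_of_nonneg (hη0 y)]
      calc η y * |u y| ≤ 1 * |u y| := mul_le_mul_of_nonneg_right (hη1 y) (abs_nonneg _)
        _ = |u y| := one_mul _
        _ ≤ L := hy hyΩ
    · rw [hη.eq_zero hyΩ, zero_mul, norm_zero]
      exact hL

theorem HW.approx_cpt (hΩ : IsOpen Ω) (hq : 1 ≤ q) (hq' : q ≠ ⊤) (hu : HW G q Ω u F) {K : Set (Pt N)}
    (hK : IsCompact K) (hKΩ : K ⊆ Ω) (h1 : ∀ x, x ∉ K → u x = 0) (h2 : ∀ x, x ∉ K → F x = 0) :
    ∃ K' : Set (Pt N), IsCompact K' ∧ K' ⊆ Ω ∧ ∃ φ : ℕ → Pt N → ℝ, (∀ n, Test Ω (φ n)) ∧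
      (∀ n, tsupport (φ n) ⊆ K') ∧
      Tendsto (fun n => eLpNorm (fun x => φ n x - u x) q volume) atTop (𝓝 0) ∧
      Tendsto (fun n => eLpNorm (fun x => G.grad (φ n) x - F x) q volume) atTop (𝓝 0) := by
  obtain ⟨K', hK', hK'Ω, r, ρ, hr, hρ, hT, hts, hgr, hl1, hl2⟩ :=
    ax_core G hΩ hq hq' (hu.extend hΩ hq hK hKΩ h1 h2) hK hKΩ h1 h2 one_pos
  exact ⟨K', hK', hK'Ω, fun n => moll G (ρ n) u, hT, hts, hl1, hl2⟩

/-- Approximation by test functions (mollification). -/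
theorem HW.approx (hΩ : IsOpen Ω) (hq : 1 ≤ q) (hq' : q ≠ ⊤) (hu : HW G q Ω u F) {K : Set (Pt N)}
    (hK : IsCompact K) (hKΩ : K ⊆ Ω) (h1 : ∀ x, x ∉ K → u x = 0) (h2 : ∀ x, x ∉ K → F x = 0) :
    ∃ φ : ℕ → Pt N → ℝ, (∀ n, Test Ω (φ n)) ∧
      Tendsto (fun n => eLpNorm (fun x => φ n x - u x) q volume) atTop (𝓝 0) ∧
      Tendsto (fun n => eLpNorm (fun x => G.grad (φ n) x - F x) q volume) atTop (𝓝 0) := by
  obtain ⟨_, _, _, φ, h3, _, h4, h5⟩ := hu.approx_cpt hΩ hq hq' hK hKΩ h1 h2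
  exact ⟨φ, h3, h4, h5⟩

/-- The weak equation may be tested with compactly supported Sobolev functions. -/
theorem test_ext (hΩ : IsOpen Ω) {p p' : ℝ≥0∞} (hp : 1 ≤ p) (hp' : p ≠ ⊤) (hpp : ENNReal.HolderConjugate p p')
    {H : Pt N → Hv m} (hH : LqLoc p' Ω H)
    (h0 : ∀ φ : Pt N → ℝ, Test Ω φ → ∫ x, inner ℝ (H x) (G.grad φ x) = 0)
    {z : Pt N → ℝ} {Z : Pt N → Hv m} (hz : HW G p Ω z Z) {K : Set (Pt N)} (hK : IsCompact K)
    (hKΩ : K ⊆ Ω) (h1 : ∀ x, x ∉ K → z x = 0) (h2 : ∀ x, x ∉ K → Z x = 0) :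
    ∫ x, inner ℝ (H x) (Z x) = 0 := by
  obtain ⟨K', hK', hK'Ω, φ, hT, hts, -, hl⟩ := hz.approx_cpt hΩ hp hp' hK hKΩ h1 h2
  set S : Set (Pt N) := K ∪ K' with hS
  have hSc : IsCompact S := hK.union hK'
  have hSΩ : S ⊆ Ω := union_subset hKΩ hK'Ω
  set H' : Pt N → Hv m := S.indicator H with hH'
  have hHm : MemLp H' p' volume := by
    rw [hH', memLp_indicator_iff_restrict hSc.measurableSet]
    exact hH S hSc hSΩ
  have hZm : MemLp Z p volume := hz.lqg.memLp_of_zero hK hKΩ h2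
  have hgm : ∀ n, MemLp (G.grad (φ n)) p volume := fun n =>
    (hT n).continuous_grad.memLp_of_hasCompactSupport (hT n).cpt_grad
  haveI : ENNReal.HolderTriple p' p 1 := ENNReal.HolderTriple.symm
  have hb : ∀ (A B : Pt N → Hv m), ∀ x, ‖inner ℝ (A x) (B x)‖₊ ≤ 1 * ‖A x‖₊ * ‖B x‖₊ := by
    intro A B x
    rw [one_mul]
    exact nnnorm_inner_le_nnnorm (A x) (B x)
  have hmeas : ∀ B : Pt N → Hv m, AEStronglyMeasurable B volume →
      AEStronglyMeasurable (fun x => inner ℝ (H' x) (B x)) volume := fun B hB =>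
    hHm.aestronglyMeasurable.inner hB
  have hint : ∀ B : Pt N → Hv m, MemLp B p volume → Integrable (fun x => inner ℝ (H' x) (B x)) volume := by
    intro B hB
    rw [← memLp_one_iff_integrable]
    exact MemLp.of_bilin (fun a b : Hv m => inner ℝ a b) 1 hHm hB (hmeas B hB.aestronglyMeasurable)
      (Eventually.of_forall fun x => hb H' B x)
  have hbd : ∀ B : Pt N → Hv m, MemLp B p volume →
      ‖∫ x, inner ℝ (H' x) (B x)‖ₑ ≤ eLpNorm H' p' volume * eLpNorm B p volume := by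
    intro B hB
    refine (enorm_integral_le_lintegral_enorm _).trans ?_
    rw [← eLpNorm_one_eq_lintegral_enorm]
    have h5 := eLpNorm_le_eLpNorm_mul_eLpNorm_of_nnnorm (p := p') (q := p) (r := 1) hHm.aestronglyMeasurable hB.aestronglyMeasurable
      (fun a b : Hv m => inner ℝ a b) 1 (Eventually.of_forall fun x => hb H' B x)
    rw [ENNReal.coe_one, one_mul] at h5
    exact h5
  have e1 : ∫ x, inner ℝ (H x) (Z x) = ∫ x, inner ℝ (H' x) (Z x) := by
    refine integral_congr_ae (Eventually.of_forall fun x => ?_)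
    show inner ℝ (H x) (Z x) = inner ℝ (H' x) (Z x)
    by_cases hx : x ∈ S
    · rw [hH', indicator_of_mem hx]
    · rw [h2 x (fun hc => hx (Or.inl hc)), inner_zero_right, inner_zero_right]
  have e2 : ∀ n, ∫ x, inner ℝ (H' x) (G.grad (φ n) x) = 0 := by
    intro n
    rw [← h0 (φ n) (hT n)]
    refine integral_congr_ae (Eventually.of_forall fun x => ?_)
    show inner ℝ (H' x) (G.grad (φ n) x) = inner ℝ (H x) (G.grad (φ n) x)
    by_cases hx : x ∈ S
    · rw [hH', indicator_of_mem hx]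
    · rw [G.grad_eq_zero (fun hc => hx (Or.inr (hts n hc))), inner_zero_right, inner_zero_right]
  have e3 : ∀ n, ‖∫ x, inner ℝ (H x) (Z x)‖ₑ ≤
      eLpNorm H' p' volume * eLpNorm (fun x => G.grad (φ n) x - Z x) p volume := by
    intro n
    have h6 : ∫ x, inner ℝ (H' x) (G.grad (φ n) x - Z x) = -∫ x, inner ℝ (H x) (Z x) := by
      rw [e1, ← zero_sub, ← e2 n, ← integral_sub (hint _ (hgm n)) (hint _ hZm)]
      refine integral_congr_ae (Eventually.of_forall fun x => ?_)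
      exact inner_sub_right _ _ _
    have h7 := hbd (fun x => G.grad (φ n) x - Z x) ((hgm n).sub hZm)
    rw [h6, enorm_neg] at h7
    exact h7
  have e4 : Tendsto (fun n => eLpNorm H' p' volume * eLpNorm (fun x => G.grad (φ n) x - Z x) p volume) atTop
      (𝓝 (eLpNorm H' p' volume * 0)) :=
    ENNReal.Tendsto.const_mul hl (Or.inr hHm.eLpNorm_ne_top)
  rw [mul_zero] at e4
  have e5 : ‖∫ x, inner ℝ (H x) (Z x)‖ₑ ≤ 0 := ge_of_tendsto' e4 e3
  exact enorm_eq_zero.1 (le_antisymm e5 zero_le)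

end Pool.Agent.CG
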