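import Pool.Agent.CG.A.IntX

/-!
# CG-B-Calc (helper66): calculus of the horizontal derivatives and of test functions
-/

set_option autoImplicit false

namespace Pool.Agent.CG

open MeasureTheory Set Filter Topology
open scoped ContDiff ENNReal

variable {N m : ℕ}

namespace Carnot

variable (G : Carnot N m)

@[simp] theorem grad_apply (φ : Pt N → ℝ) (x : Pt N) (k : Fin m) : G.grad φ x k = G.X k φ x := rfl

variable {φ ψ : Pt N → ℝ} {x : Pt N}

theorem X_const (c : ℝ) (k : Fin m) (x : Pt N) : G.X k (fun _ => c) x = 0 := by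
  simp [Carnot.X]

theorem X_sub (h1 : DifferentiableAt ℝ φ x) (h2 : DifferentiableAt ℝ ψ x) (k : Fin m) :
    G.X k (fun y => φ y - ψ y) x = G.X k φ x - G.X k ψ x := by
  rw [G.X_eq h1, G.X_eq h2, G.X_eq (h1.fun_sub h2), fderiv_fun_sub h1 h2]
  rfl

theorem X_const_mul (c : ℝ) (h1 : DifferentiableAt ℝ φ x) (k : Fin m) :
    G.X k (fun y => c * φ y) x = c * G.X k φ x := by
  rw [G.X_eq h1, G.X_eq (h1.const_mul c), fderiv_const_mul h1]
  rfl

theorem grad_const (c : ℝ) (x : Pt N) : G.grad (fun _ => c) x = 0 := by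
  ext k
  simp [X_const]

theorem grad_add (h1 : DifferentiableAt ℝ φ x) (h2 : DifferentiableAt ℝ ψ x) :
    G.grad (fun y => φ y + ψ y) x = G.grad φ x + G.grad ψ x := by
  ext k
  simp [G.X_add h1 h2]

theorem grad_sub (h1 : DifferentiableAt ℝ φ x) (h2 : DifferentiableAt ℝ ψ x) :
    G.grad (fun y => φ y - ψ y) x = G.grad φ x - G.grad ψ x := by
  ext k
  simp [G.X_sub h1 h2]

theorem grad_const_mul (c : ℝ) (h1 : DifferentiableAt ℝ φ x) :
    G.grad (fun y => c * φ y) x = c • G.grad φ x := by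
  ext k
  simp [G.X_const_mul c h1]

theorem grad_mul (h1 : DifferentiableAt ℝ φ x) (h2 : DifferentiableAt ℝ ψ x) :
    G.grad (fun y => φ y * ψ y) x = φ x • G.grad ψ x + ψ x • G.grad φ x := by
  ext k
  simp [G.X_mul h1 h2]
  ring

theorem grad_comp {f : ℝ → ℝ} (hf : DifferentiableAt ℝ f (φ x)) (h1 : DifferentiableAt ℝ φ x) :
    G.grad (fun y => f (φ y)) x = deriv f (φ x) • G.grad φ x := by
  ext k
  simp [G.X_comp h1 hf]

theorem grad_sq (h1 : DifferentiableAt ℝ φ x) :
    G.grad (fun y => φ y ^ 2) x = (2 * φ x) • G.grad φ x := by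
  have h2 : (fun y => φ y ^ 2) = fun y => φ y * φ y := by
    funext y
    ring
  rw [h2, G.grad_mul h1 h1, ← add_smul, two_mul]

theorem grad_left (g : Pt N) (φ : Pt N → ℝ) (x : Pt N) :
    G.grad (fun y => φ (G.mul g y)) x = G.grad φ (G.mul g x) := by
  ext k
  simp [G.X_left g φ k x]

theorem grad_del {r : ℝ} (hr : 0 < r) (φ : Pt N → ℝ) (x : Pt N) :
    G.grad (fun y => φ (G.del r y)) x = r • G.grad φ (G.del r x) := by
  ext k
  simp [G.X_del hr φ k x]

theorem continuous_X (h : ContDiff ℝ 1 φ) (k : Fin m) : Continuous (G.X k φ) := by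
  have h1 : G.X k φ = fun x => fderiv ℝ φ x (G.vf k x) := by
    funext x
    exact G.X_eq (h.differentiable (by simp)).differentiableAt k
  rw [h1]
  exact (h.continuous_fderiv (by simp)).clm_apply (G.smooth_vf k).continuous

theorem continuous_grad (h : ContDiff ℝ 1 φ) : Continuous (G.grad φ) :=
  (PiLp.continuous_toLp 2 _).comp (continuous_pi fun k => G.continuous_X h k)

theorem X_eq_zero (k : Fin m) (h : x ∉ tsupport φ) : G.X k φ x = 0 := by
  have h1 : φ =ᶠ[𝓝 x] fun _ => (0 : ℝ) := notMem_tsupport_iff_eventuallyEq.1 h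
  have h2 : Tendsto (fun t : ℝ => G.mul x (t • G.e k)) (𝓝 0) (𝓝 x) := by
    have h3 : Continuous (fun t : ℝ => G.mul x (t • G.e k)) :=
      (G.continuous_left x).comp (continuous_id.smul continuous_const)
    have h4 := h3.tendsto 0
    simpa [G.mul_zero] using h4
  have h5 : (fun t : ℝ => φ (G.mul x (t • G.e k))) =ᶠ[𝓝 0] fun _ => (0 : ℝ) := h2.eventually h1
  rw [Carnot.X, h5.deriv_eq]
  simp

theorem grad_eq_zero (h : x ∉ tsupport φ) : G.grad φ x = 0 := by
  ext k
  simp [G.X_eq_zero k h]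

theorem tsupport_X_subset (φ : Pt N → ℝ) (k : Fin m) : tsupport (G.X k φ) ⊆ tsupport φ := by
  refine closure_minimal ?_ isClosed_closure
  intro x hx
  by_contra hc
  exact hx (G.X_eq_zero k hc)

theorem grad_congr_nhds (h : φ =ᶠ[𝓝 x] ψ) : G.grad φ x = G.grad ψ x := by
  ext k
  have h2 : Tendsto (fun t : ℝ => G.mul x (t • G.e k)) (𝓝 0) (𝓝 x) := by
    have h3 : Continuous (fun t : ℝ => G.mul x (t • G.e k)) :=
      (G.continuous_left x).comp (continuous_id.smul continuous_const)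
    have h4 := h3.tendsto 0
    simpa [G.mul_zero] using h4
  have h5 : (fun t : ℝ => φ (G.mul x (t • G.e k))) =ᶠ[𝓝 0] fun t : ℝ => ψ (G.mul x (t • G.e k)) :=
    h2.eventually h
  simp only [grad_apply, Carnot.X]
  exact h5.deriv_eq

/-- Integration by parts. -/
theorem integral_mul_X (h1 : ContDiff ℝ 1 φ) (h2 : ContDiff ℝ 1 ψ) (hc : HasCompactSupport ψ) (k : Fin m) :
    ∫ x, φ x * G.X k ψ x = -∫ x, G.X k φ x * ψ x := by
  have h3 : ∫ x, G.X k (fun y => φ y * ψ y) x = 0 :=
    G.integral_X (h1.mul h2) hc.mul_left k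
  have h4 : ∀ x, G.X k (fun y => φ y * ψ y) x = φ x * G.X k ψ x + G.X k φ x * ψ x := by
    intro x
    rw [G.X_mul (h1.differentiable (by simp)).differentiableAt (h2.differentiable (by simp)).differentiableAt]
    ring
  have hcX : HasCompactSupport (G.X k ψ) :=
    hc.mono' ((subset_closure).trans (G.tsupport_X_subset ψ k))
  have i1 : Integrable (fun x => φ x * G.X k ψ x) :=
    (h1.continuous.mul (G.continuous_X h2 k)).integrable_of_hasCompactSupport hcX.mul_left
  have i2 : Integrable (fun x => G.X k φ x * ψ x) :=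
    ((G.continuous_X h1 k).mul h2.continuous).integrable_of_hasCompactSupport hc.mul_left
  simp only [h4] at h3
  rw [integral_add i1 i2] at h3
  linarith

end Carnot

section test

variable {G : Carnot N m} {Ω Ω' : Set (Pt N)} {φ ψ : Pt N → ℝ}

theorem Test.mono (h : Test Ω φ) (hs : Ω ⊆ Ω') : Test Ω' φ := ⟨h.smooth, h.cpt, h.sub.trans hs⟩

theorem Test.diff (h : Test Ω φ) : Differentiable ℝ φ := h.smooth.differentiable (by simp)

theorem Test.c1 (h : Test Ω φ) : ContDiff ℝ 1 φ := h.smooth.of_le (by exact_mod_cast le_top)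

theorem Test.continuous (h : Test Ω φ) : Continuous φ := h.smooth.continuous

theorem Test.continuous_grad (h : Test Ω φ) : Continuous (G.grad φ) := G.continuous_grad h.c1

theorem Test.eq_zero (h : Test Ω φ) {x : Pt N} (hx : x ∉ Ω) : φ x = 0 :=
  image_eq_zero_of_notMem_tsupport fun h1 => hx (h.sub h1)

theorem Test.grad_eq_zero (h : Test Ω φ) {x : Pt N} (hx : x ∉ Ω) : G.grad φ x = 0 :=
  G.grad_eq_zero fun h1 => hx (h.sub h1)

theorem Test.cpt_grad (h : Test Ω φ) : HasCompactSupport (G.grad φ) :=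
  HasCompactSupport.intro h.cpt fun _ hx => G.grad_eq_zero hx

theorem Test.add (h1 : Test Ω φ) (h2 : Test Ω ψ) : Test Ω (fun x => φ x + ψ x) where
  smooth := h1.smooth.add h2.smooth
  cpt := h1.cpt.add h2.cpt
  sub := (tsupport_add φ ψ).trans (union_subset h1.sub h2.sub)

theorem Test.neg (h1 : Test Ω φ) : Test Ω (fun x => -φ x) where
  smooth := h1.smooth.neg
  cpt := h1.cpt.comp_left (g := fun t : ℝ => -t) neg_zero
  sub := by
    refine Subset.trans ?_ h1.sub
    refine closure_mono ?_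
    intro x hx
    simp only [Function.mem_support] at hx ⊢
    exact fun h => hx (by rw [h, neg_zero])

theorem Test.sub' (h1 : Test Ω φ) (h2 : Test Ω ψ) : Test Ω (fun x => φ x - ψ x) := by
  have h3 := h1.add h2.neg
  simpa [sub_eq_add_neg] using h3

/-- Product of a smooth function and a test function. -/
theorem Test.smooth_mul {η : Pt N → ℝ} (hη : ContDiff ℝ ∞ η) (h1 : Test Ω φ) : Test Ω (fun x => η x * φ x) where
  smooth := hη.mul h1.smooth
  cpt := h1.cpt.mul_left
  sub := (closure_mono (Function.support_mul_subset_right η φ)).trans h1.sub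

theorem Test.const_mul (c : ℝ) (h1 : Test Ω φ) : Test Ω (fun x => c * φ x) :=
  Test.smooth_mul contDiff_const h1

theorem Test.mul (h1 : Test Ω φ) (h2 : Test Ω ψ) : Test Ω (fun x => φ x * ψ x) :=
  Test.smooth_mul h1.smooth h2

theorem Test.sq (h1 : Test Ω φ) : Test Ω (fun x => φ x ^ 2) := by
  have h2 := h1.mul h1
  have h3 : (fun x => φ x ^ 2) = fun x => φ x * φ x := by
    funext x
    ring
  rw [h3]
  exact h2

theorem Test.left (h1 : Test Ω φ) (G : Carnot N m) (g : Pt N) :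
    Test {x | G.mul g x ∈ Ω} (fun x => φ (G.mul g x)) where
  smooth := h1.smooth.comp (G.smooth_left g)
  cpt := h1.cpt.comp_homeomorph (G.homeoL g)
  sub := by
    have h2 : tsupport (fun x => φ (G.mul g x)) = (G.homeoL g) ⁻¹' tsupport φ :=
      tsupport_comp_eq_preimage φ (G.homeoL g)
    rw [h2]
    exact fun x hx => h1.sub hx

theorem Test.del (h1 : Test Ω φ) (G : Carnot N m) {r : ℝ} (hr : r ≠ 0) :
    Test {x | G.del r x ∈ Ω} (fun x => φ (G.del r x)) where
  smooth := h1.smooth.comp (G.smooth_del r)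
  cpt := h1.cpt.comp_homeomorph (G.homeoD r hr)
  sub := by
    have h2 : tsupport (fun x => φ (G.del r x)) = (G.homeoD r hr) ⁻¹' tsupport φ :=
      tsupport_comp_eq_preimage φ (G.homeoD r hr)
    rw [h2]
    exact fun x hx => h1.sub hx

theorem Test.bdd (h1 : Test Ω φ) : ∃ C : ℝ, 0 ≤ C ∧ ∀ x, |φ x| ≤ C := by
  obtain ⟨C, hC⟩ := h1.cpt.exists_bound_of_continuous h1.continuous
  exact ⟨C, (norm_nonneg _).trans (hC 0), fun x => hC x⟩

theorem Test.bdd_grad (h1 : Test Ω φ) (G : Carnot N m) : ∃ C : ℝ, 0 ≤ C ∧ ∀ x, ‖G.grad φ x‖ ≤ C := by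
  obtain ⟨C, hC⟩ := (h1.cpt_grad (G := G)).exists_bound_of_continuous h1.continuous_grad
  exact ⟨C, (norm_nonneg _).trans (hC 0), fun x => hC x⟩

/-- Smooth cut-off functions between a compact set and an open set. -/
theorem exists_test_eq_one {K : Set (Pt N)} (hK : IsCompact K) (hΩ : IsOpen Ω) (hKΩ : K ⊆ Ω) :
    ∃ η : Pt N → ℝ, Test Ω η ∧ (∀ x, 0 ≤ η x) ∧ (∀ x, η x ≤ 1) ∧ ∃ U : Set (Pt N), IsOpen U ∧ K ⊆ U ∧
      ∀ x ∈ U, η x = 1 := by
  obtain ⟨L, hL, hKL, hLΩ⟩ := exists_compact_between hK hΩ hKΩ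
  obtain ⟨L', hL', hLL', hLΩ'⟩ := exists_compact_between hL hΩ hLΩ
  obtain ⟨f, hf1, hf2, hf3, hf4⟩ := exists_contMDiff_support_eq_eq_one_iff (modelWithCornersSelf ℝ (Pt N))
    (M := Pt N) (n := (⊤ : ℕ∞)) (isOpen_interior (s := L')) hL.isClosed hLL'
  have hf1' : ContDiff ℝ ∞ f := hf1.contDiff
  have hsub : tsupport f ⊆ L' := by
    rw [tsupport, hf3]
    exact closure_minimal interior_subset hL'.isClosed
  refine ⟨f, ⟨hf1', HasCompactSupport.of_support_subset_isCompact hL' (subset_closure.trans hsub), hsub.trans hLΩ'⟩,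
    ?_, ?_, interior L, isOpen_interior, hKL, ?_⟩
  · intro x; exact (hf2 (mem_range_self x)).1
  · intro x; exact (hf2 (mem_range_self x)).2
  · intro x hx; exact (hf4 x).1 (interior_subset hx)

end test

end Pool.Agent.CG
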