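import Pool.Agent.CG.B.Approx

/-!
# CG-B-Chain (helper66): chain rule, positive part

PLAN.
* `HW.of_one`: only integrability changes.
* `HW.comp_c1`: `LqLoc`: `|f t| ≤ |f 0| + L |t|`, `|f'| ≤ L` (`MemLp.of_le`-type arguments, measurability from continuity of `f`, `deriv f`).
  Weak formula with `q = 1` (`HW.mono_exp`): let `φ` be a test function, `K = tsupport φ`, `φ_n` from `HW.approx_loc` (`q = 1`).
  `∫ f(φ_n) X_k φ = -∫ f'(φ_n) X_k φ_n φ` (`G.integral_mul_X`, `G.X_comp`).  Left side `→ ∫ f(u) X_k φ` (`|f(φ_n) - f(u)| ≤ L |φ_n - u|`).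
  Right side: `∫ f'(φ_n) (X_k φ_n - F_k) φ → 0`, and along a subsequence with `φ_n → u` a.e. on `K`
  (`tendstoInMeasure_of_tendsto_eLpNorm`, `TendstoInMeasure.exists_seq_tendsto_ae`) `∫ f'(φ_n) F_k φ → ∫ f'(u) F_k φ` by dominated convergence.
* `HW.posPart`: `w = u - k` (`HW.add_const`).  `g_n(s) = max 0 (min 1 (n s))`, `f_n(t) = ∫ s in 0..t, g_n s` (`C^1`, `f_n' = g_n`,
  `contDiff_one_iff_deriv`), `|f_n(t) - max t 0| ≤ 1/n`, `g_n(t) → 1_{t>0}`, `0 ≤ g_n ≤ 1`.  `HW.comp_c1` with `q = 1`, then `HW.lim` with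
  `q = 1` (dominated convergence in `L^1(K)` for the gradients), then `HW.of_one`.
* `HW.zero_on_level`: `u - k = (u-k)_+ - (k-u)_+`, so `F = 1_{u>k} F + 1_{u<k} F` a.e. by `HW.unique`.
* `HW.minConst`: `min u k = u - (u-k)_+`.
-/

set_option autoImplicit false

namespace Pool.Agent.CG

open MeasureTheory Set Filter Topology
open scoped ContDiff ENNReal

variable {N m : ℕ} {G : Carnot N m} {q : ℝ≥0∞} {Ω Ω' : Set (Pt N)} {u v : Pt N → ℝ}
  {F V : Pt N → Hv m}

theorem HW.of_one (hu : HW G 1 Ω u F) (h1 : LqLoc q Ω u) (h2 : LqLoc q Ω F) : HW G q Ω u F := by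
  exact ⟨h1, h2, hu.weak⟩

private theorem lim_zero {E : Type*} [NormedAddCommGroup E] {K : Set (Pt N)} (hK : MeasurableSet K)
    (H : ℕ → Pt N → ℝ) (g : ℕ → Pt N → E) (C : ℝ) (h0 : ∀ n x, x ∉ K → H n x = 0)
    (hb : ∀ n x, |H n x| ≤ C * ‖g n x‖)
    (hg : Tendsto (fun n => eLpNorm (g n) 1 (volume.restrict K)) atTop (𝓝 0)) :
    Tendsto (fun n => ∫ x, H n x) atTop (𝓝 0) := by
  have h1 : ∀ n, ‖∫ x, H n x‖ₑ ≤ ENNReal.ofReal C * eLpNorm (g n) 1 (volume.restrict K) := by
    intro n
    have e1 : ∫ x, H n x = ∫ x in K, H n x := by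
      rw [setIntegral_eq_integral_of_forall_compl_eq_zero]
      exact fun x hx => h0 n x hx
    rw [e1]
    refine (enorm_integral_le_lintegral_enorm _).trans ?_
    rw [eLpNorm_one_eq_lintegral_enorm, ← lintegral_const_mul' _ _ ENNReal.ofReal_ne_top]
    refine lintegral_mono fun x => ?_
    rw [← ofReal_norm_eq_enorm, ← ofReal_norm_eq_enorm]
    by_cases hC : 0 ≤ C
    · rw [← ENNReal.ofReal_mul hC]
      exact ENNReal.ofReal_le_ofReal (hb n x)
    · have h2 : |H n x| ≤ 0 := (hb n x).trans (mul_nonpos_of_nonpos_of_nonneg (not_le.1 hC).le (norm_nonneg _))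
      have h3 : ‖H n x‖ = 0 := le_antisymm h2 (norm_nonneg _)
      rw [h3]
      simp
  have h2 : Tendsto (fun n => ENNReal.ofReal C * eLpNorm (g n) 1 (volume.restrict K)) atTop (𝓝 0) := by
    have := ENNReal.Tendsto.const_mul (a := ENNReal.ofReal C) hg (Or.inr ENNReal.ofReal_ne_top)
    simpa using this
  have h3 : Tendsto (fun n => ‖∫ x, H n x‖ₑ) atTop (𝓝 0) :=
    tendsto_of_tendsto_of_tendsto_of_le_of_le tendsto_const_nhds h2 (fun _ => zero_le) h1
  rw [tendsto_zero_iff_norm_tendsto_zero]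
  have h4 := (ENNReal.tendsto_toReal ENNReal.zero_ne_top).comp h3
  simpa [Function.comp_def] using h4

private theorem lip_of_deriv {f : ℝ → ℝ} (hf : ContDiff ℝ 1 f) {L : ℝ} (hL : ∀ t, |deriv f t| ≤ L) (s t : ℝ) :
    |f s - f t| ≤ L * |s - t| := by
  have := (convex_univ (𝕜 := ℝ) (E := ℝ)).norm_image_sub_le_of_norm_deriv_le (f := f) (C := L) (x := t) (y := s)
    (fun x _ => (hf.differentiable (by simp)).differentiableAt) (fun x _ => hL x) (mem_univ _) (mem_univ _)
  simpa [Real.norm_eq_abs] using this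

theorem HW.comp_c1 (hΩ : IsOpen Ω) (hq : 1 ≤ q) (hu : HW G q Ω u F) {f : ℝ → ℝ} (hf : ContDiff ℝ 1 f) {L : ℝ}
    (hL : ∀ t, |deriv f t| ≤ L) : HW G q Ω (fun x => f (u x)) (fun x => deriv f (u x) • F x) := by
  have hL0 : 0 ≤ L := (abs_nonneg _).trans (hL 0)
  have hfc : Continuous f := hf.continuous
  have hdc : Continuous (deriv f) := hf.continuous_deriv le_rfl
  have l1 : LqLoc q Ω (fun x => f (u x)) := by
    intro K hK hK'
    have : Fact (IsCompact K) := ⟨hK⟩
    have m1 := hu.lq K hK hK'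
    have m2 : MemLp (fun x => |f 0| + L * |u x|) q (volume.restrict K) :=
      (memLp_const |f 0|).add (m1.norm.const_mul L)
    refine m2.of_le (hfc.comp_aestronglyMeasurable m1.aestronglyMeasurable) (Eventually.of_forall fun x => ?_)
    have h1 := lip_of_deriv hf hL (u x) 0
    rw [sub_zero] at h1
    have h2 : |f (u x)| ≤ |f 0| + L * |u x| := by
      have := abs_sub_abs_le_abs_sub (f (u x)) (f 0)
      linarith
    rw [Real.norm_eq_abs, Real.norm_eq_abs, abs_of_nonneg (by positivity : 0 ≤ |f 0| + L * |u x|)]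
    exact h2
  have l2 : LqLoc q Ω (fun x => deriv f (u x) • F x) := by
    intro K hK hK'
    have m1 := hu.lq K hK hK'
    have m2 := hu.lqg K hK hK'
    refine m2.of_le_mul (c := L) ((hdc.comp_aestronglyMeasurable m1.aestronglyMeasurable).smul
      m2.aestronglyMeasurable) (Eventually.of_forall fun x => ?_)
    rw [norm_smul]
    exact mul_le_mul_of_nonneg_right (hL _) (norm_nonneg _)
  refine ⟨l1, l2, fun φ hφ k => ?_⟩
  have hu1 : HW G 1 Ω u F := hu.mono_exp hq
  set K := tsupport φ with hKdef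
  have hK : IsCompact K := hφ.cpt
  have hKΩ : K ⊆ Ω := hφ.sub
  have : Fact (IsCompact K) := ⟨hK⟩
  obtain ⟨ψ, hT, hc1, hc2, -, -⟩ := hu1.approx_loc hΩ le_rfl ENNReal.one_ne_top hK hKΩ
  obtain ⟨C, hC0, hC⟩ := hφ.bdd
  obtain ⟨C', hC0', hC'⟩ := hφ.bdd_grad G
  have hXC : ∀ x, |G.X k φ x| ≤ C' := fun x => by
    have := PiLp.norm_apply_le (G.grad φ x) k
    rw [G.grad_apply, Real.norm_eq_abs] at this
    exact this.trans (hC' x)
  -- a subsequence
  have hm : TendstoInMeasure (volume.restrict K) ψ atTop u := by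
    refine tendstoInMeasure_of_tendsto_eLpNorm one_ne_zero (fun n => (hT n).continuous.aestronglyMeasurable)
      (hu1.lq K hK hKΩ).aestronglyMeasurable ?_
    exact hc1
  obtain ⟨ns, hns, hae⟩ := hm.exists_seq_tendsto_ae
  have hnst : Tendsto ns atTop atTop := hns.tendsto_atTop
  -- the identity for the approximations
  have hid : ∀ n, ∫ x, f (ψ n x) * G.X k φ x = -∫ x, deriv f (ψ n x) * G.X k (ψ n) x * φ x := by
    intro n
    have h1 : ContDiff ℝ 1 (fun x => f (ψ n x)) := hf.comp (hT n).c1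
    rw [G.integral_mul_X h1 hφ.c1 hφ.cpt k]
    congr 1
    refine integral_congr_ae (Eventually.of_forall fun x => ?_)
    simp only
    rw [G.X_comp (hT n).diff.differentiableAt (hf.differentiable (by simp)).differentiableAt]
  -- left side
  have iu : Integrable (fun x => f (u x) * G.X k φ x) := l1.integrable_mul_X hq hφ k
  have iψ : ∀ n, Integrable (fun x => f (ψ n x) * G.X k φ x) := fun n =>
    (LqLoc.of_continuous (q := 1) (Ω := Ω) (hfc.comp (hT n).continuous)).integrable_mul_X le_rfl hφ k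
  have hA : Tendsto (fun n => ∫ x, f (ψ n x) * G.X k φ x) atTop (𝓝 (∫ x, f (u x) * G.X k φ x)) := by
    have h1 : Tendsto (fun n => ∫ x, (f (ψ n x) - f (u x)) * G.X k φ x) atTop (𝓝 0) := by
      refine lim_zero hK.measurableSet _ (fun n x => ψ n x - u x) (L * C') (fun n x hx => ?_) (fun n x => ?_) hc1
      · rw [G.X_eq_zero k hx, mul_zero]
      · rw [abs_mul, Real.norm_eq_abs]
        have h2 := lip_of_deriv hf hL (ψ n x) (u x)
        calc |f (ψ n x) - f (u x)| * |G.X k φ x| ≤ (L * |ψ n x - u x|) * C' :=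
              mul_le_mul h2 (hXC x) (abs_nonneg _) (by positivity)
          _ = L * C' * |ψ n x - u x| := by ring
    have h2 : ∀ n, ∫ x, f (ψ n x) * G.X k φ x =
        (∫ x, (f (ψ n x) - f (u x)) * G.X k φ x) + ∫ x, f (u x) * G.X k φ x := by
      intro n
      have h3 : Integrable (fun x => (f (ψ n x) - f (u x)) * G.X k φ x) := by
        refine ((iψ n).sub iu).congr (Eventually.of_forall fun x => ?_)
        simp only [Pi.sub_apply]
        ring
      rw [← integral_add h3 iu]
      refine integral_congr_ae (Eventually.of_forall fun x => ?_)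
      simp only
      ring
    simp only [h2]
    simpa using h1.add_const (∫ x, f (u x) * G.X k φ x)
  -- right side
  have iF : Integrable (fun x => F x k * φ x) :=
    (hu1.lqg.comp_apply k).integrable_mul le_rfl hφ.continuous hφ.cpt hφ.sub
  have hmeasF : AEStronglyMeasurable (fun x => F x k * φ x) (volume.restrict K) := iF.aestronglyMeasurable.restrict
  have hB1 : Tendsto (fun n => ∫ x, deriv f (ψ n x) * (G.X k (ψ n) x - F x k) * φ x) atTop (𝓝 0) := by
    refine lim_zero hK.measurableSet _ (fun n x => G.grad (ψ n) x - F x) (L * C) (fun n x hx => ?_)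
      (fun n x => ?_) hc2
    · rw [image_eq_zero_of_notMem_tsupport hx, mul_zero]
    · have h2 : |G.X k (ψ n) x - F x k| ≤ ‖G.grad (ψ n) x - F x‖ := by
        have := PiLp.norm_apply_le (G.grad (ψ n) x - F x) k
        rwa [PiLp.sub_apply, G.grad_apply, Real.norm_eq_abs] at this
      rw [abs_mul, abs_mul]
      calc |deriv f (ψ n x)| * |G.X k (ψ n) x - F x k| * |φ x| ≤ (L * ‖G.grad (ψ n) x - F x‖) * C :=
            mul_le_mul (mul_le_mul (hL _) h2 (abs_nonneg _) hL0) (hC x) (abs_nonneg _) (by positivity)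
        _ = L * C * ‖G.grad (ψ n) x - F x‖ := by ring
  have hB2 : Tendsto (fun j => ∫ x, deriv f (ψ (ns j) x) * (F x k * φ x)) atTop
      (𝓝 (∫ x, deriv f (u x) * (F x k * φ x))) := by
    have hr : ∀ w : Pt N → ℝ, ∫ x, deriv f (w x) * (F x k * φ x) =
        ∫ x in K, deriv f (w x) * (F x k * φ x) := by
      intro w
      rw [setIntegral_eq_integral_of_forall_compl_eq_zero]
      intro x hx
      rw [image_eq_zero_of_notMem_tsupport hx, mul_zero, mul_zero]
    simp only [hr]
    refine tendsto_integral_of_dominated_convergence (fun x => L * |F x k * φ x|) (fun j => ?_) ?_ (fun j => ?_) ?_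
    · exact ((hdc.comp (hT _).continuous).aestronglyMeasurable).mul hmeasF
    · exact (iF.abs.const_mul L).restrict
    · refine Eventually.of_forall fun x => ?_
      rw [norm_mul]
      exact mul_le_mul_of_nonneg_right (hL _) (norm_nonneg _)
    · filter_upwards [hae] with x hx
      exact ((hdc.tendsto (u x)).comp hx).mul_const _
  have iB1 : ∀ n, Integrable (fun x => deriv f (ψ n x) * (G.X k (ψ n) x - F x k) * φ x) := by
    intro n
    have h3 : LqLoc 1 Ω (fun x => deriv f (ψ n x) * (G.X k (ψ n) x - F x k)) := by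
      have h4 : LqLoc 1 Ω (fun x => G.X k (ψ n) x - F x k) :=
        (LqLoc.of_continuous (G.continuous_X (hT n).c1 k)).sub (hu1.lqg.comp_apply k)
      exact h4.bdd_smul (hdc.comp (hT n).continuous).continuousOn
    exact h3.integrable_mul le_rfl hφ.continuous hφ.cpt hφ.sub
  have iB2 : ∀ n, Integrable (fun x => deriv f (ψ n x) * (F x k * φ x)) := by
    intro n
    have h3 : LqLoc 1 Ω (fun x => deriv f (ψ n x) * F x k) :=
      (hu1.lqg.comp_apply k).bdd_smul (hdc.comp (hT n).continuous).continuousOn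
    refine (h3.integrable_mul le_rfl hφ.continuous hφ.cpt hφ.sub).congr (Eventually.of_forall fun x => ?_)
    simp only
    ring
  have hB3 : ∀ n, ∫ x, deriv f (ψ n x) * G.X k (ψ n) x * φ x =
      (∫ x, deriv f (ψ n x) * (G.X k (ψ n) x - F x k) * φ x) + ∫ x, deriv f (ψ n x) * (F x k * φ x) := by
    intro n
    rw [← integral_add (iB1 n) (iB2 n)]
    refine integral_congr_ae (Eventually.of_forall fun x => ?_)
    simp only
    ring
  have hB : Tendsto (fun j => ∫ x, deriv f (ψ (ns j) x) * G.X k (ψ (ns j)) x * φ x) atTop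
      (𝓝 (∫ x, deriv f (u x) * (F x k * φ x))) := by
    simp only [hB3]
    simpa using (hB1.comp hnst).add hB2
  have hA' := hA.comp hnst
  simp only [Function.comp_def, hid] at hA'
  have h5 := tendsto_nhds_unique hA' hB.neg
  rw [h5]
  congr 1
  refine integral_congr_ae (Eventually.of_forall fun x => ?_)
  simp only [PiLp.smul_apply, smul_eq_mul]
  ring

private theorem tendsto_eLpNorm_one' {E : Type*} [NormedAddCommGroup E] {μ : Measure (Pt N)}
    (g : ℕ → Pt N → E) (b : Pt N → ℝ) (hb : Integrable b μ) (hm : ∀ n, AEStronglyMeasurable (g n) μ)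
    (h1 : ∀ n, ∀ᵐ x ∂μ, ‖g n x‖ ≤ b x) (h2 : ∀ᵐ x ∂μ, Tendsto (fun n => g n x) atTop (𝓝 0)) :
    Tendsto (fun n => eLpNorm (g n) 1 μ) atTop (𝓝 0) := by
  simp only [eLpNorm_one_eq_lintegral_enorm]
  have h3 := tendsto_lintegral_of_dominated_convergence' (μ := μ) (F := fun n x => ‖g n x‖ₑ) (f := fun _ => 0)
    (fun x => ENNReal.ofReal (b x)) (fun n => (hm n).enorm) (fun n => ?_) ?_ ?_
  · simpa using h3
  · filter_upwards [h1 n] with x hx
    rw [← ofReal_norm_eq_enorm]
    exact ENNReal.ofReal_le_ofReal hx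
  · exact (hb.lintegral_lt_top).ne
  · filter_upwards [h2] with x hx
    have := hx.enorm
    simpa using this

/-- the square of the positive part -/
private theorem hasDerivAt_P (t : ℝ) : HasDerivAt (fun s : ℝ => (max s 0) ^ 2) (2 * max t 0) t := by
  rcases lt_trichotomy t 0 with h | h | h
  · rw [max_eq_right h.le, MulZeroClass.mul_zero]
    refine (hasDerivAt_const t (0 : ℝ)).congr_of_eventuallyEq ?_
    filter_upwards [Iio_mem_nhds h] with s hs
    rw [max_eq_right (le_of_lt hs)]
    norm_num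
  · subst h
    rw [max_self, MulZeroClass.mul_zero, hasDerivAt_iff_tendsto_slope_zero]
    have h1 : ∀ s : ℝ, |s⁻¹ • ((max (0 + s) 0) ^ 2 - (max (0 : ℝ) 0) ^ 2)| ≤ |s| := by
      intro s
      rw [zero_add, max_self, smul_eq_mul, abs_mul, abs_inv]
      have h2 : |(max s 0) ^ 2 - (0 : ℝ) ^ 2| ≤ |s| ^ 2 := by
        rw [zero_pow two_ne_zero, sub_zero, abs_pow]
        refine pow_le_pow_left₀ (abs_nonneg _) ?_ 2
        rw [abs_of_nonneg (le_max_right s 0)]
        exact max_le (le_abs_self s) (abs_nonneg s)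
      rcases eq_or_ne s 0 with rfl | hs
      · simp
      · have h3 : 0 < |s| := abs_pos.2 hs
        calc |s|⁻¹ * |(max s 0) ^ 2 - (0 : ℝ) ^ 2| ≤ |s|⁻¹ * |s| ^ 2 :=
              mul_le_mul_of_nonneg_left h2 (inv_nonneg.2 (abs_nonneg s))
          _ = |s| := by field_simp
    rw [tendsto_zero_iff_norm_tendsto_zero]
    have h4 : Tendsto (fun s : ℝ => |s|) (𝓝[≠] 0) (𝓝 0) := by
      have : Tendsto (fun s : ℝ => |s|) (𝓝 0) (𝓝 |(0 : ℝ)|) := continuous_abs.tendsto 0
      rw [abs_zero] at this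
      exact this.mono_left nhdsWithin_le_nhds
    exact squeeze_zero (fun _ => norm_nonneg _) h1 h4
  · rw [max_eq_left h.le]
    have h1 : HasDerivAt (fun s : ℝ => s ^ 2) (2 * t) t := by simpa using hasDerivAt_pow 2 t
    refine h1.congr_of_eventuallyEq ?_
    filter_upwards [Ioi_mem_nhds h] with s hs
    rw [max_eq_left (le_of_lt hs)]

/-- smooth approximation of the positive part -/
private noncomputable def fe (ε : ℝ) (t : ℝ) : ℝ := Real.sqrt ((max t 0) ^ 2 + ε ^ 2) - ε

private theorem hasDerivAt_fe {ε : ℝ} (hε : 0 < ε) (t : ℝ) :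
    HasDerivAt (fe ε) ((2 * max t 0) / (2 * Real.sqrt ((max t 0) ^ 2 + ε ^ 2))) t := by
  have h1 : HasDerivAt (fun s : ℝ => (max s 0) ^ 2 + ε ^ 2) (2 * max t 0) t := (hasDerivAt_P t).add_const _
  have h2 : (max t 0) ^ 2 + ε ^ 2 ≠ 0 := by positivity
  exact (h1.sqrt h2).sub_const ε

private theorem contDiff_fe {ε : ℝ} (hε : 0 < ε) : ContDiff ℝ 1 (fe ε) := by
  rw [contDiff_one_iff_deriv]
  refine ⟨fun t => (hasDerivAt_fe hε t).differentiableAt, ?_⟩
  have h1 : deriv (fe ε) = fun t => (2 * max t 0) / (2 * Real.sqrt ((max t 0) ^ 2 + ε ^ 2)) :=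
    funext fun t => (hasDerivAt_fe hε t).deriv
  rw [h1]
  have hc : Continuous (fun t : ℝ => max t 0) := continuous_id.max continuous_const
  refine (continuous_const.mul hc).div (continuous_const.mul ((hc.pow 2).add continuous_const).sqrt) fun t => ?_
  have : 0 < Real.sqrt ((max t 0) ^ 2 + ε ^ 2) := Real.sqrt_pos.2 (by positivity)
  positivity

private theorem deriv_fe_le {ε : ℝ} (hε : 0 < ε) (t : ℝ) : |deriv (fe ε) t| ≤ 1 := by
  rw [(hasDerivAt_fe hε t).deriv]
  have h1 : 0 < Real.sqrt ((max t 0) ^ 2 + ε ^ 2) := Real.sqrt_pos.2 (by positivity)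
  have h2 : max t 0 ≤ Real.sqrt ((max t 0) ^ 2 + ε ^ 2) := by
    refine Real.le_sqrt_of_sq_le ?_
    nlinarith [sq_nonneg ε]
  have h3 : 0 ≤ max t 0 := le_max_right t 0
  rw [abs_of_nonneg (by positivity), div_le_one (by positivity)]
  linarith

private theorem fe_sub_le {ε : ℝ} (hε : 0 < ε) (t : ℝ) : |fe ε t - max t 0| ≤ ε := by
  have h3 : 0 ≤ max t 0 := le_max_right t 0
  have h1 : max t 0 ≤ Real.sqrt ((max t 0) ^ 2 + ε ^ 2) := by
    refine Real.le_sqrt_of_sq_le ?_
    nlinarith [sq_nonneg ε]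
  have h2 : Real.sqrt ((max t 0) ^ 2 + ε ^ 2) ≤ max t 0 + ε := by
    rw [Real.sqrt_le_left (by positivity)]
    nlinarith [mul_nonneg h3 hε.le]
  rw [fe, abs_le]
  constructor <;> linarith

private theorem tendsto_deriv_fe (t : ℝ) :
    Tendsto (fun n : ℕ => deriv (fe (1 / ((n : ℝ) + 1))) t) atTop (𝓝 (if 0 < t then 1 else 0)) := by
  have h0 : ∀ n : ℕ, 0 < 1 / ((n : ℝ) + 1) := fun n => by positivity
  simp only [(hasDerivAt_fe (h0 _) t).deriv]
  split_ifs with h
  · rw [max_eq_left h.le]
    have h1 : Tendsto (fun n : ℕ => (2 * t) / (2 * Real.sqrt (t ^ 2 + (1 / ((n : ℝ) + 1)) ^ 2))) atTop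
        (𝓝 ((2 * t) / (2 * Real.sqrt (t ^ 2 + 0 ^ 2)))) := by
      have h2 : Tendsto (fun n : ℕ => Real.sqrt (t ^ 2 + (1 / ((n : ℝ) + 1)) ^ 2)) atTop
          (𝓝 (Real.sqrt (t ^ 2 + 0 ^ 2))) :=
        ((tendsto_one_div_add_atTop_nhds_zero_nat (𝕜 := ℝ)).pow 2).const_add (t ^ 2) |>.sqrt
      refine tendsto_const_nhds.div (h2.const_mul 2) ?_
      have : 0 < Real.sqrt (t ^ 2 + 0 ^ 2) := Real.sqrt_pos.2 (by positivity)
      positivity
    have h3 : (2 * t) / (2 * Real.sqrt (t ^ 2 + 0 ^ 2)) = 1 := by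
      have h4 : Real.sqrt (t ^ 2 + 0 ^ 2) = t := by
        rw [zero_pow two_ne_zero, add_zero, Real.sqrt_sq h.le]
      rw [h4]
      field_simp
    rw [h3] at h1
    exact h1
  · rw [max_eq_right (not_lt.1 h)]
    simp

theorem HW.posPart (hΩ : IsOpen Ω) (hq : 1 ≤ q) (hu : HW G q Ω u F) (k : ℝ) :
    HW G q Ω (fun x => max (u x - k) 0) (fun x => if k < u x then F x else 0) := by
  classical
  have hw : HW G q Ω (fun x => u x + -k) F := hu.add_const hq (-k)
  -- membership
  have l1 : ∀ q' : ℝ≥0∞, LqLoc q' Ω u → LqLoc q' Ω (fun x => max (u x - k) 0) := by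
    intro q' h K hK hK'
    have : Fact (IsCompact K) := ⟨hK⟩
    have m1 := h K hK hK'
    have m2 : MemLp (fun x => |u x| + |k|) q' (volume.restrict K) := m1.norm.add (memLp_const |k|)
    refine m2.of_le ?_ (Eventually.of_forall fun x => ?_)
    · have hc : Continuous (fun t : ℝ => max (t - k) 0) := (continuous_id.sub continuous_const).max continuous_const
      exact hc.comp_aestronglyMeasurable m1.aestronglyMeasurable
    · rw [Real.norm_eq_abs, Real.norm_eq_abs, abs_of_nonneg (le_max_right _ _),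
        abs_of_nonneg (by positivity : 0 ≤ |u x| + |k|)]
      refine max_le ?_ (by positivity)
      have h2 := le_abs_self (u x)
      have h3 := neg_abs_le k
      linarith
  have hite : (fun x => if k < u x then F x else 0) = fun x => (if k < u x then (1 : ℝ) else 0) • F x := by
    funext x
    split_ifs <;> simp
  have hmeas : ∀ K, IsCompact K → K ⊆ Ω →
      AEStronglyMeasurable (fun x => if k < u x then F x else 0) (volume.restrict K) := by
    intro K hK hK'
    rw [hite]
    have m0 : Measurable (fun t : ℝ => if k < t then (1 : ℝ) else 0) :=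
      Measurable.ite measurableSet_Ioi measurable_const measurable_const
    exact ((m0.comp_aemeasurable (hu.lq K hK hK').aestronglyMeasurable.aemeasurable).aestronglyMeasurable).smul
      (hu.lqg K hK hK').aestronglyMeasurable
  have hnorm : ∀ x, ‖(if k < u x then F x else 0)‖ ≤ ‖F x‖ := by
    intro x
    split_ifs
    · exact le_rfl
    · simp
  have l2 : ∀ q' : ℝ≥0∞, LqLoc q' Ω F → LqLoc q' Ω (fun x => if k < u x then F x else 0) := by
    intro q' h K hK hK'
    exact (h K hK hK').of_le (hmeas K hK hK') (Eventually.of_forall hnorm)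
  have hu1 : HW G 1 Ω u F := hu.mono_exp hq
  have h0 : ∀ n : ℕ, 0 < 1 / ((n : ℝ) + 1) := fun n => by positivity
  have hn : ∀ n : ℕ, HW G 1 Ω (fun x => fe (1 / ((n : ℝ) + 1)) (u x + -k))
      (fun x => deriv (fe (1 / ((n : ℝ) + 1))) (u x + -k) • F x) := fun n =>
    (hw.mono_exp hq).comp_c1 hΩ le_rfl (contDiff_fe (h0 n)) (deriv_fe_le (h0 n))
  have hlim : HW G 1 Ω (fun x => max (u x - k) 0) (fun x => if k < u x then F x else 0) := by
    refine HW.lim le_rfl hn (l1 1 hu1.lq) (l2 1 hu1.lqg) (fun K hK hK' => ?_) (fun K hK hK' => ?_)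
    · have : Fact (IsCompact K) := ⟨hK⟩
      refine tendsto_eLpNorm_one' _ (fun _ => 1) (integrable_const 1) (fun n => ?_) (fun n => ?_) ?_
      · exact ((hn n).lq K hK hK').aestronglyMeasurable.sub ((l1 1 hu1.lq) K hK hK').aestronglyMeasurable
      · refine Eventually.of_forall fun x => ?_
        rw [Real.norm_eq_abs, sub_eq_add_neg (u x) k]
        refine (fe_sub_le (h0 n) _).trans ?_
        rw [div_le_one (by positivity)]
        have : (0 : ℝ) ≤ n := Nat.cast_nonneg n
        linarith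
      · refine Eventually.of_forall fun x => ?_
        rw [tendsto_zero_iff_norm_tendsto_zero]
        refine squeeze_zero (fun _ => norm_nonneg _) (fun n => ?_) (tendsto_one_div_add_atTop_nhds_zero_nat (𝕜 := ℝ))
        rw [Real.norm_eq_abs, sub_eq_add_neg (u x) k]
        exact fe_sub_le (h0 n) _
    · have hFi : Integrable (fun x => 2 * ‖F x‖) (volume.restrict K) :=
        ((memLp_one_iff_integrable.1 (hu1.lqg K hK hK')).norm).const_mul 2
      refine tendsto_eLpNorm_one' _ (fun x => 2 * ‖F x‖) hFi (fun n => ?_) (fun n => ?_) ?_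
      · exact ((hn n).lqg K hK hK').aestronglyMeasurable.sub (hmeas K hK hK')
      · refine Eventually.of_forall fun x => ?_
        refine (norm_sub_le _ _).trans ?_
        have h3 : ‖deriv (fe (1 / ((n : ℝ) + 1))) (u x + -k) • F x‖ ≤ ‖F x‖ := by
          rw [norm_smul]
          have := mul_le_mul_of_nonneg_right (deriv_fe_le (h0 n) (u x + -k)) (norm_nonneg (F x))
          rw [one_mul] at this
          exact this
        have h4 := hnorm x
        linarith
      · refine Eventually.of_forall fun x => ?_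
        have h3 := (tendsto_deriv_fe (u x + -k)).smul_const (F x)
        have h4 : (if 0 < u x + -k then (1 : ℝ) else 0) • F x = if k < u x then F x else 0 := by
          by_cases h5 : k < u x
          · rw [if_pos h5, if_pos (by linarith), one_smul]
          · rw [if_neg h5, if_neg (by linarith), zero_smul]
        rw [h4] at h3
        have h6 := h3.sub_const (if k < u x then F x else 0)
        rw [sub_self] at h6
        exact h6
  exact hlim.of_one (l1 q hu.lq) (l2 q hu.lqg)

theorem HW.zero_on_level (hΩ : IsOpen Ω) (hq : 1 ≤ q) (hu : HW G q Ω u F) (k : ℝ) :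
    ∀ᵐ x, x ∈ Ω → u x = k → F x = 0 := by
  classical
  have h1 := hu.posPart hΩ hq k
  have h2 := (hu.smul (-1)).posPart hΩ hq (-k)
  have h3 := h1.sub hq h2
  have h4 := hu.add_const hq (-k)
  have h5 : HW G q Ω (fun x => u x + -k) (fun x => (if k < u x then F x else 0) -
      (if -k < -1 * u x then (-1 : ℝ) • F x else 0)) := by
    refine h3.congr hΩ (Eventually.of_forall fun x _ => ?_) (Eventually.of_forall fun x _ => rfl)
    rcases le_total (u x) k with h | h
    · rw [max_eq_right (by linarith), max_eq_left (by linarith)]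
      ring
    · rw [max_eq_left (by linarith), max_eq_right (by linarith)]
      ring
  filter_upwards [h4.unique hΩ hq h5] with x hx hxΩ hxk
  have h6 := hx hxΩ
  rw [if_neg (by rw [hxk]; exact lt_irrefl k), if_neg (by rw [hxk]; linarith), sub_self] at h6
  exact h6

theorem HW.minConst (hΩ : IsOpen Ω) (hq : 1 ≤ q) (hu : HW G q Ω u F) (k : ℝ) :
    HW G q Ω (fun x => min (u x) k) (fun x => if u x < k then F x else 0) := by
  classical
  have h1 := hu.posPart hΩ hq k
  have h2 := hu.sub hq h1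
  refine h2.congr hΩ (Eventually.of_forall fun x _ => ?_) ?_
  · rcases le_total (u x) k with h | h
    · rw [max_eq_right (by linarith), min_eq_left h, sub_zero]
    · rw [max_eq_left (by linarith), min_eq_right h]
      ring
  · filter_upwards [hu.zero_on_level hΩ hq k] with x hx hxΩ
    rcases lt_trichotomy (u x) k with h | h | h
    · rw [if_neg (not_lt.2 h.le), if_pos h, sub_zero]
    · rw [if_neg (by rw [h]; exact lt_irrefl k), if_neg (by rw [h]; exact lt_irrefl k), sub_zero]
      exact hx hxΩ h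
    · rw [if_pos h, if_neg (not_lt.2 h.le), sub_self]

end Pool.Agent.CG
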