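import Pool.Agent.CG.B.Lq
import Pool.Agent.CG.A.Param

/-!
# CG-B-Ker (helper66): smoothness of integrals with a smooth kernel, mollifiers

`moll G ρ f x = ∫ ρ (x y⁻¹) f(y) dy = ∫ ρ(g) f(g⁻¹ x) dg`; it commutes with the left-invariant fields.

PLAN.
* `contDiff_kernel`: `G.smooth_param` (A/Param, stated there for a Carnot group; the integrand is written `f y * κ x y`).
* `moll_smooth`: `contDiff_kernel`/`smooth_param` with `κ x y = ρ (x y⁻¹)`; for `x` in a compact `S` the support in `y` lies in the compact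
  `{ (g⁻¹ x) : g ∈ tsupport ρ, x ∈ S}` (`x y⁻¹ = g ↔ y = g⁻¹ x`).
* `moll_grad`: for `x` with `tsupport (fun y => ρ (x y⁻¹)) ⊆ Ω`.  `ψ y = ρ (x y⁻¹)` is a test function on `Ω`, and
  `X_k (x ↦ ρ (x y⁻¹)) (x) = -X_k ψ (y)` since `ψ (y (s e_k)) = ρ (x (-s e_k) y⁻¹)` (`G.neg_mul_rev`; both are derivatives at `0` of
  `s ↦ ρ (x (± s e_k) y⁻¹)`).  `G.X_param` (A/Param: differentiation under the integral) and the weak formula of `HW` for `ψ`:
  `X_k (moll ρ u)(x) = -∫ X_k ψ u = ∫ F_k ψ`.  The component `k` of the vector integral `moll G ρ F x` is the integral of the component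
  (`(EuclideanSpace.proj k).integral_comp_comm`, integrability from `LqLoc.integrable_smul`).
* `moll_norm_le`: `∫ ρ (x y⁻¹) dy = ∫ ρ = 1`: `y ↦ x y⁻¹` is measure preserving (`Measure.measurePreserving_neg volume` and
  `G.mp_left x`); `norm_integral_le_of_norm_le`.
* `exists_mollifier`: `ContDiffBump (0 : Pt N)` with radii `r/2`, `r`, normed.
* `moll_zero`: the support of `moll ρ f`.
* `left_small`: continuity of `(g, x) ↦ g⁻¹ x` and compactness (tube lemma): for `K ⊆ U` compact in open there is `r > 0` with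
  `g⁻¹ x ∈ U` for `‖g‖ ≤ r`, `x ∈ K` (e.g. `generalized_tube_lemma` or `IsCompact.exists_...`).
-/

set_option autoImplicit false

namespace Pool.Agent.CG

open MeasureTheory Set Filter Topology
open scoped ContDiff ENNReal

variable {N m : ℕ} {E : Type} [NormedAddCommGroup E] [NormedSpace ℝ E]

private theorem kernel_inv (G : Carnot N m) (x y : Pt N) : G.mul (-(G.mul x (-y))) x = y := by
  rw [G.neg_mul_rev, neg_neg, G.mul_neg_mul']

/-- `y ↦ x y⁻¹` -/
private def homeoK (G : Carnot N m) (x : Pt N) : Pt N ≃ₜ Pt N := (Homeomorph.neg (Pt N)).trans (G.homeoL x)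

private theorem homeoK_apply (G : Carnot N m) (x y : Pt N) : homeoK G x y = G.mul x (-y) := rfl

private theorem mpK (G : Carnot N m) (x : Pt N) :
    MeasurePreserving (fun y => G.mul x (-y)) (volume : Measure (Pt N)) volume :=
  (G.mp_left x).comp (Measure.measurePreserving_neg volume)

theorem contDiff_kernel (G : Carnot N m) {f : Pt N → ℝ} (hf : LocallyIntegrable f volume) {K : Pt N → Pt N → ℝ}
    (hK : ContDiff ℝ ∞ (fun q : Pt N × Pt N => K q.1 q.2))
    (hK2 : ∀ A : Set (Pt N), IsCompact A → ∃ B : Set (Pt N), IsCompact B ∧ ∀ x ∈ A, ∀ y, y ∉ B → K x y = 0) :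
    ContDiff ℝ ∞ (fun x => ∫ y, K x y * f y) := by
  have h := Carnot.smooth_param hf hK hK2
  have h1 : (fun x => ∫ y, K x y * f y) = fun x => ∫ y, f y * K x y := by
    funext x
    refine integral_congr_ae (Eventually.of_forall fun y => ?_)
    exact mul_comm _ _
  rw [h1]
  exact h

/-- Mollification (left convolution). -/
noncomputable def moll (G : Carnot N m) (ρ : Pt N → ℝ) (f : Pt N → E) (x : Pt N) : E :=
  ∫ y, ρ (G.mul x (-y)) • f y

/-- Mollifiers. -/
structure Mol (r : ℝ) (ρ : Pt N → ℝ) : Prop where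
  smooth : ContDiff ℝ ∞ ρ
  nonneg : ∀ x, 0 ≤ ρ x
  one : ∫ x, ρ x = 1
  supp : tsupport ρ ⊆ Metric.closedBall 0 r

theorem Mol.cpt {r : ℝ} {ρ : Pt N → ℝ} (h : Mol r ρ) : HasCompactSupport ρ :=
  HasCompactSupport.of_support_subset_isCompact (isCompact_closedBall 0 r) (subset_closure.trans h.supp)

theorem exists_mollifier {r : ℝ} (hr : 0 < r) : ∃ ρ : Pt N → ℝ, Mol r ρ := by
  let φ : ContDiffBump (0 : Pt N) := ⟨r / 2, r, by positivity, by linarith⟩
  refine ⟨fun y => φ.normed volume y, ⟨?_, ?_, ?_, ?_⟩⟩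
  · exact φ.contDiff_normed
  · intro x
    exact φ.nonneg_normed x
  · exact φ.integral_normed
  · have h1 : tsupport (fun y => φ.normed volume y) = Metric.closedBall 0 r := φ.tsupport_normed_eq
    rw [h1]

variable (G : Carnot N m)

private theorem smooth_kernel {ρ : Pt N → ℝ} (h1 : ContDiff ℝ ∞ ρ) :
    ContDiff ℝ ∞ (fun q : Pt N × Pt N => ρ (G.mul q.1 (-q.2))) := by
  have h2 : ContDiff ℝ ∞ (fun q : Pt N × Pt N => G.mul q.1 (-q.2)) :=
    G.smooth.comp (contDiff_fst.prodMk contDiff_snd.neg)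
  exact h1.comp h2

private theorem supp_kernel {ρ : Pt N → ℝ} (h2 : HasCompactSupport ρ) (S : Set (Pt N)) (hS : IsCompact S) :
    ∃ T : Set (Pt N), IsCompact T ∧ ∀ x ∈ S, ∀ y, y ∉ T → ρ (G.mul x (-y)) = 0 := by
  refine ⟨(fun q : Pt N × Pt N => G.mul (-q.1) q.2) '' (tsupport ρ ×ˢ S), ?_, ?_⟩
  · exact (h2.isCompact.prod hS).image (G.continuous_mul.comp (continuous_fst.neg.prodMk continuous_snd))
  · intro x hx y hy
    by_contra h
    exact hy ⟨(G.mul x (-y), x), ⟨subset_tsupport ρ h, hx⟩, kernel_inv G x y⟩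

/-- `y` is in the support of the kernel at `x` iff `y = g⁻¹ x` with `g ∈ tsupport ρ`. -/
theorem tsupport_kernel {ρ : Pt N → ℝ} (x : Pt N) :
    tsupport (fun y => ρ (G.mul x (-y))) = {y | G.mul x (-y) ∈ tsupport ρ} :=
  tsupport_comp_eq_preimage ρ (homeoK G x)

private theorem cpt_kernel {ρ : Pt N → ℝ} (h2 : HasCompactSupport ρ) (x : Pt N) :
    HasCompactSupport (fun y => ρ (G.mul x (-y))) :=
  h2.comp_homeomorph (homeoK G x)

private theorem cont_kernel {ρ : Pt N → ℝ} (h1 : Continuous ρ) (x : Pt N) :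
    Continuous (fun y => ρ (G.mul x (-y))) :=
  h1.comp (homeoK G x).continuous

theorem moll_smooth {ρ : Pt N → ℝ} (h1 : ContDiff ℝ ∞ ρ) (h2 : HasCompactSupport ρ) {u : Pt N → ℝ}
    (hu : LocallyIntegrable u volume) : ContDiff ℝ ∞ (moll G ρ u) :=
  contDiff_kernel G hu (K := fun x y => ρ (G.mul x (-y))) (smooth_kernel G h1) (supp_kernel G h2)

private theorem X_kernel (ρ : Pt N → ℝ) (x y : Pt N) (k : Fin m) :
    G.X k (fun x => ρ (G.mul x (-y))) x = -G.X k (fun y => ρ (G.mul x (-y))) y := by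
  have h1 : (fun t : ℝ => ρ (G.mul x (-(G.mul y (t • G.e k))))) =
      fun t : ℝ => (fun s : ℝ => ρ (G.mul (G.mul x (s • G.e k)) (-y))) (-t) := by
    funext t
    simp only
    rw [G.neg_mul_rev, ← G.assoc, neg_smul]
  show deriv (fun s : ℝ => ρ (G.mul (G.mul x (s • G.e k)) (-y))) 0 =
    -deriv (fun t : ℝ => ρ (G.mul x (-(G.mul y (t • G.e k))))) 0
  rw [h1, deriv_comp_neg (fun s : ℝ => ρ (G.mul (G.mul x (s • G.e k)) (-y))) 0, neg_zero, neg_neg]

theorem moll_grad {ρ : Pt N → ℝ} (h1 : ContDiff ℝ ∞ ρ) (h2 : HasCompactSupport ρ) {q : ℝ≥0∞} (hq : 1 ≤ q)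
    {Ω : Set (Pt N)} {u : Pt N → ℝ} {F : Pt N → Hv m} (hu : HW G q Ω u F) (hui : LocallyIntegrable u volume)
    {x : Pt N} (hx : tsupport (fun y => ρ (G.mul x (-y))) ⊆ Ω) : G.grad (moll G ρ u) x = moll G ρ F x := by
  have hψ : Test Ω (fun y => ρ (G.mul x (-y))) := by
    refine ⟨?_, cpt_kernel G h2 x, hx⟩
    exact (smooth_kernel G h1).comp (contDiff_const.prodMk contDiff_id)
  ext k
  have e1 : G.grad (moll G ρ u) x k = G.X k (fun x => ∫ y, u y * ρ (G.mul x (-y))) x := by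
    rw [Carnot.grad_apply]
    congr 1
    funext x'
    show ∫ y, ρ (G.mul x' (-y)) • u y = _
    refine integral_congr_ae (Eventually.of_forall fun y => ?_)
    simp only [smul_eq_mul]
    exact mul_comm _ _
  have e2 := G.X_param hui (κ := fun x y => ρ (G.mul x (-y))) (smooth_kernel G h1) (supp_kernel G h2) k x
  have e3 : ∫ y, u y * G.X k (fun x => ρ (G.mul x (-y))) x = ∫ y, F y k * ρ (G.mul x (-y)) := by
    have e4 : ∀ y, u y * G.X k (fun x => ρ (G.mul x (-y))) x =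
        -(u y * G.X k (fun y => ρ (G.mul x (-y))) y) := by
      intro y
      rw [X_kernel G ρ x y k]
      ring
    simp only [e4]
    rw [integral_neg, hu.weak _ hψ k, neg_neg]
  have e5 : moll G ρ F x k = ∫ y, F y k * ρ (G.mul x (-y)) := by
    have hint : Integrable (fun y => ρ (G.mul x (-y)) • F y) :=
      hu.lqg.integrable_smul hq hψ.continuous hψ.cpt hψ.sub
    have e6 := (EuclideanSpace.proj (𝕜 := ℝ) k).integral_comp_comm hint
    show (∫ y, ρ (G.mul x (-y)) • F y) k = _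
    have e7 : (EuclideanSpace.proj (𝕜 := ℝ) k) (∫ y, ρ (G.mul x (-y)) • F y) =
        (∫ y, ρ (G.mul x (-y)) • F y) k := rfl
    rw [← e7, ← e6]
    refine integral_congr_ae (Eventually.of_forall fun y => ?_)
    show ρ (G.mul x (-y)) * F y k = F y k * ρ (G.mul x (-y))
    exact mul_comm _ _
  rw [e1, e2, e3, e5]

theorem integral_mol {r : ℝ} {ρ : Pt N → ℝ} (h : Mol r ρ) (x : Pt N) : ∫ y, ρ (G.mul x (-y)) = 1 := by
  have h1 : ∫ y, ρ (G.mul x (-y)) = ∫ y, ρ y :=
    (mpK G x).integral_comp (homeoK G x).measurableEmbedding ρ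
  rw [h1, h.one]

theorem moll_norm_le {r : ℝ} {ρ : Pt N → ℝ} (h : Mol r ρ) {f : Pt N → E} {x : Pt N} {L : ℝ}
    (hf : ∀ᵐ y, ρ (G.mul x (-y)) ≠ 0 → ‖f y‖ ≤ L) : ‖moll G ρ f x‖ ≤ L := by
  have hint : Integrable (fun y => ρ (G.mul x (-y)) * L) :=
    ((cont_kernel G h.smooth.continuous x).integrable_of_hasCompactSupport
      (cpt_kernel G h.cpt x)).mul_const L
  have h1 : ‖∫ y, ρ (G.mul x (-y)) • f y‖ ≤ ∫ y, ρ (G.mul x (-y)) * L := by
    apply norm_integral_le_of_norm_le hint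
    filter_upwards [hf] with y hy
    rw [norm_smul, Real.norm_of_nonneg (h.nonneg _)]
    by_cases h2 : ρ (G.mul x (-y)) = 0
    · rw [h2, zero_mul, zero_mul]
    · exact mul_le_mul_of_nonneg_left (hy h2) (h.nonneg _)
  rw [integral_mul_const, integral_mol G h x, one_mul] at h1
  exact h1

theorem moll_congr {ρ : Pt N → ℝ} {f f' : Pt N → E} {x : Pt N}
    (hf : ∀ᵐ y, ρ (G.mul x (-y)) ≠ 0 → f y = f' y) : moll G ρ f x = moll G ρ f' x := by
  apply integral_congr_ae
  filter_upwards [hf] with y hy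
  by_cases h2 : ρ (G.mul x (-y)) = 0
  · rw [h2, zero_smul, zero_smul]
  · rw [hy h2]

theorem moll_sub {ρ : Pt N → ℝ} (h1 : Continuous ρ) (h2 : HasCompactSupport ρ) {f f' : Pt N → E}
    (hf : LocallyIntegrable f volume) (hf' : LocallyIntegrable f' volume) (x : Pt N) :
    moll G ρ (fun y => f y - f' y) x = moll G ρ f x - moll G ρ f' x := by
  have i1 := hf.integrable_smul_left_of_hasCompactSupport (cont_kernel G h1 x) (cpt_kernel G h2 x)
  have i2 := hf'.integrable_smul_left_of_hasCompactSupport (cont_kernel G h1 x) (cpt_kernel G h2 x)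
  unfold moll
  rw [← integral_sub i1 i2]
  refine integral_congr_ae (Eventually.of_forall fun y => ?_)
  exact smul_sub _ _ _

/-- The support of the kernel is close to `x`, locally uniformly. -/
theorem left_small {K U : Set (Pt N)} (hK : IsCompact K) (hU : IsOpen U) (hKU : K ⊆ U) :
    ∃ r : ℝ, 0 < r ∧ ∀ x ∈ K, ∀ y, ‖G.mul x (-y)‖ ≤ r → y ∈ U := by
  have hc : Continuous (fun q : Pt N × Pt N => G.mul (-q.1) q.2) :=
    G.continuous_mul.comp (continuous_fst.neg.prodMk continuous_snd)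
  obtain ⟨u, v, hu, -, hu0, hv, huv⟩ := generalized_tube_lemma (isCompact_singleton (x := (0 : Pt N))) hK
    (hU.preimage hc) (by
      rintro ⟨g, x⟩ ⟨hg, hx⟩
      have hg' : g = 0 := hg
      subst hg'
      show G.mul (-0) x ∈ U
      rw [neg_zero, G.zero_mul]
      exact hKU hx)
  obtain ⟨r, hr, hru⟩ := Metric.nhds_basis_closedBall.mem_iff.1 (hu.mem_nhds (hu0 rfl))
  refine ⟨r, hr, ?_⟩
  intro x hx y hy
  have h1 : (G.mul x (-y), x) ∈ u ×ˢ v := by
    refine ⟨hru ?_, hv hx⟩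
    rw [mem_closedBall_zero_iff]
    exact hy
  have h2 := huv h1
  have h3 : G.mul (-(G.mul x (-y))) x ∈ U := h2
  rwa [kernel_inv] at h3

/-- Similarly for the points reached from a compact set. -/
theorem left_small' {K U : Set (Pt N)} (hK : IsCompact K) (hU : IsOpen U) (hKU : K ⊆ U) :
    ∃ r : ℝ, 0 < r ∧ ∃ K' : Set (Pt N), IsCompact K' ∧ K' ⊆ U ∧ ∀ y ∈ K, ∀ x, ‖G.mul x (-y)‖ ≤ r → x ∈ K' := by
  have hc : Continuous (fun q : Pt N × Pt N => G.mul q.1 q.2) := G.continuous_mul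
  obtain ⟨u, v, hu, -, hu0, hv, huv⟩ := generalized_tube_lemma (isCompact_singleton (x := (0 : Pt N))) hK
    (hU.preimage hc) (by
      rintro ⟨g, x⟩ ⟨hg, hx⟩
      have hg' : g = 0 := hg
      subst hg'
      show G.mul 0 x ∈ U
      rw [G.zero_mul]
      exact hKU hx)
  obtain ⟨r, hr, hru⟩ := Metric.nhds_basis_closedBall.mem_iff.1 (hu.mem_nhds (hu0 rfl))
  refine ⟨r, hr, (fun q : Pt N × Pt N => G.mul q.1 q.2) '' (Metric.closedBall 0 r ×ˢ K),
    ((isCompact_closedBall _ _).prod hK).image hc, ?_, ?_⟩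
  · rintro _ ⟨⟨g, y⟩, ⟨hg, hy⟩, rfl⟩
    have h1 : (g, y) ∈ u ×ˢ v := ⟨hru hg, hv hy⟩
    exact huv h1
  · intro y hy x hx
    refine ⟨(G.mul x (-y), y), ⟨?_, hy⟩, G.mul_neg_mul' x y⟩
    show G.mul x (-y) ∈ Metric.closedBall 0 r
    rw [mem_closedBall_zero_iff]
    exact hx

end Pool.Agent.CG
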