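import Pool.Agent.CG.B.Walk
import Pool.Agent.CG.B.Approx
import Pool.Agent.CG.A.Ball

/-!
# CG-B-Trans (helper66): the translation inequality (T) for Sobolev functions

PLAN.
* `HW.trans_loc`: `φ_n` from `HW.approx_loc` on `K`; a word `w` with `ev w = g`, `len w < l` (`G.exists_word`); `trans_word` for `φ_n`
  (`len w ≤ l`, so the hypothesis on `S, T` is satisfied).  `S g ⊆ T ⊆ K` and `S ⊆ T` (`g = 0`, `ell 0 = 0 ≤ l`), so
  `‖(u - φ_n)(· g)‖_{L^q(S)} ≤ ‖u - φ_n‖_{L^q(K)}` (`G.mp_right`) and the same without `g`; triangle inequality (`eLpNorm_add_le`; measurability of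
  `u` on `K` from `HW.lq`) and `n → ∞` (`ge_of_tendsto` / `le_of_tendsto`), `eLpNorm (grad φ_n) ≤ eLpNorm F + eLpNorm (grad φ_n - F)`.
* `HW.trans`: `ell g < l' < l`, `S = B x R`, `T = B x (R + l')`, `K = {d(x, ·) ≤ R + l'}` (`G.isCompact_cB`), `Ω = univ`; monotonicity.
* `HW.trans_univ`: `R → ∞` in `HW.trans` (the balls `B 0 n` increase to `univ`: `G.subset_B_of_isCompact`; monotone convergence,
  `eLpNorm` of `volume.restrict (B 0 n)`; e.g. via `lintegral` and `Measure.restrict_iUnion`/`lintegral_iSup`, or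
  Fatou with indicators).
-/

set_option autoImplicit false

namespace Pool.Agent.CG

open MeasureTheory Set Filter Topology
open scoped ContDiff ENNReal

variable {N m : ℕ} {G : Carnot N m} {q : ℝ≥0∞} {Ω Ω' : Set (Pt N)} {u v : Pt N → ℝ}
  {F V : Pt N → Hv m}

/-- The norm of `f` along the right translation by `g`. -/
private theorem tr_shift (G : Carnot N m) {f : Pt N → ℝ} (g : Pt N) {S T : Set (Pt N)} (hT : MeasurableSet T)
    (hf : AEStronglyMeasurable f (volume.restrict T)) (h : ∀ y ∈ S, G.mul y g ∈ T) :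
    AEStronglyMeasurable (fun y => f (G.mul y g)) (volume.restrict S) ∧
      eLpNorm (fun y => f (G.mul y g)) q (volume.restrict S) ≤ eLpNorm f q (volume.restrict T) := by
  have h1 := (G.mp_right g).restrict_preimage hT
  have h2 : (volume.restrict S : Measure (Pt N)) ≤
      volume.restrict ((fun x => G.mul x g) ⁻¹' T) :=
    Measure.restrict_mono (fun y hy => h y hy) le_rfl
  refine ⟨(hf.comp_measurePreserving h1).mono_measure h2, ?_⟩
  have h3 := eLpNorm_comp_measurePreserving (p := q) hf h1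
  exact (eLpNorm_mono_measure _ h2).trans h3.le

theorem HW.trans_loc (hΩ : IsOpen Ω) (hq : 1 ≤ q) (hq' : q ≠ ⊤) (hu : HW G q Ω u F) {g : Pt N} {l : ℝ}
    (hg : G.ell g < l) {S T : Set (Pt N)} (hS : MeasurableSet S) (hT : MeasurableSet T) {K : Set (Pt N)}
    (hK : IsCompact K) (hTK : T ⊆ K) (hKΩ : K ⊆ Ω)
    (h : ∀ y ∈ S, ∀ g : Pt N, G.ell g ≤ l → G.mul y g ∈ T) :
    eLpNorm (fun y => u (G.mul y g) - u y) q (volume.restrict S) ≤
      ENNReal.ofReal l * eLpNorm F q (volume.restrict T) := by
  obtain ⟨φ, h1, h2, h3, -, -⟩ := hu.approx_loc hΩ hq hq' hK hKΩ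
  obtain ⟨w, hw, hwl⟩ := G.exists_word hg
  have hl : 0 ≤ l := (G.ell_nonneg g).trans hg.le
  have hgT : ∀ y ∈ S, G.mul y g ∈ T := fun y hy => h y hy g hg.le
  have hST : S ⊆ T := by
    intro y hy
    have h4 := h y hy 0 (by rw [G.ell_zero]; exact hl)
    rwa [G.mul_zero] at h4
  have hTK' : (volume.restrict T : Measure (Pt N)) ≤ volume.restrict K := Measure.restrict_mono hTK le_rfl
  have hST' : (volume.restrict S : Measure (Pt N)) ≤ volume.restrict T := Measure.restrict_mono hST le_rfl
  have huK : AEStronglyMeasurable u (volume.restrict K) := (hu.lq K hK hKΩ).aestronglyMeasurable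
  have hFK : AEStronglyMeasurable F (volume.restrict K) := (hu.lqg K hK hKΩ).aestronglyMeasurable
  have key : ∀ n, eLpNorm (fun y => u (G.mul y g) - u y) q (volume.restrict S) ≤
      ENNReal.ofReal l * (eLpNorm F q (volume.restrict T) +
        eLpNorm (fun x => G.grad (φ n) x - F x) q (volume.restrict K)) +
      (eLpNorm (fun x => φ n x - u x) q (volume.restrict K) +
        eLpNorm (fun x => φ n x - u x) q (volume.restrict K)) := by
    intro n
    have hφc : Continuous (φ n) := (h1 n).continuous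
    have hd : AEStronglyMeasurable (fun x => φ n x - u x) (volume.restrict T) :=
      (hφc.aestronglyMeasurable.sub huK).mono_measure hTK'
    obtain ⟨hm1, hb1⟩ := tr_shift (q := q) G g hT hd hgT
    have hb1' := hb1.trans (eLpNorm_mono_measure (p := q) (fun x => φ n x - u x) hTK')
    have hm2 : AEStronglyMeasurable (fun x => φ n x - u x) (volume.restrict S) := hd.mono_measure hST'
    have hb2 : eLpNorm (fun x => φ n x - u x) q (volume.restrict S) ≤
        eLpNorm (fun x => φ n x - u x) q (volume.restrict K) :=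
      eLpNorm_mono_measure (p := q) (fun x => φ n x - u x) (hST'.trans hTK')
    have hm3 : AEStronglyMeasurable (fun y => φ n (G.mul y g) - φ n y) (volume.restrict S) :=
      ((hφc.comp (G.continuous_right g)).sub hφc).aestronglyMeasurable
    have hw1 := trans_word G hq hq' (h1 n).c1 w hS hT (fun y hy g' hg' => h y hy g' (hg'.trans hwl.le))
    rw [hw] at hw1
    have hgr : eLpNorm (G.grad (φ n)) q (volume.restrict T) ≤ eLpNorm F q (volume.restrict T) +
        eLpNorm (fun x => G.grad (φ n) x - F x) q (volume.restrict K) := by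
      have e1 : G.grad (φ n) = F + fun x => G.grad (φ n) x - F x := by
        funext x
        simp
      have e2 : AEStronglyMeasurable (fun x => G.grad (φ n) x - F x) (volume.restrict T) :=
        ((h1 n).continuous_grad.aestronglyMeasurable.sub hFK).mono_measure hTK'
      calc eLpNorm (G.grad (φ n)) q (volume.restrict T) =
            eLpNorm (F + fun x => G.grad (φ n) x - F x) q (volume.restrict T) := by rw [← e1]
        _ ≤ eLpNorm F q (volume.restrict T) +
            eLpNorm (fun x => G.grad (φ n) x - F x) q (volume.restrict T) :=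
          eLpNorm_add_le (hFK.mono_measure hTK') e2 hq
        _ ≤ _ := by
          gcongr
    have hw2 : eLpNorm (fun y => φ n (G.mul y g) - φ n y) q (volume.restrict S) ≤
        ENNReal.ofReal l * (eLpNorm F q (volume.restrict T) +
        eLpNorm (fun x => G.grad (φ n) x - F x) q (volume.restrict K)) :=
      hw1.trans (mul_le_mul' (ENNReal.ofReal_le_ofReal hwl.le) hgr)
    have e3 : (fun y => u (G.mul y g) - u y) =
        (fun y => φ n (G.mul y g) - φ n y) +
          ((fun y => φ n y - u y) - fun y => φ n (G.mul y g) - u (G.mul y g)) := by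
      funext y
      simp only [Pi.add_apply, Pi.sub_apply]
      ring
    rw [e3]
    refine (eLpNorm_add_le hm3 (hm2.sub hm1) hq).trans (add_le_add hw2 ?_)
    exact (eLpNorm_sub_le hm2 hm1 hq).trans (add_le_add hb2 hb1')
  have hlim : Tendsto (fun n => ENNReal.ofReal l * (eLpNorm F q (volume.restrict T) +
        eLpNorm (fun x => G.grad (φ n) x - F x) q (volume.restrict K)) +
      (eLpNorm (fun x => φ n x - u x) q (volume.restrict K) +
        eLpNorm (fun x => φ n x - u x) q (volume.restrict K))) atTop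
      (𝓝 (ENNReal.ofReal l * (eLpNorm F q (volume.restrict T) + 0) + (0 + 0))) :=
    (ENNReal.Tendsto.const_mul (tendsto_const_nhds.add h3) (Or.inr ENNReal.ofReal_ne_top)).add (h2.add h2)
  rw [add_zero, add_zero, add_zero] at hlim
  exact ge_of_tendsto hlim (Eventually.of_forall key)

private theorem tr_ball (G : Carnot N m) {x y h : Pt N} {R l : ℝ} (hy : y ∈ G.B x R) (hh : G.ell h ≤ l) :
    G.mul y h ∈ G.B x (R + l) := by
  rw [G.mem_B] at hy ⊢
  have h1 := G.di_triangle x y (G.mul y h)
  have h2 : G.di y (G.mul y h) = G.ell h := by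
    show G.ell (G.mul (-y) (G.mul y h)) = _
    rw [G.neg_mul_cancel]
  linarith

/-- Translation inequality (T). -/
theorem HW.trans (hq : 1 ≤ q) (hq' : q ≠ ⊤) (hu : HW G q univ u F) (x g : Pt N) {R l : ℝ}
    (hg : G.ell g < l) :
    eLpNorm (fun y => u (G.mul y g) - u y) q (volume.restrict (G.B x R)) ≤
      ENNReal.ofReal l * eLpNorm F q (volume.restrict (G.B x (R + l))) := by
  refine hu.trans_loc isOpen_univ hq hq' hg (G.isOpen_B x R).measurableSet
    (G.isOpen_B x (R + l)).measurableSet (G.isCompact_cB x (R + l)) (fun y hy => ?_) (subset_univ _)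
    (fun y hy h hh => ?_)
  · exact le_of_lt (G.mem_B.1 hy)
  · exact tr_ball G hy hh

theorem HW.trans_univ (hq : 1 ≤ q) (hq' : q ≠ ⊤) (hu : HW G q univ u F) (g : Pt N) {l : ℝ}
    (hg : G.ell g < l) :
    eLpNorm (fun y => u (G.mul y g) - u y) q volume ≤ ENNReal.ofReal l * eLpNorm F q volume := by
  have hq0 : q ≠ 0 := (zero_lt_one.trans_le hq).ne'
  have hqp : 0 < q.toReal := ENNReal.toReal_pos hq0 hq'
  have h1 : ∀ n : ℕ, ∫⁻ y in G.B 0 (n : ℝ), ‖u (G.mul y g) - u y‖ₑ ^ q.toReal ≤
      (ENNReal.ofReal l * eLpNorm F q volume) ^ q.toReal := by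
    intro n
    have h2 := hu.trans hq hq' 0 g (R := (n : ℝ)) hg
    have h3 : eLpNorm F q (volume.restrict (G.B 0 ((n : ℝ) + l))) ≤ eLpNorm F q volume :=
      eLpNorm_mono_measure _ Measure.restrict_le_self
    have h4 := h2.trans (mul_le_mul_right h3 (ENNReal.ofReal l))
    rw [eLpNorm_eq_lintegral_rpow_enorm_toReal hq0 hq', one_div, ENNReal.rpow_inv_le_iff hqp] at h4
    exact h4
  have hU : (⋃ n : ℕ, G.B 0 (n : ℝ)) = univ := by
    refine eq_univ_of_forall fun y => ?_
    obtain ⟨n, hn⟩ := exists_nat_gt (G.di 0 y)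
    exact mem_iUnion.2 ⟨n, hn⟩
  have hD : Directed (fun x1 x2 => x1 ⊆ x2) (fun n : ℕ => G.B 0 (n : ℝ)) := by
    refine Monotone.directed_le (f := fun n : ℕ => G.B 0 (n : ℝ)) ?_
    intro a b hab y hy
    exact lt_of_lt_of_le (G.mem_B.1 hy) (by exact_mod_cast hab)
  have h5 := setLIntegral_iUnion_of_directed (μ := (volume : Measure (Pt N)))
    (fun y => ‖u (G.mul y g) - u y‖ₑ ^ q.toReal) hD
  rw [hU, Measure.restrict_univ] at h5
  rw [eLpNorm_eq_lintegral_rpow_enorm_toReal hq0 hq', one_div, ENNReal.rpow_inv_le_iff hqp, h5]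
  exact iSup_le h1

/-- Translation inequality inside a ball (`u` is only defined there). -/
theorem HW.trans_ball (hq : 1 ≤ q) (hq' : q ≠ ⊤) {x : Pt N} {R r l : ℝ} (hu : HW G q (G.B x R) u F) {g : Pt N}
    (hg : G.ell g < l) (hrl : r + l ≤ R) :
    eLpNorm (fun y => u (G.mul y g) - u y) q (volume.restrict (G.B x r)) ≤
      ENNReal.ofReal l * eLpNorm F q (volume.restrict (G.B x R)) := by
  obtain ⟨l', hl1, hl2⟩ := exists_between hg
  have hsub : {y | G.di x y ≤ r + l'} ⊆ G.B x R := by
    intro y hy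
    have hy' : G.di x y ≤ r + l' := hy
    rw [G.mem_B]
    linarith
  have hT : G.B x (r + l') ⊆ {y | G.di x y ≤ r + l'} := fun y hy => le_of_lt (G.mem_B.1 hy)
  have h1 := hu.trans_loc (G.isOpen_B x R) hq hq' hl1 (G.isOpen_B x r).measurableSet
    (G.isOpen_B x (r + l')).measurableSet (G.isCompact_cB x (r + l')) hT hsub
    (fun y hy h hh => tr_ball G hy hh)
  refine h1.trans (mul_le_mul' (ENNReal.ofReal_le_ofReal hl2.le) ?_)
  exact eLpNorm_mono_measure _ (Measure.restrict_mono (hT.trans hsub) le_rfl)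

end Pool.Agent.CG
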