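import Pool.Agent.CG.B.McS
import Pool.Agent.CG.B.Trans

/-!
# CG-B-Lip (helper66): Lipschitz representatives

PLAN.
* `ae_lip`: `φ_n` from `HW.approx_loc` with exponent `1` on `K` (`‖grad φ_n‖ ≤ L` on `K`); a subsequence converges a.e. on `K` to `u`
  (`tendstoInMeasure_of_tendsto_eLpNorm`, `TendstoInMeasure.exists_seq_tendsto_ae`); `E` = convergence set.  For `y, z ∈ E` with
  `di y z < l`, take a word `w` with `ev w = y⁻¹ z`, `len w < l` (`G.exists_word`), `walk_word` for `φ_n` (all points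
  `y g`, `ell g ≤ len w`, are in `K`), pass to the limit.
* `lip_local`: around every `y ∈ Ω`: `r > 0` with `K = {di y · ≤ 4 r} ⊆ Ω` (`G.exists_B_subset`), `ae_lip` on `K`, so
  `|u z - u z'| ≤ L di z z'` for `z, z' ∈ E ∩ B y r` (all `l > di z z'`, `di z z' < 2 r`), `mcshane` with `α = 1`, `continuous_of_holder`.
* `HW.lip_gen` (both statements follow): `glue` gives the continuous representative `u'` on `Ω`; for `y, z` with
  `{di y · ≤ l} ⊆ Ω`, `di y z < l`: the closed ball is compact, contained in the interior of a slightly larger compact subset `K` of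
  `Ω`; `ae_lip` on `K` for the points of `E` near `y, z`, and continuity of `u'` (`E` has full measure in `K`, so it is dense in
  its interior).
* `HW.lip`: `lip_gen` with `Ω = B x R`; for `y, z ∈ B x (R/3)` and `di y z < l < R - di x y` the ball `{di y · ≤ l}` is in `B x R`; `l → di y z`.
* `HW.lip_global`: `Ω = univ`.
-/

set_option autoImplicit false

namespace Pool.Agent.CG

open MeasureTheory Set Filter Topology
open scoped ContDiff ENNReal

variable {N m : ℕ} {G : Carnot N m} {q : ℝ≥0∞} {Ω Ω' : Set (Pt N)} {u v : Pt N → ℝ}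
  {F V : Pt N → Hv m}

theorem ae_lip (hΩ : IsOpen Ω) (hq : 1 ≤ q) (hu : HW G q Ω u F) {L : ℝ} (hL : 0 ≤ L)
    (hF : ∀ᵐ y, y ∈ Ω → ‖F y‖ ≤ L) {K : Set (Pt N)} (hK : IsCompact K) (hKΩ : K ⊆ Ω) :
    ∃ E : Set (Pt N), (∀ᵐ y, y ∈ K → y ∈ E) ∧ ∀ y ∈ E, ∀ z ∈ E, ∀ l : ℝ, y ∈ K → z ∈ K → G.di y z < l →
      {x | G.di y x ≤ l} ⊆ K → |u y - u z| ≤ L * l := by
  have hu1 : HW G 1 Ω u F := ⟨hu.lq.mono_exp hq, hu.lqg.mono_exp hq, hu.weak⟩
  obtain ⟨φ, hφ1, hφ2, -, hφ4, -⟩ := hu1.approx_loc hΩ le_rfl ENNReal.one_ne_top hK hKΩ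
  have hm : TendstoInMeasure (volume.restrict K) φ atTop u := by
    refine tendstoInMeasure_of_tendsto_eLpNorm one_ne_zero
      (fun n => (hφ1 n).smooth.continuous.aestronglyMeasurable)
      (hu1.lq K hK hKΩ).aestronglyMeasurable ?_
    exact hφ2
  obtain ⟨ns, -, hns⟩ := hm.exists_seq_tendsto_ae
  refine ⟨{x | Tendsto (fun i => φ (ns i) x) atTop (𝓝 (u x))}, ?_, ?_⟩
  · rw [ae_restrict_iff' hK.measurableSet] at hns
    exact hns
  · intro y hy z hz l _ _ hl hsub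
    obtain ⟨w, hw, hwl⟩ := G.exists_word (show G.ell (G.mul (-y) z) < l from hl)
    have hz' : G.mul y (G.ev w) = z := by rw [hw, G.mul_neg_mul]
    have hb : ∀ i, |φ (ns i) y - φ (ns i) z| ≤ L * l := by
      intro i
      have h1 := walk_word G (φ := φ (ns i)) ((hφ1 (ns i)).smooth.of_le (by exact_mod_cast le_top)) w
        (L := L) y (fun g hg => hφ4 L hL hF (ns i) _ (hsub (by
          change G.di y (G.mul y g) ≤ l
          rw [Carnot.di, G.neg_mul_cancel]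
          linarith)))
      rw [hz', abs_sub_comm] at h1
      refine h1.trans ?_
      exact mul_le_mul_of_nonneg_left hwl.le hL
    have ht : Tendsto (fun i => |φ (ns i) y - φ (ns i) z|) atTop (𝓝 |u y - u z|) :=
      (Tendsto.sub hy hz).abs
    exact le_of_tendsto' ht hb

private theorem le_of_right {a d d' L : ℝ} (hd : d < d') (h : ∀ l, d < l → l < d' → a ≤ L * l) :
    a ≤ L * d := by
  have h1 : Tendsto (fun l : ℝ => L * l) (𝓝[>] d) (𝓝 (L * d)) :=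
    ((continuous_const.mul continuous_id).tendsto d).mono_left nhdsWithin_le_nhds
  refine ge_of_tendsto h1 ?_
  filter_upwards [Ioo_mem_nhdsGT hd] with l hl
  exact h l hl.1 hl.2

private theorem exists_larger (hΩ : IsOpen Ω) {y : Pt N} {l : ℝ} (h : {x | G.di y x ≤ l} ⊆ Ω) :
    ∃ δ : ℝ, 0 < δ ∧ {x | G.di y x ≤ l + δ} ⊆ Ω := by
  have hc : Continuous (fun x => G.di y x) :=
    G.continuous_di.comp (continuous_const.prodMk continuous_id)
  have hK : IsCompact ({x | G.di y x ≤ l + 1} ∩ Ωᶜ) :=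
    (G.isCompact_cB y (l + 1)).inter_right hΩ.isClosed_compl
  by_cases hne : ({x | G.di y x ≤ l + 1} ∩ Ωᶜ).Nonempty
  · obtain ⟨z, hz, hmin⟩ := hK.exists_isMinOn hne hc.continuousOn
    have hlz : l < G.di y z := by
      by_contra hcon
      exact hz.2 (h (not_lt.1 hcon))
    refine ⟨min 1 ((G.di y z - l) / 2), lt_min one_pos (by linarith), fun x hx => ?_⟩
    by_contra hxΩ
    have hx' : G.di y x ≤ l + min 1 ((G.di y z - l) / 2) := hx
    have h1 : G.di y x ≤ l + 1 := hx'.trans (by gcongr; exact min_le_left _ _)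
    have h2 : G.di y z ≤ G.di y x := hmin ⟨h1, hxΩ⟩
    have h3 : min 1 ((G.di y z - l) / 2) ≤ (G.di y z - l) / 2 := min_le_right _ _
    linarith
  · refine ⟨1, one_pos, fun x hx => ?_⟩
    by_contra hxΩ
    exact hne ⟨x, hx, hxΩ⟩

theorem HW.lip_gen (hΩ : IsOpen Ω) (hq : 1 ≤ q) (hu : HW G q Ω u F) {L : ℝ} (hL : 0 ≤ L)
    (hF : ∀ᵐ y, y ∈ Ω → ‖F y‖ ≤ L) :
    ∃ u' : Pt N → ℝ, ContinuousOn u' Ω ∧ (∀ᵐ y, y ∈ Ω → u y = u' y) ∧
      ∀ y z, ∀ l : ℝ, G.di y z < l → {x | G.di y x ≤ l} ⊆ Ω → |u' y - u' z| ≤ L * l := by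
  have hloc : ∀ y ∈ Ω, ∃ U : Set (Pt N), IsOpen U ∧ y ∈ U ∧ U ⊆ Ω ∧ ∃ f : Pt N → ℝ, ContinuousOn f U ∧
      ∀ᵐ z, z ∈ U → u z = f z := by
    intro y hy
    obtain ⟨r, hr, hrΩ⟩ := G.exists_B_subset hΩ hy
    obtain ⟨E, hE, hE'⟩ := ae_lip hΩ hq hu hL hF (G.isCompact_cB y r) hrΩ
    have hBK : G.B y (r / 4) ⊆ {x | G.di y x ≤ r} := by
      intro x hx
      have hx' : G.di y x < r / 4 := hx
      change G.di y x ≤ r
      linarith
    have hS : ∀ z ∈ E ∩ G.B y (r / 4), ∀ z' ∈ E ∩ G.B y (r / 4),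
        |u z - u z'| ≤ L * G.di z z' ^ (1 : ℝ) := by
      rintro z ⟨hz, hzB⟩ z' ⟨hz', hzB'⟩
      have h1 : G.di y z < r / 4 := hzB
      have h2 : G.di y z' < r / 4 := hzB'
      have h3 : G.di z z' ≤ G.di z y + G.di y z' := G.di_triangle z y z'
      rw [G.di_comm z y] at h3
      rw [Real.rpow_one]
      refine le_of_right (d' := 3 * r / 4) (by linarith) (fun l hl1 hl2 => ?_)
      refine hE' z hz z' hz' l (hBK hzB) (hBK hzB') hl1 (fun x hx => ?_)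
      have hx' : G.di z x ≤ l := hx
      have h4 := G.di_triangle y z x
      change G.di y x ≤ r
      linarith
    obtain ⟨f, hf1, hf2⟩ := mcshane G hL one_pos le_rfl hS
    refine ⟨G.B y (r / 4), G.isOpen_B y _, ?_, hBK.trans hrΩ, f,
      (continuous_of_holder G one_pos hf2).continuousOn, ?_⟩
    · change G.di y y < r / 4
      rw [G.di_self]
      linarith
    · filter_upwards [hE] with z hz hzB
      exact (hf1 z ⟨hz (hBK hzB), hzB⟩).symm
  obtain ⟨u', hu'1, hu'2⟩ := glue (N := N) hΩ hloc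
  refine ⟨u', hu'1, hu'2, fun y z l hl hsub => ?_⟩
  obtain ⟨δ, hδ, hδΩ⟩ := exists_larger hΩ hsub
  obtain ⟨E, hE, hE'⟩ := ae_lip hΩ hq hu hL hF (G.isCompact_cB y (l + δ)) hδΩ
  have hd0 := G.di_nonneg y z
  have hyΩ : y ∈ Ω := hsub (by change G.di y y ≤ l; rw [G.di_self]; linarith)
  have hzΩ : z ∈ Ω := hsub hl.le
  obtain ⟨η, hη, hη1, hη2⟩ : ∃ η : ℝ, 0 < η ∧ η ≤ δ ∧ 2 * η + G.di y z < l := by
    refine ⟨min δ ((l - G.di y z) / 4), lt_min hδ (by linarith), min_le_left _ _, ?_⟩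
    have := min_le_right δ ((l - G.di y z) / 4)
    linarith
  have hae : ∀ᵐ x, (x ∈ {x | G.di y x ≤ l + δ} → x ∈ E) ∧ (x ∈ Ω → u x = u' x) := by
    filter_upwards [hE, hu'2] with x h1 h2
    exact ⟨h1, h2⟩
  have hdense : Dense {x | (x ∈ {x | G.di y x ≤ l + δ} → x ∈ E) ∧ (x ∈ Ω → u x = u' x)} :=
    Measure.dense_of_ae hae
  set D := {x | (x ∈ {x | G.di y x ≤ l + δ} → x ∈ E) ∧ (x ∈ Ω → u x = u' x)} with hD
  have hny : (𝓝[D] y).NeBot := mem_closure_iff_nhdsWithin_neBot.1 (hdense y)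
  have hnz : (𝓝[D] z).NeBot := mem_closure_iff_nhdsWithin_neBot.1 (hdense z)
  have hty : Tendsto u' (𝓝[D] y) (𝓝 (u' y)) :=
    ((hu'1.continuousAt (hΩ.mem_nhds hyΩ)).tendsto).mono_left nhdsWithin_le_nhds
  have htz : Tendsto u' (𝓝[D] z) (𝓝 (u' z)) :=
    ((hu'1.continuousAt (hΩ.mem_nhds hzΩ)).tendsto).mono_left nhdsWithin_le_nhds
  have ht : Tendsto (fun p : Pt N × Pt N => |u' p.1 - u' p.2|) (𝓝[D] y ×ˢ 𝓝[D] z)
      (𝓝 |u' y - u' z|) :=
    ((hty.comp tendsto_fst).sub (htz.comp tendsto_snd)).abs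
  have hself : ∀ x : Pt N, G.B x η ∈ 𝓝 x := fun x =>
    (G.isOpen_B x η).mem_nhds (by change G.di x x < η; rw [G.di_self]; exact hη)
  have ev1 : ∀ᶠ p in 𝓝[D] y, p ∈ D ∧ p ∈ Ω ∧ p ∈ G.B y η := by
    filter_upwards [self_mem_nhdsWithin, mem_nhdsWithin_of_mem_nhds (hΩ.mem_nhds hyΩ),
      mem_nhdsWithin_of_mem_nhds (hself y)] with p h1 h2 h3
    exact ⟨h1, h2, h3⟩
  have ev2 : ∀ᶠ p in 𝓝[D] z, p ∈ D ∧ p ∈ Ω ∧ p ∈ G.B z η := by
    filter_upwards [self_mem_nhdsWithin, mem_nhdsWithin_of_mem_nhds (hΩ.mem_nhds hzΩ),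
      mem_nhdsWithin_of_mem_nhds (hself z)] with p h1 h2 h3
    exact ⟨h1, h2, h3⟩
  refine le_of_tendsto ht ?_
  filter_upwards [ev1.prod_mk ev2] with p hp
  obtain ⟨⟨h1, h2, h3⟩, h4, h5, h6⟩ := hp
  have h3' : G.di y p.1 < η := h3
  have h6' : G.di z p.2 < η := h6
  have h7 := G.di_triangle y z p.2
  have h8 := G.di_triangle p.1 y p.2
  rw [G.di_comm p.1 y] at h8
  have hp1 : p.1 ∈ {x | G.di y x ≤ l + δ} := by
    change G.di y p.1 ≤ l + δ
    linarith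
  have hp2 : p.2 ∈ {x | G.di y x ≤ l + δ} := by
    change G.di y p.2 ≤ l + δ
    linarith
  rw [← h1.2 h2, ← h4.2 h5]
  refine hE' p.1 (h1.1 hp1) p.2 (h4.1 hp2) l hp1 hp2 (by linarith) (fun x hx => ?_)
  have hx' : G.di p.1 x ≤ l := hx
  have h9 := G.di_triangle y p.1 x
  change G.di y x ≤ l + δ
  linarith

/-- Continuous representative of a function with bounded horizontal gradient. -/
theorem HW.lip {x : Pt N} {R L : ℝ} (hR : 0 < R) (hq : 1 ≤ q) (hu : HW G q (G.B x R) u F) (hL : 0 ≤ L)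
    (hF : ∀ᵐ y, y ∈ G.B x R → ‖F y‖ ≤ L) :
    ∃ u' : Pt N → ℝ, ContinuousOn u' (G.B x R) ∧ (∀ᵐ y, y ∈ G.B x R → u y = u' y) ∧
      ∀ y ∈ G.B x (R / 3), ∀ z ∈ G.B x (R / 3), |u' y - u' z| ≤ L * G.di y z := by
  obtain ⟨u', h1, h2, h3⟩ := hu.lip_gen (G.isOpen_B x R) hq hL hF
  refine ⟨u', h1, h2, fun y hy z hz => ?_⟩
  have hy' : G.di x y < R / 3 := hy
  have hz' : G.di x z < R / 3 := hz
  have h4 := G.di_triangle y x z
  rw [G.di_comm y x] at h4
  refine le_of_right (d' := 2 * R / 3) (by linarith) (fun l hl1 hl2 => ?_)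
  refine h3 y z l hl1 (fun w hw => ?_)
  have hw' : G.di y w ≤ l := hw
  have h5 := G.di_triangle x y w
  change G.di x w < R
  linarith

/-- Global version. -/
theorem HW.lip_global {L : ℝ} (hq : 1 ≤ q) (hu : HW G q univ u F) (hL : 0 ≤ L)
    (hF : ∀ᵐ y, ‖F y‖ ≤ L) :
    ∃ u' : Pt N → ℝ, Continuous u' ∧ (∀ᵐ y, u y = u' y) ∧
      ∀ y z, |u' y - u' z| ≤ L * G.di y z := by
  obtain ⟨u', h1, h2, h3⟩ := hu.lip_gen isOpen_univ hq hL (hF.mono fun y hy _ => hy)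
  refine ⟨u', continuousOn_univ.1 h1, h2.mono fun y hy => hy (mem_univ y), fun y z => ?_⟩
  refine le_of_right (d' := G.di y z + 1) (by linarith) (fun l hl1 _ => ?_)
  exact h3 y z l hl1 (subset_univ _)

end Pool.Agent.CG
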