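import Pool.Agent.CG.B.Calc

/-!
# CG-B-Lq (helper66): local integrability
-/

set_option autoImplicit false

namespace Pool.Agent.CG

open MeasureTheory Set Filter Topology
open scoped ContDiff ENNReal

variable {N m : ℕ} {E : Type*} [NormedAddCommGroup E] {q q' : ℝ≥0∞} {Ω Ω' : Set (Pt N)}
  {f g : Pt N → E}

instance finite_restrict_compact {K : Set (Pt N)} [h : Fact (IsCompact K)] :
    IsFiniteMeasure ((volume : Measure (Pt N)).restrict K) :=
  ⟨by rw [Measure.restrict_apply_univ]; exact h.out.measure_lt_top⟩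

theorem LqLoc.mono (h : LqLoc q Ω f) (hs : Ω' ⊆ Ω) : LqLoc q Ω' f :=
  fun K hK hK' => h K hK (hK'.trans hs)

theorem LqLoc.mono_exp (h : LqLoc q Ω f) (hq : q' ≤ q) : LqLoc q' Ω f := by
  intro K hK hK'
  haveI : Fact (IsCompact K) := ⟨hK⟩
  exact (h K hK hK').mono_exponent hq

theorem LqLoc.add (hf : LqLoc q Ω f) (hg : LqLoc q Ω g) : LqLoc q Ω (fun x => f x + g x) :=
  fun K hK hK' => (hf K hK hK').add (hg K hK hK')

theorem LqLoc.sub (hf : LqLoc q Ω f) (hg : LqLoc q Ω g) : LqLoc q Ω (fun x => f x - g x) :=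
  fun K hK hK' => (hf K hK hK').sub (hg K hK hK')

theorem LqLoc.neg (hf : LqLoc q Ω f) : LqLoc q Ω (fun x => -f x) :=
  fun K hK hK' => (hf K hK hK').neg

theorem LqLoc.norm (hf : LqLoc q Ω f) : LqLoc q Ω (fun x => ‖f x‖) :=
  fun K hK hK' => (hf K hK hK').norm

theorem LqLoc.const_smul [NormedSpace ℝ E] (c : ℝ) (hf : LqLoc q Ω f) : LqLoc q Ω (fun x => c • f x) :=
  fun K hK hK' => (hf K hK hK').const_smul c

theorem LqLoc.congr (hΩ : IsOpen Ω) (hf : LqLoc q Ω f) (h : ∀ᵐ x, x ∈ Ω → f x = g x) : LqLoc q Ω g := by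
  intro K hK hK'
  refine (hf K hK hK').ae_eq ?_
  rw [Filter.EventuallyEq, ae_restrict_iff' hK.measurableSet]
  filter_upwards [h] with x hx hxK
  exact hx (hK' hxK)

theorem LqLoc.of_continuousOn (h : ContinuousOn f Ω) : LqLoc q Ω f := by
  intro K hK hK'
  haveI : Fact (IsCompact K) := ⟨hK⟩
  obtain ⟨C, hC⟩ := hK.exists_bound_of_continuousOn (h.mono hK')
  have h1 : AEStronglyMeasurable f (volume.restrict K) := (h.mono hK').aestronglyMeasurable_of_isCompact hK hK.measurableSet
  refine MemLp.of_bound h1 C ?_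
  rw [ae_restrict_iff' hK.measurableSet]
  exact Eventually.of_forall fun x hx => hC x hx

theorem LqLoc.of_continuous (h : Continuous f) : LqLoc q Ω f := LqLoc.of_continuousOn h.continuousOn

theorem LqLoc.const (c : E) : LqLoc q Ω (fun _ => c) := LqLoc.of_continuous continuous_const

theorem LqLoc.integrableOn (h : LqLoc q Ω f) (hq : 1 ≤ q) {K : Set (Pt N)} (hK : IsCompact K) (hK' : K ⊆ Ω) :
    IntegrableOn f K := by
  have h1 := (h.mono_exp hq) K hK hK'
  exact memLp_one_iff_integrable.1 h1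

/-- Multiplication by a function which is bounded on compact sets. -/
theorem LqLoc.bdd_smul [NormedSpace ℝ E] (h : LqLoc q Ω f) {φ : Pt N → ℝ}
    (hφ : ContinuousOn φ Ω) : LqLoc q Ω (fun x => φ x • f x) := by
  intro K hK hK'
  haveI : Fact (IsCompact K) := ⟨hK⟩
  have h1 : MemLp φ ∞ (volume.restrict K) := (LqLoc.of_continuousOn hφ) K hK hK'
  exact (h K hK hK').smul h1

theorem LqLoc.memLp_of_zero (h : LqLoc q Ω f) {K : Set (Pt N)} (hK : IsCompact K) (hK' : K ⊆ Ω)
    (h0 : ∀ x, x ∉ K → f x = 0) : MemLp f q volume := by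
  have h1 : f = K.indicator f := by
    funext x
    by_cases hx : x ∈ K
    · rw [indicator_of_mem hx]
    · rw [indicator_of_notMem hx, h0 x hx]
  rw [h1, memLp_indicator_iff_restrict hK.measurableSet]
  exact h K hK hK'

theorem LqLoc.of_memLp (h : MemLp f q volume) : LqLoc q Ω f := fun K _ _ => h.restrict K

/-- Products with continuous compactly supported functions are integrable. -/
theorem LqLoc.integrable_smul [NormedSpace ℝ E] (h : LqLoc q Ω f) (hq : 1 ≤ q) {φ : Pt N → ℝ}
    (hφ : Continuous φ) (hc : HasCompactSupport φ) (hs : tsupport φ ⊆ Ω) :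
    Integrable (fun x => φ x • f x) := by
  have h1 : LqLoc q Ω (fun x => φ x • f x) := h.bdd_smul hφ.continuousOn
  have h2 : MemLp (fun x => φ x • f x) q volume := by
    refine h1.memLp_of_zero hc hs ?_
    intro x hx
    rw [image_eq_zero_of_notMem_tsupport hx, zero_smul]
  have h3 : IntegrableOn (fun x => φ x • f x) (tsupport φ) := h1.integrableOn hq hc hs
  have h4 : (fun x => φ x • f x) = (tsupport φ).indicator (fun x => φ x • f x) := by
    funext x
    by_cases hx : x ∈ tsupport φ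
    · rw [indicator_of_mem hx]
    · rw [indicator_of_notMem hx, image_eq_zero_of_notMem_tsupport hx, zero_smul]
  rw [h4, integrable_indicator_iff (isClosed_tsupport φ).measurableSet]
  exact h3

theorem LqLoc.integrable_mul {f : Pt N → ℝ} (h : LqLoc q Ω f) (hq : 1 ≤ q) {φ : Pt N → ℝ}
    (hφ : Continuous φ) (hc : HasCompactSupport φ) (hs : tsupport φ ⊆ Ω) :
    Integrable (fun x => f x * φ x) := by
  have h1 := h.integrable_smul hq hφ hc hs
  refine h1.congr (Eventually.of_forall fun x => ?_)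
  simp [mul_comm]

theorem LqLoc.integrable_mul_X {G : Carnot N m} {f : Pt N → ℝ} (h : LqLoc q Ω f) (hq : 1 ≤ q) {φ : Pt N → ℝ}
    (hφ : Test Ω φ) (k : Fin m) : Integrable (fun x => f x * G.X k φ x) := by
  refine h.integrable_mul hq (G.continuous_X hφ.c1 k) ?_ ?_
  · exact hφ.cpt.mono' ((subset_closure).trans (G.tsupport_X_subset φ k))
  · exact (G.tsupport_X_subset φ k).trans hφ.sub

/-- Components of a vector valued function. -/
theorem LqLoc.comp_apply {F : Pt N → Hv m} (h : LqLoc q Ω F) (k : Fin m) : LqLoc q Ω (fun x => F x k) := by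
  intro K hK hK'
  have h1 := h K hK hK'
  refine MemLp.of_le h1 ?_ ?_
  · exact (EuclideanSpace.proj (𝕜 := ℝ) k).continuous.comp_aestronglyMeasurable h1.aestronglyMeasurable
  · exact Eventually.of_forall fun x => PiLp.norm_apply_le (F x) k

theorem LqLoc.of_apply {F : Pt N → Hv m} (h : ∀ k, LqLoc q Ω (fun x => F x k)) : LqLoc q Ω F := by
  intro K hK hK'
  have h1 : ∀ x, F x = ∑ k, F x k • EuclideanSpace.single k (1 : ℝ) := by
    intro x
    ext j
    simp [Finset.sum_apply, Pi.single_apply]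
  have h2 : F = fun x => ∑ k, F x k • EuclideanSpace.single k (1 : ℝ) := funext h1
  rw [h2]
  refine memLp_finsetSum _ fun k _ => ?_
  have h3 : MemLp (fun _ : Pt N => (EuclideanSpace.single k (1 : ℝ) : Hv m)) ∞ (volume.restrict K) := memLp_top_const _
  exact MemLp.smul h3 (h k K hK hK')

end Pool.Agent.CG
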