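import Pool.Agent.CG.B.Lq
import Pool.Agent.CG.A.Ell

/-!
# CG-B-McS (helper66): extension and gluing of Hölder functions

PLAN.
* `mcshane`: `f' y = ⨅ z : S, (f z + M * di y z ^ α)` (`S` nonempty; otherwise `f' = 0`); bounded below by the hypothesis; `di y z ^ α`
  satisfies the triangle inequality (`Real.rpow_add_le_add_rpow`/`Real.add_rpow_le_rpow_add`-type lemma for `0 < α ≤ 1`,
  `NNReal.rpow_add_le_add_rpow`, `di_triangle`).
* `continuous_of_holder`: `G.continuous_di`, `G.di_self`.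
* `glue`: choose `U_y`, `f_y` for `y ∈ Ω` and put `u' y = f_y y`.  For `z ∈ U_y` the functions `f_z`, `f_y` are continuous on the open set
  `U_y ∩ U_z` and equal a.e. there, so equal (`MeasureTheory.Measure.eqOn_open_of_ae_eq`), hence `u' = f_y` on `U_y`: `u'` is continuous on
  `Ω`; and `u = u'` a.e. on each `U_y`, so a.e. on `Ω` (`measure_null_of_locally_null` on `Ω`, second countability).
* `eq_of_ae`: two continuous functions on an open set which are equal a.e. are equal.
* `holder_of_ae`: `S` has full measure in the open set `U`, so it is dense in `U`; pass to the limit in the inequality.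
-/

set_option autoImplicit false

namespace Pool.Agent.CG

open MeasureTheory Set Filter Topology
open scoped ContDiff ENNReal

variable {N m : ℕ} (G : Carnot N m)

private theorem mcs_rpow {a b α : ℝ} (ha : 0 ≤ a) (hb : 0 ≤ b) (hα : 0 < α) (hα1 : α ≤ 1) :
    (a + b) ^ α ≤ a ^ α + b ^ α := by
  have h := NNReal.rpow_add_le_add_rpow ⟨a, ha⟩ ⟨b, hb⟩ hα.le hα1
  exact_mod_cast h

private theorem mcs_tri {M α : ℝ} (hM : 0 ≤ M) (hα : 0 < α) (hα1 : α ≤ 1) (x y z : Pt N) :
    M * G.di x z ^ α ≤ M * G.di x y ^ α + M * G.di y z ^ α := by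
  rw [← mul_add]
  refine mul_le_mul_of_nonneg_left ?_ hM
  exact (Real.rpow_le_rpow (G.di_nonneg _ _) (G.di_triangle x y z) hα.le).trans
    (mcs_rpow (G.di_nonneg _ _) (G.di_nonneg _ _) hα hα1)

theorem mcshane {S : Set (Pt N)} {f : Pt N → ℝ} {M α : ℝ} (hM : 0 ≤ M) (hα : 0 < α) (hα1 : α ≤ 1)
    (h : ∀ y ∈ S, ∀ z ∈ S, |f y - f z| ≤ M * G.di y z ^ α) :
    ∃ f' : Pt N → ℝ, (∀ y ∈ S, f' y = f y) ∧ ∀ y z, |f' y - f' z| ≤ M * G.di y z ^ α := by
  have htri := mcs_tri G hM hα hα1
  have hnn : ∀ y z, 0 ≤ M * G.di y z ^ α := fun y z =>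
    mul_nonneg hM (Real.rpow_nonneg (G.di_nonneg _ _) _)
  have hself : ∀ y, M * G.di y y ^ α = 0 := fun y => by
    rw [G.di_self, Real.zero_rpow hα.ne', mul_zero]
  rcases S.eq_empty_or_nonempty with rfl | ⟨z0, hz0⟩
  · refine ⟨fun _ => 0, fun y hy => absurd hy (Set.notMem_empty y), fun y z => ?_⟩
    rw [sub_self, abs_zero]
    exact hnn y z
  · have : Nonempty S := ⟨⟨z0, hz0⟩⟩
    have hbdd : ∀ y, BddBelow (Set.range fun z : S => f z + M * G.di y z ^ α) := by
      intro y
      refine ⟨f z0 - M * G.di y z0 ^ α, ?_⟩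
      rintro _ ⟨z, rfl⟩
      have h1 := abs_le.1 (h z0 hz0 z z.2)
      have h2 := htri z0 y z
      rw [G.di_comm z0 y] at h2
      simp only
      linarith [h1.2]
    have hle : ∀ y z, (⨅ x : S, (f x + M * G.di y x ^ α)) ≤
        (⨅ x : S, (f x + M * G.di z x ^ α)) + M * G.di y z ^ α := by
      intro y z
      rw [← sub_le_iff_le_add]
      refine le_ciInf fun x => ?_
      have h1 := ciInf_le (hbdd y) x
      have h2 := htri y z x
      linarith
    refine ⟨fun y => ⨅ z : S, (f z + M * G.di y z ^ α), fun y hy => ?_, fun y z => ?_⟩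
    · refine le_antisymm ?_ ?_
      · have h1 := ciInf_le (hbdd y) ⟨y, hy⟩
        simp only [hself] at h1
        linarith
      · refine le_ciInf fun z => ?_
        have h1 := abs_le.1 (h y hy z z.2)
        linarith [h1.2]
    · have h1 := hle y z
      have h2 := hle z y
      rw [G.di_comm z y] at h2
      rw [abs_le]
      constructor
      · linarith
      · linarith

theorem continuous_of_holder {f : Pt N → ℝ} {M α : ℝ} (hα : 0 < α)
    (h : ∀ y z, |f y - f z| ≤ M * G.di y z ^ α) : Continuous f := by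
  rw [continuous_iff_continuousAt]
  intro z
  rw [ContinuousAt, tendsto_iff_dist_tendsto_zero]
  have h1 : Continuous fun y => M * G.di y z ^ α := by
    refine continuous_const.mul (Continuous.rpow_const ?_ fun _ => Or.inr hα.le)
    exact G.continuous_di.comp (continuous_id.prodMk continuous_const)
  have h2 : Tendsto (fun y => M * G.di y z ^ α) (𝓝 z) (𝓝 0) := by
    have h3 := h1.tendsto z
    rwa [G.di_self, Real.zero_rpow hα.ne', mul_zero] at h3
  exact squeeze_zero (fun y => dist_nonneg) (fun y => by rw [Real.dist_eq]; exact h y z) h2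

theorem glue {Ω : Set (Pt N)} (hΩ : IsOpen Ω) {u : Pt N → ℝ}
    (h : ∀ y ∈ Ω, ∃ U : Set (Pt N), IsOpen U ∧ y ∈ U ∧ U ⊆ Ω ∧ ∃ f : Pt N → ℝ, ContinuousOn f U ∧
      ∀ᵐ z, z ∈ U → u z = f z) :
    ∃ u' : Pt N → ℝ, ContinuousOn u' Ω ∧ ∀ᵐ z, z ∈ Ω → u z = u' z := by
  choose! U hU hyU hUΩ f hf hae using h
  have key : ∀ y ∈ Ω, ∀ z ∈ U y, f z z = f y z := by
    intro y hy z hz
    have hzΩ := hUΩ y hy hz
    have h1 : f z =ᵐ[(volume : Measure (Pt N)).restrict (U z ∩ U y)] f y := by
      rw [EventuallyEq, ae_restrict_iff' ((hU z hzΩ).inter (hU y hy)).measurableSet]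
      filter_upwards [hae y hy, hae z hzΩ] with x hx1 hx2 hx
      rw [← hx1 hx.2, ← hx2 hx.1]
    exact Measure.eqOn_open_of_ae_eq h1 ((hU z hzΩ).inter (hU y hy))
      ((hf z hzΩ).mono inter_subset_left) ((hf y hy).mono inter_subset_right)
      ⟨hyU z hzΩ, hz⟩
  refine ⟨fun y => f y y, fun y hy => ?_, ?_⟩
  · have hUy : U y ∈ 𝓝 y := (hU y hy).mem_nhds (hyU y hy)
    refine ContinuousAt.continuousWithinAt ?_
    refine ((hf y hy).continuousAt hUy).congr ?_
    filter_upwards [hUy] with z hz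
    exact (key y hy z hz).symm
  · rw [ae_iff]
    refine measure_null_of_locally_null _ fun x hx => ?_
    have hxΩ : x ∈ Ω := by
      by_contra h1
      exact hx fun h2 => absurd h2 h1
    refine ⟨_, inter_mem self_mem_nhdsWithin
      (mem_nhdsWithin_of_mem_nhds ((hU x hxΩ).mem_nhds (hyU x hxΩ))), ?_⟩
    refine measure_mono_null ?_ (ae_iff.1 (hae x hxΩ))
    rintro z ⟨hz, hzU⟩ h1
    exact hz fun _ => (h1 hzU).trans (key x hxΩ z hzU).symm

private theorem mcs_dense {U : Set (Pt N)} (hU : IsOpen U) {S : Set (Pt N)}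
    (hS : ∀ᵐ y, y ∈ U → y ∈ S) {y : Pt N} (hy : y ∈ U) : y ∈ closure (S ∩ U) := by
  have h1 : Dense {y : Pt N | y ∈ U → y ∈ S} := Measure.dense_of_ae hS
  refine closure_mono ?_ (h1.open_subset_closure_inter hU hy)
  rintro z ⟨hz, hz'⟩
  exact ⟨hz' hz, hz⟩

/-- Inequalities between continuous functions that hold almost everywhere hold everywhere. -/
theorem holder_of_ae {U : Set (Pt N)} (hU : IsOpen U) {f : Pt N → ℝ} (hf : ContinuousOn f U) {om : ℝ → ℝ}
    (hom : ContinuousOn om (Ici 0)) {S : Set (Pt N)} (hS : ∀ᵐ y, y ∈ U → y ∈ S)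
    (h : ∀ y ∈ S ∩ U, ∀ z ∈ S ∩ U, |f y - f z| ≤ om (G.di y z)) :
    ∀ y ∈ U, ∀ z ∈ U, |f y - f z| ≤ om (G.di y z) := by
  have hd1 : ∀ z, Continuous fun y => G.di y z := fun z =>
    G.continuous_di.comp (continuous_id.prodMk continuous_const)
  have hd2 : ∀ y, Continuous fun z => G.di y z := fun y =>
    G.continuous_di.comp (continuous_const.prodMk continuous_id)
  have h1 : ∀ y ∈ U, ∀ z ∈ S ∩ U, |f y - f z| ≤ om (G.di y z) := by
    intro y hy z hz
    refine ContinuousWithinAt.closure_le (mcs_dense hU hS hy) (f := fun y => |f y - f z|)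
      (g := fun y => om (G.di y z)) ?_ ?_ fun x hx => h x hx z hz
    · exact (((hf y hy).mono inter_subset_right).sub continuousWithinAt_const).abs
    · exact ((hom.comp (hd1 z).continuousOn fun x _ => G.di_nonneg _ _) y (mem_univ y)).mono
        (subset_univ _)
  intro y hy z hz
  refine ContinuousWithinAt.closure_le (mcs_dense hU hS hz) (f := fun z => |f y - f z|)
    (g := fun z => om (G.di y z)) ?_ ?_ fun x hx => h1 y hy x hx
  · exact (continuousWithinAt_const.sub ((hf z hz).mono inter_subset_right)).abs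
  · exact ((hom.comp (hd2 y).continuousOn fun x _ => G.di_nonneg _ _) z (mem_univ z)).mono
      (subset_univ _)

theorem le_of_ae_le {U : Set (Pt N)} (hU : IsOpen U) {f g : Pt N → ℝ} (hf : ContinuousOn f U)
    (hg : ContinuousOn g U) (h : ∀ᵐ y, y ∈ U → f y ≤ g y) : ∀ y ∈ U, f y ≤ g y := by
  intro y hy
  have h1 : y ∈ closure ({y | f y ≤ g y} ∩ U) := mcs_dense hU (S := {y | f y ≤ g y}) h hy
  exact ContinuousWithinAt.closure_le h1 ((hf y hy).mono inter_subset_right)
    ((hg y hy).mono inter_subset_right) fun x hx => hx.1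

end Pool.Agent.CG
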