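import Pool.Agent.CG.B.Ker

/-!
# CG-B-MollLq (helper66): mollification in `L^q`

PLAN.
* `moll_meas`: `AEStronglyMeasurable.integral_prod_right'` (joint measurability of `(x, y) ↦ ρ (x y⁻¹) • f y`).
* `moll_eLpNorm_le`: for fixed `x` let `ν_x = volume.withDensity (fun y => ENNReal.ofReal (ρ (x y⁻¹)))`, a probability measure
  (`integral_mol`).  `‖moll ρ f x‖ ≤ ∫ ‖f‖ dν_x` and `eLpNorm f 1 ν_x ≤ eLpNorm f q ν_x` (`eLpNorm_le_eLpNorm_of_exponent_le`), so
  `‖moll ρ f x‖^q ≤ ∫⁻ ρ (x y⁻¹) ‖f y‖^q dy`; integrate in `x`, Tonelli (`lintegral_lintegral_swap`) and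
  `∫⁻ ρ (x y⁻¹) dx = 1` (`G.mp_right`).  (`eLpNorm_eq_lintegral_rpow_enorm_toReal`.)
* `moll_tendsto`: for `g` continuous with compact support: `moll ρ_n g → g` uniformly (uniform continuity of
  `(h, x) ↦ g (h⁻¹ x)` near `{0} × compact`, `moll_norm_le` applied to `g y - g x`), with supports in a fixed compact set, so in `L^q`.
  General `f`: `MemLp.exists_hasCompactSupport_eLpNorm_sub_le` and `‖moll (f - g)‖_q ≤ ‖f - g‖_q` (`moll_sub`).
-/

set_option autoImplicit false

namespace Pool.Agent.CG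

open MeasureTheory Set Filter Topology
open scoped ContDiff ENNReal

variable {N m : ℕ} {E : Type} [NormedAddCommGroup E] [NormedSpace ℝ E] [CompleteSpace E] (G : Carnot N m)

theorem moll_meas {r : ℝ} {ρ : Pt N → ℝ} (h : Mol r ρ) {f : Pt N → E} (hf : AEStronglyMeasurable f volume) :
    AEStronglyMeasurable (moll G ρ f) volume := by
  have h1 : Continuous fun q : Pt N × Pt N => ρ (G.mul q.1 (-q.2)) :=
    h.smooth.continuous.comp (G.continuous_mul.comp (continuous_fst.prodMk continuous_snd.neg))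
  have h2 : AEStronglyMeasurable (fun q : Pt N × Pt N => ρ (G.mul q.1 (-q.2)) • f q.2)
      ((volume : Measure (Pt N)).prod (volume : Measure (Pt N))) :=
    h1.aestronglyMeasurable.smul hf.comp_snd
  exact h2.integral_prod_right'

/-- the kernel as a density -/
private theorem lint_kernel {r : ℝ} {ρ : Pt N → ℝ} (h : Mol r ρ) (x : Pt N) :
    ∫⁻ y, ENNReal.ofReal (ρ (G.mul x (-y))) = 1 := by
  have h1 := integral_mol G h x
  have h2 : Integrable fun y => ρ (G.mul x (-y)) := by
    by_contra h3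
    rw [integral_undef h3] at h1
    exact zero_ne_one h1
  rw [← ofReal_integral_eq_lintegral_ofReal h2 (Eventually.of_forall fun y => h.nonneg _), h1,
    ENNReal.ofReal_one]

private theorem lint_kernel' {r : ℝ} {ρ : Pt N → ℝ} (h : Mol r ρ) (y : Pt N) :
    ∫⁻ x, ENNReal.ofReal (ρ (G.mul x (-y))) = 1 := by
  have hm : Measurable fun z : Pt N => ENNReal.ofReal (ρ z) :=
    h.smooth.continuous.measurable.ennreal_ofReal
  have h1 := (G.mp_right (-y)).lintegral_comp hm
  rw [h1]
  have h2 : Integrable ρ := h.smooth.continuous.integrable_of_hasCompactSupport h.cpt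
  rw [← ofReal_integral_eq_lintegral_ofReal h2 (Eventually.of_forall fun y => h.nonneg _), h.one,
    ENNReal.ofReal_one]

private theorem cont_kernel {r : ℝ} {ρ : Pt N → ℝ} (h : Mol r ρ) (x : Pt N) :
    Continuous fun y => ρ (G.mul x (-y)) :=
  h.smooth.continuous.comp ((G.continuous_left x).comp continuous_neg)

private theorem jensen {r : ℝ} {ρ : Pt N → ℝ} (h : Mol r ρ) {q : ℝ≥0∞} (hq : 1 ≤ q) (hq' : q ≠ ⊤)
    {f : Pt N → E} (hf : AEStronglyMeasurable f volume) (x : Pt N) :
    ‖moll G ρ f x‖ₑ ^ q.toReal ≤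
      ∫⁻ y, ENNReal.ofReal (ρ (G.mul x (-y))) * ‖f y‖ₑ ^ q.toReal := by
  have hk := cont_kernel G h x
  have hkm : Measurable fun y => ENNReal.ofReal (ρ (G.mul x (-y))) := hk.measurable.ennreal_ofReal
  set ν : Measure (Pt N) := volume.withDensity fun y => ENNReal.ofReal (ρ (G.mul x (-y))) with hν
  have hprob : IsProbabilityMeasure ν := by
    constructor
    rw [hν, withDensity_apply _ MeasurableSet.univ, Measure.restrict_univ, lint_kernel G h x]
  have hac : ν ≪ volume := withDensity_absolutelyContinuous _ _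
  have hfν : AEStronglyMeasurable f ν := hf.mono_ac hac
  have hq0 : q ≠ 0 := (lt_of_lt_of_le one_pos hq).ne'
  have hqr : 0 < q.toReal := ENNReal.toReal_pos hq0 hq'
  have h1 : ‖moll G ρ f x‖ₑ ≤ eLpNorm f 1 ν := by
    rw [eLpNorm_one_eq_lintegral_enorm, hν, lintegral_withDensity_eq_lintegral_mul₀ hkm.aemeasurable hf.enorm]
    refine (enorm_integral_le_lintegral_enorm _).trans (le_of_eq ?_)
    refine lintegral_congr fun y => ?_
    rw [Pi.mul_apply, enorm_smul, Real.enorm_of_nonneg (h.nonneg _)]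
  have h2 : eLpNorm f 1 ν ≤ eLpNorm f q ν := eLpNorm_le_eLpNorm_of_exponent_le hq hfν
  have h3 := h1.trans h2
  rw [eLpNorm_eq_lintegral_rpow_enorm_toReal hq0 hq'] at h3
  have h4 := ENNReal.rpow_le_rpow h3 hqr.le
  rw [← ENNReal.rpow_mul, one_div, inv_mul_cancel₀ hqr.ne', ENNReal.rpow_one, hν,
    lintegral_withDensity_eq_lintegral_mul₀ hkm.aemeasurable (hf.enorm.pow_const _)] at h4
  exact h4

theorem moll_eLpNorm_le {r : ℝ} {ρ : Pt N → ℝ} (h : Mol r ρ) {q : ℝ≥0∞} (hq : 1 ≤ q) (hq' : q ≠ ⊤) {f : Pt N → E}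
    (hf : MemLp f q volume) : eLpNorm (moll G ρ f) q volume ≤ eLpNorm f q volume := by
  have hq0 : q ≠ 0 := (lt_of_lt_of_le one_pos hq).ne'
  have hqr : 0 < q.toReal := ENNReal.toReal_pos hq0 hq'
  rw [eLpNorm_eq_lintegral_rpow_enorm_toReal hq0 hq', eLpNorm_eq_lintegral_rpow_enorm_toReal hq0 hq']
  apply ENNReal.rpow_le_rpow _ (by positivity)
  have hc : Continuous fun p : Pt N × Pt N => ρ (G.mul p.1 (-p.2)) :=
    h.smooth.continuous.comp (G.continuous_mul.comp (continuous_fst.prodMk continuous_snd.neg))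
  calc ∫⁻ x, ‖moll G ρ f x‖ₑ ^ q.toReal
      ≤ ∫⁻ x, ∫⁻ y, ENNReal.ofReal (ρ (G.mul x (-y))) * ‖f y‖ₑ ^ q.toReal :=
        lintegral_mono fun x => jensen G h hq hq' hf.1 x
    _ = ∫⁻ y, ∫⁻ x, ENNReal.ofReal (ρ (G.mul x (-y))) * ‖f y‖ₑ ^ q.toReal := by
        apply lintegral_lintegral_swap
        apply AEMeasurable.mul
        · exact hc.measurable.ennreal_ofReal.aemeasurable
        · exact (hf.1.comp_snd.enorm).pow_const _
    _ = ∫⁻ y, ‖f y‖ₑ ^ q.toReal := by
        refine lintegral_congr fun y => ?_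
        have hm : Measurable fun x => ENNReal.ofReal (ρ (G.mul x (-y))) :=
          (h.smooth.continuous.comp (G.continuous_right (-y))).measurable.ennreal_ofReal
        rw [lintegral_mul_const _ hm, lint_kernel' G h y, one_mul]

/-- uniform convergence for continuous functions with compact support -/
private theorem moll_unif {g : Pt N → E} (hg : Continuous g) (hgc : HasCompactSupport g) :
    ∃ K : Set (Pt N), IsCompact K ∧ ∀ ε : ℝ, 0 < ε → ∃ δ : ℝ, 0 < δ ∧ ∀ r : ℝ, r ≤ δ →
      ∀ ρ : Pt N → ℝ, Mol r ρ → (∀ x, ‖moll G ρ g x - g x‖ ≤ ε) ∧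
        ∀ x, x ∉ K → moll G ρ g x - g x = 0 := by
  set K : Set (Pt N) := (fun q : Pt N × Pt N => G.mul q.1 q.2) ''
    (Metric.closedBall 0 1 ×ˢ tsupport g) with hK
  have hKc : IsCompact K := ((isCompact_closedBall _ _).prod hgc).image G.continuous_mul
  have hout : ∀ x, x ∉ K → ∀ y, ‖G.mul x (-y)‖ ≤ 1 → g y = 0 := by
    intro x hx y hy
    by_contra h0
    apply hx
    refine ⟨(G.mul x (-y), y), ⟨mem_closedBall_zero_iff.2 hy, subset_tsupport g h0⟩, ?_⟩
    exact G.mul_neg_mul' x y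
  have hself : ∀ x, x ∉ K → g x = 0 := by
    intro x hx
    apply hout x hx x
    rw [G.mul_neg, norm_zero]
    exact zero_le_one
  -- the mollification differs from `g x` by the mollification of `g - g x`
  have hdiff : ∀ (r : ℝ) (ρ : Pt N → ℝ), Mol r ρ → ∀ x,
      moll G ρ g x - g x = moll G ρ (fun y => g y - g x) x := by
    intro r ρ hρ x
    rw [moll_sub G hρ.smooth.continuous hρ.cpt hg.locallyIntegrable
      (continuous_const : Continuous fun _ : Pt N => g x).locallyIntegrable]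
    congr 1
    unfold moll
    rw [integral_smul_const, integral_mol G hρ x, one_smul]
  have hclose : ∀ (r : ℝ) (ρ : Pt N → ℝ), Mol r ρ → ∀ x y, ρ (G.mul x (-y)) ≠ 0 →
      ‖G.mul x (-y)‖ ≤ r := by
    intro r ρ hρ x y hne
    exact mem_closedBall_zero_iff.1 (hρ.supp (subset_tsupport ρ hne))
  refine ⟨K, hKc, fun ε hε => ?_⟩
  -- tube lemma
  have hopen : IsOpen {q : Pt N × Pt N | ‖g (G.mul (-q.1) q.2) - g q.2‖ < ε} := by
    apply isOpen_lt _ continuous_const
    refine continuous_norm.comp (Continuous.sub ?_ (hg.comp continuous_snd))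
    exact hg.comp (G.continuous_mul.comp (continuous_fst.neg.prodMk continuous_snd))
  obtain ⟨u, v, hu, hv, hu0, hvK, huv⟩ := generalized_tube_lemma (isCompact_singleton (x := (0 : Pt N)))
    hKc hopen (by
      rintro ⟨a, b⟩ ⟨ha, _⟩
      rw [mem_singleton_iff] at ha
      simp only at ha
      subst ha
      show ‖g (G.mul (-0) b) - g b‖ < ε
      rw [neg_zero, G.zero_mul, sub_self, norm_zero]
      exact hε)
  obtain ⟨δ, hδ, hδu⟩ := Metric.isOpen_iff.1 hu 0 (hu0 rfl)
  refine ⟨min (δ / 2) 1, by positivity, fun r hr ρ hρ => ⟨fun x => ?_, fun x hx => ?_⟩⟩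
  · rw [hdiff r ρ hρ x]
    apply moll_norm_le G hρ
    refine Eventually.of_forall fun y hy => ?_
    have h1 := (hclose r ρ hρ x y hy).trans hr
    by_cases hxK : x ∈ K
    · have h2 : G.mul x (-y) ∈ u := by
        apply hδu
        rw [mem_ball_zero_iff]
        exact lt_of_le_of_lt (h1.trans (min_le_left _ _)) (by linarith)
      have h3 := huv (show ((G.mul x (-y), x) : Pt N × Pt N) ∈ u ×ˢ v from ⟨h2, hvK hxK⟩)
      have h4 : G.mul (-(G.mul x (-y))) x = y := by
        rw [G.neg_mul_rev, neg_neg, G.mul_neg_mul']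
      simp only [mem_setOf_eq, h4] at h3
      exact h3.le
    · rw [hout x hxK y (h1.trans (min_le_right _ _)), hself x hxK, sub_zero, norm_zero]
      exact hε.le
  · rw [hdiff r ρ hρ x]
    have h5 : ‖moll G ρ (fun y => g y - g x) x‖ ≤ 0 := by
      apply moll_norm_le G hρ
      refine Eventually.of_forall fun y hy => ?_
      have h1 := (hclose r ρ hρ x y hy).trans hr
      rw [hout x hx y (h1.trans (min_le_right _ _)), hself x hx, sub_zero, norm_zero]
    exact norm_le_zero_iff.1 h5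

theorem moll_tendsto {r : ℕ → ℝ} (hr : Tendsto r atTop (𝓝 0)) {ρ : ℕ → Pt N → ℝ} (h : ∀ n, Mol (r n) (ρ n))
    {q : ℝ≥0∞} (hq : 1 ≤ q) (hq' : q ≠ ⊤) {f : Pt N → E} (hf : MemLp f q volume) :
    Tendsto (fun n => eLpNorm (fun x => moll G (ρ n) f x - f x) q volume) atTop (𝓝 0) := by
  rw [ENNReal.tendsto_nhds_zero]
  intro ε hε
  set ε' : ℝ≥0∞ := min ε 1 / 3 with hε'
  have hm0 : min ε 1 ≠ 0 := (lt_min hε one_pos).ne'
  have hmt : min ε 1 ≠ ⊤ := ne_top_of_le_ne_top ENNReal.one_ne_top (min_le_right _ _)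
  have hε0 : ε' ≠ 0 := by
    rw [hε']
    exact (ENNReal.div_pos hm0 (by norm_num)).ne'
  have hεt : ε' ≠ ⊤ := ENNReal.div_ne_top hmt (by norm_num)
  have hsum : ε' + ε' + ε' ≤ ε := by
    have : ε' + ε' + ε' = min ε 1 := by
      rw [hε']
      rw [ENNReal.add_thirds]
    rw [this]
    exact min_le_left _ _
  obtain ⟨g, hgc, hfg, hg, hgL⟩ := hf.exists_hasCompactSupport_eLpNorm_sub_le hq' hε0
  obtain ⟨K, hK, hunif⟩ := moll_unif G hg hgc
  have hKfin : volume K ≠ ⊤ := hK.measure_lt_top.ne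
  -- choose the uniform error
  obtain ⟨η, hη, hηK⟩ : ∃ η : ℝ, 0 < η ∧ volume K ^ q.toReal⁻¹ * ENNReal.ofReal η ≤ ε' := by
    set M : ℝ≥0∞ := volume K ^ q.toReal⁻¹ with hM
    have hMt : M ≠ ⊤ := ENNReal.rpow_ne_top_of_nonneg (by positivity) hKfin
    refine ⟨(ε' / (M + 1)).toReal, ?_, ?_⟩
    · apply ENNReal.toReal_pos
      · exact (ENNReal.div_pos hε0 (ENNReal.add_ne_top.2 ⟨hMt, ENNReal.one_ne_top⟩)).ne'
      · exact ENNReal.div_ne_top hεt (by simp)
    · rw [ENNReal.ofReal_toReal (ENNReal.div_ne_top hεt (by simp))]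
      calc M * (ε' / (M + 1)) ≤ (M + 1) * (ε' / (M + 1)) := by gcongr; exact le_self_add
        _ ≤ ε' := ENNReal.mul_div_le
  obtain ⟨δ, hδ, hδ'⟩ := hunif η hη
  have hev : ∀ᶠ n in atTop, r n < δ := hr.eventually (gt_mem_nhds hδ)
  filter_upwards [hev] with n hn
  obtain ⟨h1, h2⟩ := hδ' (r n) hn.le (ρ n) (h n)
  have hfgL : MemLp (fun y => f y - g y) q volume := hf.sub hgL
  have hlf : LocallyIntegrable f volume := hf.locallyIntegrable hq
  have hlg : LocallyIntegrable g volume := hg.locallyIntegrable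
  have e1 : eLpNorm (moll G (ρ n) (fun y => f y - g y)) q volume ≤ ε' :=
    (moll_eLpNorm_le G (h n) hq hq' hfgL).trans hfg
  have e2 : eLpNorm (fun x => moll G (ρ n) g x - g x) q volume ≤ ε' := by
    have hsupp : (fun x => moll G (ρ n) g x - g x).support ⊆ K := by
      intro x hx
      by_contra hxK
      exact hx (h2 x hxK)
    rw [← eLpNorm_restrict_eq_of_support_subset hsupp]
    refine (eLpNorm_le_of_ae_bound (C := η) (Eventually.of_forall h1)).trans ?_
    rw [Measure.restrict_apply_univ]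
    exact hηK
  have e3 : eLpNorm (fun x => g x - f x) q volume ≤ ε' := by
    have : eLpNorm (fun x => g x - f x) q volume = eLpNorm (f - g) q volume :=
      eLpNorm_sub_comm g f q volume
    rw [this]
    exact hfg
  have hdec : (fun x => moll G (ρ n) f x - f x) =
      (moll G (ρ n) (fun y => f y - g y) + fun x => moll G (ρ n) g x - g x) + fun x => g x - f x := by
    funext x
    simp only [Pi.add_apply]
    rw [moll_sub G (h n).smooth.continuous (h n).cpt hlf hlg]
    abel
  have m1 := moll_meas G (h n) hfgL.1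
  have m2 : AEStronglyMeasurable (fun x => moll G (ρ n) g x - g x) volume :=
    (moll_meas G (h n) hg.aestronglyMeasurable).sub hg.aestronglyMeasurable
  have m3 : AEStronglyMeasurable (fun x => g x - f x) volume := hg.aestronglyMeasurable.sub hf.1
  rw [hdec]
  calc _ ≤ eLpNorm (moll G (ρ n) (fun y => f y - g y) + fun x => moll G (ρ n) g x - g x) q volume +
        eLpNorm (fun x => g x - f x) q volume := eLpNorm_add_le (m1.add m2) m3 hq
    _ ≤ (eLpNorm (moll G (ρ n) (fun y => f y - g y)) q volume +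
        eLpNorm (fun x => moll G (ρ n) g x - g x) q volume) +
        eLpNorm (fun x => g x - f x) q volume := by
      gcongr
      exact eLpNorm_add_le m1 m2 hq
    _ ≤ ε' + ε' + ε' := add_le_add (add_le_add e1 e2) e3
    _ ≤ ε := hsum

end Pool.Agent.CG
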