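import Pool.Agent.CG.B.Trans

/-!
# CG-B-Poin (helper66): the weak Poincaré inequality

PLAN.  `S = B x (R/4)`.  For `g` with `ell g < R/2`: `HW.trans_ball` (`r = R/4`, `l = R/2`, `q = 2`) gives
`∫⁻_S |u(y g) - u(y)|² ≤ (R/2)² ∫⁻_{B x R} ‖F‖²`.  Integrate over `g ∈ B 0 (R/2)`; Tonelli and for fixed `y` the substitution `z = y g`
(`G.mp_left y`) give `∫⁻_{y ∈ S} ∫⁻_{z ∈ S} |u z - u y|² ≤ |B 0 (R/2)| (R/2)² ∫⁻_{B x R} ‖F‖²` (`y, z ∈ S` implies
`ell (y⁻¹ z) = di y z < R/2`).  There is `z ∈ S` with `∫⁻_{y ∈ S} |u z - u y|² ≤ |S|⁻¹ *` this (`exists_le_lintegral`-type lemma: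
`MeasureTheory.exists_le_setLAverage`), `c = u z`; `|B 0 (R/2)| = 2^Q |S|` (`G.vol_B`).  So `C = 2 ^ Q`.
Convert `∫⁻` to `∫` (`ofReal_integral_eq_lintegral_ofReal`, `Integrable` from finite `lintegral`).  Joint measurability of
`(y, g) ↦ u(y g) - u y` on `S × B`: replace `u` by a strongly measurable representative (`AEStronglyMeasurable.mk` on the compact closed
ball of radius `3R/4`, which contains everything; null sets are preserved by the translations).
-/

set_option autoImplicit false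

namespace Pool.Agent.CG

open MeasureTheory Set Filter Topology
open scoped ContDiff ENNReal

variable {N m : ℕ}

private theorem pn_rep {G : Carnot N m} {q : ℝ≥0∞} {x : Pt N} {R r : ℝ} (hR : 3 * r < R)
    {u : Pt N → ℝ} {F : Pt N → Hv m} (hu : HW G q (G.B x R) u F) :
    ∃ u' : Pt N → ℝ, Measurable u' ∧ ∀ᵐ y, G.di x y ≤ 3 * r → u y = u' y := by
  have hK := G.isCompact_cB x (3 * r)
  have hKs : {y | G.di x y ≤ 3 * r} ⊆ G.B x R := fun y hy => lt_of_le_of_lt hy hR
  have h1 := (hu.lq _ hK hKs).aestronglyMeasurable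
  refine ⟨h1.mk u, h1.stronglyMeasurable_mk.measurable, ?_⟩
  have h2 := h1.ae_eq_mk
  rw [Filter.EventuallyEq, ae_restrict_iff' hK.measurableSet] at h2
  exact h2

private theorem pn_slice {G : Carnot N m} {p : ℝ} (hp : 1 ≤ p) {x : Pt N} {R r : ℝ} (hr : 0 < r)
    (hR : 3 * r < R) {u : Pt N → ℝ} {F : Pt N → Hv m} (hu : HW G (ENNReal.ofReal p) (G.B x R) u F)
    {u' : Pt N → ℝ} (hu' : ∀ᵐ y, G.di x y ≤ 3 * r → u y = u' y) {g : Pt N}
    (hg : G.ell g < 2 * r) :
    ∫⁻ y in G.B x r, ENNReal.ofReal (|u' (G.mul y g) - u' y| ^ p) ≤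
      ENNReal.ofReal ((2 * r) ^ p) * ∫⁻ y in G.B x R, ENNReal.ofReal (‖F y‖ ^ p) := by
  have hp0 : 0 < p := by linarith
  have hq1 : 1 ≤ ENNReal.ofReal p := by
    rw [← ENNReal.ofReal_one]; exact ENNReal.ofReal_le_ofReal hp
  have hq0 : ENNReal.ofReal p ≠ 0 := (lt_of_lt_of_le one_pos hq1).ne'
  have hqt : (ENNReal.ofReal p).toReal = p := ENNReal.toReal_ofReal hp0.le
  have h := hu.trans_ball hq1 ENNReal.ofReal_ne_top (r := r) (l := 2 * r) hg (by linarith)
  rw [eLpNorm_eq_lintegral_rpow_enorm_toReal hq0 ENNReal.ofReal_ne_top,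
    eLpNorm_eq_lintegral_rpow_enorm_toReal hq0 ENNReal.ofReal_ne_top, hqt] at h
  have h2 := ENNReal.rpow_le_rpow h hp0.le
  rw [ENNReal.mul_rpow_of_nonneg _ _ hp0.le, ← ENNReal.rpow_mul, ← ENNReal.rpow_mul,
    one_div, inv_mul_cancel₀ hp0.ne', ENNReal.rpow_one, ENNReal.rpow_one,
    ENNReal.ofReal_rpow_of_nonneg (by linarith) hp0.le] at h2
  have h3 : ∫⁻ y in G.B x r, ENNReal.ofReal (|u' (G.mul y g) - u' y| ^ p) =
      ∫⁻ y in G.B x r, ‖u (G.mul y g) - u y‖ₑ ^ p := by
    refine lintegral_congr_ae ?_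
    rw [Filter.EventuallyEq, ae_restrict_iff' (G.isOpen_B x r).measurableSet]
    have h4 := (G.mp_right g).quasiMeasurePreserving.ae hu'
    filter_upwards [hu', h4] with y hy hyg hyB
    have hyB' : G.di x y < r := hyB
    have h5 : G.di x (G.mul y g) ≤ 3 * r := by
      have h6 := G.di_triangle x y (G.mul y g)
      have h7 : G.di y (G.mul y g) = G.ell g := by
        rw [Carnot.di, G.neg_mul_cancel]
      rw [h7] at h6
      linarith
    rw [hy (by linarith), hyg h5, Real.enorm_eq_ofReal_abs,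
      ENNReal.ofReal_rpow_of_nonneg (abs_nonneg _) hp0.le]
  have h4 : ∫⁻ y in G.B x R, ENNReal.ofReal (‖F y‖ ^ p) = ∫⁻ y in G.B x R, ‖F y‖ₑ ^ p := by
    refine lintegral_congr fun y => ?_
    rw [← ofReal_norm, ENNReal.ofReal_rpow_of_nonneg (norm_nonneg _) hp0.le]
  rw [h3, h4]
  exact h2

private theorem pn_double {G : Carnot N m} {p : ℝ} (hp : 1 ≤ p) {x : Pt N} {R r : ℝ} (hr : 0 < r)
    (hR : 3 * r < R) {u : Pt N → ℝ} {F : Pt N → Hv m} (hu : HW G (ENNReal.ofReal p) (G.B x R) u F)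
    {u' : Pt N → ℝ} (hm : Measurable u') (hu' : ∀ᵐ y, G.di x y ≤ 3 * r → u y = u' y) :
    ∫⁻ y in G.B x r, ∫⁻ z in G.B x r, ENNReal.ofReal (|u' z - u' y| ^ p) ≤
      volume (G.B 0 (2 * r)) * ENNReal.ofReal ((2 * r) ^ p) *
        ∫⁻ y in G.B x R, ENNReal.ofReal (‖F y‖ ^ p) := by
  have hf : ∀ y : Pt N, Measurable fun z : Pt N => ENNReal.ofReal (|u' z - u' y| ^ p) := by
    intro y
    exact ENNReal.measurable_ofReal.comp ((_root_.continuous_abs.measurable.comp
      (hm.sub_const _)).pow_const p)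
  have hmul : Measurable fun q : Pt N × Pt N => G.mul q.1 q.2 := G.continuous_mul.measurable
  calc ∫⁻ y in G.B x r, ∫⁻ z in G.B x r, ENNReal.ofReal (|u' z - u' y| ^ p)
      ≤ ∫⁻ y in G.B x r, ∫⁻ g in G.B 0 (2 * r), ENNReal.ofReal (|u' (G.mul y g) - u' y| ^ p) := by
        refine setLIntegral_mono' (G.isOpen_B x r).measurableSet fun y hy => ?_
        rw [← lintegral_indicator (G.isOpen_B x r).measurableSet,
          ← lintegral_indicator (G.isOpen_B 0 (2 * r)).measurableSet,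
          ← (G.mp_left y).lintegral_comp ((hf y).indicator (G.isOpen_B x r).measurableSet)]
        refine lintegral_mono fun g => ?_
        by_cases hg : G.mul y g ∈ G.B x r
        · have h1 : g ∈ G.B 0 (2 * r) := by
            have hy' : G.di x y < r := hy
            have hg' : G.di x (G.mul y g) < r := hg
            have h2 := G.di_triangle y x (G.mul y g)
            have h3 : G.di y (G.mul y g) = G.di 0 g := by
              rw [Carnot.di, Carnot.di, G.neg_mul_cancel, neg_zero, G.zero_mul]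
            rw [Carnot.mem_B, ← h3]
            rw [G.di_comm y x] at h2
            linarith
          rw [Set.indicator_of_mem hg, Set.indicator_of_mem h1]
        · rw [Set.indicator_of_notMem hg]
          exact bot_le
    _ = ∫⁻ g in G.B 0 (2 * r), ∫⁻ y in G.B x r, ENNReal.ofReal (|u' (G.mul y g) - u' y| ^ p) := by
        refine lintegral_lintegral_swap (Measurable.aemeasurable ?_)
        exact ENNReal.measurable_ofReal.comp ((_root_.continuous_abs.measurable.comp
          ((hm.comp hmul).sub (hm.comp measurable_fst))).pow_const p)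
    _ ≤ ∫⁻ _ in G.B 0 (2 * r), ENNReal.ofReal ((2 * r) ^ p) *
          ∫⁻ y in G.B x R, ENNReal.ofReal (‖F y‖ ^ p) := by
        refine setLIntegral_mono' (G.isOpen_B 0 (2 * r)).measurableSet fun g hg => ?_
        refine pn_slice hp hr hR hu hu' ?_
        have hg' : G.di 0 g < 2 * r := hg
        rwa [Carnot.di, neg_zero, G.zero_mul] at hg'
    _ = _ := by
        rw [setLIntegral_const]
        ring

/-- Double integral form, for exponents `q = p` real. -/
theorem double_int (G : Carnot N m) {p : ℝ} (hp : 1 ≤ p) {x : Pt N} {R r : ℝ} (hr : 0 < r) (hR : 3 * r < R)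
    {u : Pt N → ℝ} {F : Pt N → Hv m} (hu : HW G (ENNReal.ofReal p) (G.B x R) u F) :
    ∫⁻ y in G.B x r, ∫⁻ z in G.B x r, ENNReal.ofReal (|u z - u y| ^ p) ≤
      volume (G.B 0 (2 * r)) * ENNReal.ofReal ((2 * r) ^ p) * ∫⁻ y in G.B x R, ENNReal.ofReal (‖F y‖ ^ p) := by
  obtain ⟨u', hm, hu'⟩ := pn_rep hR hu
  refine le_trans (le_of_eq ?_) (pn_double hp hr hR hu hm hu')
  refine lintegral_congr_ae ?_
  rw [Filter.EventuallyEq, ae_restrict_iff' (G.isOpen_B x r).measurableSet]
  filter_upwards [hu'] with y hy hyB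
  have hyB' : G.di x y < r := hyB
  refine lintegral_congr_ae ?_
  rw [Filter.EventuallyEq, ae_restrict_iff' (G.isOpen_B x r).measurableSet]
  filter_upwards [hu'] with z hz hzB
  have hzB' : G.di x z < r := hzB
  rw [hy (by linarith), hz (by linarith)]

/-- Weak Poincaré inequality in double-integral form. -/
theorem HW.poincare (G : Carnot N m) : ∃ C : ℝ, 0 < C ∧ ∀ (x : Pt N) (R : ℝ), 0 < R →
    ∀ (u : Pt N → ℝ) (F : Pt N → Hv m), HW G 2 (G.B x R) u F →
    IntegrableOn (fun y => ‖F y‖ ^ 2) (G.B x R) →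
    ∃ c : ℝ, IntegrableOn (fun y => (u y - c) ^ 2) (G.B x (R / 4)) ∧
      ∫ y in G.B x (R / 4), (u y - c) ^ 2 ≤ C * R ^ 2 * ∫ y in G.B x R, ‖F y‖ ^ 2 := by
  refine ⟨2 ^ G.Q, by positivity, fun x R hR u F hu hint => ?_⟩
  set r : ℝ := R / 4 with hrdef
  have hr : 0 < r := by positivity
  have h3r : 3 * r < R := by rw [hrdef]; linarith
  have hu2 : HW G (ENNReal.ofReal 2) (G.B x R) u F := by
    rwa [ENNReal.ofReal_ofNat]
  obtain ⟨u', hm, hu'⟩ := pn_rep h3r hu2
  have hd := pn_double (p := 2) (by norm_num) hr h3r hu2 hm hu'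
  set I : ℝ≥0∞ := ∫⁻ y in G.B x R, ENNReal.ofReal (‖F y‖ ^ (2 : ℝ)) with hI
  have hI2 : I = ENNReal.ofReal (∫ y in G.B x R, ‖F y‖ ^ 2) := by
    rw [hI, ofReal_integral_eq_lintegral_ofReal hint (Eventually.of_forall fun y => by positivity)]
    refine lintegral_congr fun y => ?_
    rw [Real.rpow_two]
  have hS0 : volume (G.B x r) ≠ 0 := (G.vol_B_pos x hr).ne'
  have hSt : volume (G.B x r) ≠ ⊤ := (G.vol_B_lt_top x r).ne
  have hmeas : Measurable fun y : Pt N => ∫⁻ z in G.B x r, ENNReal.ofReal (|u' z - u' y| ^ (2 : ℝ)) := by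
    have h1 : Measurable fun q : Pt N × Pt N => ENNReal.ofReal (|u' q.2 - u' q.1| ^ (2 : ℝ)) :=
      ENNReal.measurable_ofReal.comp ((_root_.continuous_abs.measurable.comp
        ((hm.comp measurable_snd).sub (hm.comp measurable_fst))).pow_const _)
    exact h1.lintegral_prod_right'
  obtain ⟨y0, hy0, hle⟩ := exists_le_setLAverage hS0 hSt hmeas.aemeasurable
  rw [setLAverage_eq] at hle
  have hV : volume (G.B 0 (2 * r)) = ENNReal.ofReal (2 ^ G.Q) * volume (G.B x r) := by
    rw [G.vol_B 0 (by positivity : 0 < 2 * r), G.vol_B x hr, mul_pow,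
      ENNReal.ofReal_mul (by positivity), mul_assoc]
  have hle2 : ∫⁻ z in G.B x r, ENNReal.ofReal (|u' z - u' y0| ^ (2 : ℝ)) ≤
      ENNReal.ofReal (2 ^ G.Q * R ^ 2) * I := by
    refine hle.trans ?_
    rw [ENNReal.div_le_iff hS0 hSt]
    refine hd.trans ?_
    rw [hV]
    have h1 : ENNReal.ofReal ((2 * r) ^ (2 : ℝ)) ≤ ENNReal.ofReal (R ^ 2) := by
      apply ENNReal.ofReal_le_ofReal
      rw [Real.rpow_two, hrdef]
      nlinarith
    calc ENNReal.ofReal (2 ^ G.Q) * volume (G.B x r) * ENNReal.ofReal ((2 * r) ^ (2 : ℝ)) * I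
        ≤ ENNReal.ofReal (2 ^ G.Q) * volume (G.B x r) * ENNReal.ofReal (R ^ 2) * I := by gcongr
      _ = _ := by
        rw [ENNReal.ofReal_mul (by positivity)]
        ring
  have hfin : ∫⁻ z in G.B x r, ENNReal.ofReal ((u z - u' y0) ^ 2) ≤
      ENNReal.ofReal (2 ^ G.Q * R ^ 2 * ∫ y in G.B x R, ‖F y‖ ^ 2) := by
    rw [ENNReal.ofReal_mul (by positivity), ← hI2]
    refine le_trans (le_of_eq ?_) hle2
    refine lintegral_congr_ae ?_
    rw [Filter.EventuallyEq, ae_restrict_iff' (G.isOpen_B x r).measurableSet]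
    filter_upwards [hu'] with z hz hzB
    have hzB' : G.di x z < r := hzB
    rw [hz (by linarith), Real.rpow_two, sq_abs]
  have hasm : AEStronglyMeasurable (fun z => (u z - u' y0) ^ 2) (volume.restrict (G.B x r)) := by
    have hK := G.isCompact_cB x (3 * r)
    have hKs : {y | G.di x y ≤ 3 * r} ⊆ G.B x R := fun y hy => lt_of_le_of_lt hy h3r
    have h1 := (hu.lq _ hK hKs).aestronglyMeasurable
    have h2 : AEStronglyMeasurable u (volume.restrict (G.B x r)) :=
      h1.mono_measure (Measure.restrict_mono (fun y hy => by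
        have hy' : G.di x y < r := hy
        change G.di x y ≤ 3 * r
        linarith) le_rfl)
    exact (h2.sub aestronglyMeasurable_const).pow 2
  have hinteg : IntegrableOn (fun z => (u z - u' y0) ^ 2) (G.B x r) := by
    refine ⟨hasm, ?_⟩
    rw [hasFiniteIntegral_iff_ofReal (Eventually.of_forall fun y => by positivity)]
    exact lt_of_le_of_lt hfin ENNReal.ofReal_lt_top
  refine ⟨u' y0, hinteg, ?_⟩
  have h1 := ofReal_integral_eq_lintegral_ofReal hinteg
    (Eventually.of_forall fun y => sq_nonneg _)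
  rw [← h1] at hfin
  exact (ENNReal.ofReal_le_ofReal_iff (mul_nonneg (by positivity)
    (integral_nonneg fun y => by positivity))).1 hfin

end Pool.Agent.CG
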