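import Pool.Agent.CG.B.Alg
import Pool.Agent.CG.A.Del

/-!
# CG-B-Trf (helper66): left translations and dilations of Sobolev functions and of solutions

PLAN.
* `LqLoc.left`: `K` compact in `{x | g x ∈ Ω}`; `K' = G.mul g '' K` is compact in `Ω`; `fun x => G.mul g x` is measure preserving
  (`G.mp_left g`), also for `volume.restrict K → volume.restrict K'` (`MeasurePreserving.restrict_image_emb` or
  `restrict_preimage_emb`, with the measurable embedding `(G.homeoL g).measurableEmbedding`), then `MemLp.comp_measurePreserving`.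
* `LqLoc.del`: `G.map_del` : the image measure is `ofReal (r⁻¹ ^ Q) • volume`; `MemLp` is not affected by a finite factor
  (`memLp_map_measure_iff`, `MemLp.smul_measure`, `(G.homeoD r _).measurableEmbedding`; `Measure.restrict_map`).
* `HW.left`: if `φ` is a test function on `{x | g x ∈ Ω}` then `ψ y = φ (g⁻¹ y)` is one on `Ω` (`Test.left` with `-g`), `φ x = ψ (g x)`
  (`G.neg_mul_cancel`), `X_k φ x = X_k ψ (g x)` (`G.X_left`), and the integrals transform by `(G.mp_left g).integral_comp`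
  (`(G.homeoL g).measurableEmbedding`).
* `HW.del`: the same with `ψ y = φ (δ_{1/r} y)`, `X_k φ x = r X_k ψ (δ_r x)` (`G.X_del`), `G.integral_del`.
* `Sol.left`, `Sol.scale`: the same for the equation (`G.grad_left`, `G.grad_del`); `HW.smul` with `c = r⁻¹`.
-/

set_option autoImplicit false

namespace Pool.Agent.CG

open MeasureTheory Set Filter Topology
open scoped ContDiff ENNReal

variable {N m : ℕ} {G : Carnot N m} {q : ℝ≥0∞} {Ω Ω' : Set (Pt N)} {u v : Pt N → ℝ}
  {F V : Pt N → Hv m}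

theorem LqLoc.left {E : Type*} [NormedAddCommGroup E] {f : Pt N → E} (h : LqLoc q Ω f) (G : Carnot N m) (g : Pt N) :
    LqLoc q {x | G.mul g x ∈ Ω} (fun x => f (G.mul g x)) := by
  intro K hK hKs
  have hK' : IsCompact ((fun x => G.mul g x) '' K) := hK.image (G.continuous_left g)
  have hsub : (fun x => G.mul g x) '' K ⊆ Ω := by
    rintro _ ⟨x, hx, rfl⟩
    exact hKs hx
  have hinj : Function.Injective (fun x => G.mul g x) := (G.homeoL g).injective
  have h1 := (G.mp_left g).restrict_preimage hK'.measurableSet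
  rw [preimage_image_eq K hinj] at h1
  exact (h _ hK' hsub).comp_measurePreserving h1

theorem LqLoc.del {E : Type*} [NormedAddCommGroup E] {f : Pt N → E} (h : LqLoc q Ω f) (G : Carnot N m) {r : ℝ}
    (hr : 0 < r) : LqLoc q {x | G.del r x ∈ Ω} (fun x => f (G.del r x)) := by
  intro K hK hKs
  have hK' : IsCompact (G.del r '' K) := hK.image (G.continuous_del r)
  have hsub : G.del r '' K ⊆ Ω := by
    rintro _ ⟨x, hx, rfl⟩
    exact hKs hx
  have hemb : MeasurableEmbedding (G.del r) := (G.homeoD r hr.ne').measurableEmbedding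
  have hinj : Function.Injective (G.del r) := (G.homeoD r hr.ne').injective
  have h1 := hemb.restrict_map (volume : Measure (Pt N)) (G.del r '' K)
  rw [preimage_image_eq K hinj, G.map_del hr, Measure.restrict_smul] at h1
  have h2 : MemLp f q (ENNReal.ofReal (r⁻¹ ^ G.Q) • volume.restrict (G.del r '' K)) :=
    (h _ hK' hsub).smul_measure ENNReal.ofReal_ne_top
  rw [h1] at h2
  exact hemb.memLp_map_measure_iff.1 h2

private theorem test_back {g : Pt N} {φ : Pt N → ℝ} (hφ : Test {x | G.mul g x ∈ Ω} φ) :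
    Test Ω (fun y => φ (G.mul (-g) y)) ∧
      φ = fun x => (fun y => φ (G.mul (-g) y)) (G.mul g x) := by
  refine ⟨(hφ.left G (-g)).mono ?_, ?_⟩
  · intro x hx
    have : G.mul g (G.mul (-g) x) ∈ Ω := hx
    rwa [G.mul_neg_mul] at this
  · funext x
    simp only [G.neg_mul_cancel]

private theorem test_backD {r : ℝ} (hr : 0 < r) {φ : Pt N → ℝ} (hφ : Test {x | G.del r x ∈ Ω} φ) :
    Test Ω (fun y => φ (G.del r⁻¹ y)) ∧
      φ = fun x => (fun y => φ (G.del r⁻¹ y)) (G.del r x) := by
  refine ⟨(hφ.del G (inv_ne_zero hr.ne')).mono ?_, ?_⟩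
  · intro x hx
    have : G.del r (G.del r⁻¹ x) ∈ Ω := hx
    rwa [G.del_del_inv hr.ne'] at this
  · funext x
    simp only [G.del_inv_del hr.ne']

private theorem int_left {E : Type} [NormedAddCommGroup E] [NormedSpace ℝ E] (g : Pt N) (f : Pt N → E) :
    ∫ x, f (G.mul g x) = ∫ x, f x :=
  (G.mp_left g).integral_comp (G.homeoL g).measurableEmbedding f

theorem HW.left (hu : HW G q Ω u F) (g : Pt N) :
    HW G q {x | G.mul g x ∈ Ω} (fun x => u (G.mul g x)) (fun x => F (G.mul g x)) := by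
  refine ⟨hu.lq.left G g, hu.lqg.left G g, fun φ hφ k => ?_⟩
  obtain ⟨hψ, he⟩ := test_back hφ
  set ψ : Pt N → ℝ := fun y => φ (G.mul (-g) y) with hψd
  have h1 : ∀ x, G.X k φ x = G.X k ψ (G.mul g x) := by
    intro x
    conv_lhs => rw [he]
    exact G.X_left g ψ k x
  have h2 : ∀ x, φ x = ψ (G.mul g x) := fun x => congrFun he x
  have e1 : ∫ x, u (G.mul g x) * G.X k φ x = ∫ x, u x * G.X k ψ x := by
    rw [← int_left (G := G) g (fun x => u x * G.X k ψ x)]
    simp only [h1]
  have e2 : ∫ x, F (G.mul g x) k * φ x = ∫ x, F x k * ψ x := by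
    rw [← int_left (G := G) g (fun x => F x k * ψ x)]
    simp only [h2]
  rw [e1, e2]
  exact hu.weak ψ hψ k

theorem HW.del (hu : HW G q Ω u F) {r : ℝ} (hr : 0 < r) :
    HW G q {x | G.del r x ∈ Ω} (fun x => u (G.del r x)) (fun x => r • F (G.del r x)) := by
  refine ⟨hu.lq.del G hr, (hu.lqg.del G hr).const_smul r, fun φ hφ k => ?_⟩
  obtain ⟨hψ, he⟩ := test_backD hr hφ
  set ψ : Pt N → ℝ := fun y => φ (G.del r⁻¹ y) with hψd
  have h1 : ∀ x, G.X k φ x = r * G.X k ψ (G.del r x) := by
    intro x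
    conv_lhs => rw [he]
    exact G.X_del hr ψ k x
  have h2 : ∀ x, φ x = ψ (G.del r x) := fun x => congrFun he x
  have e1 : ∫ x, u (G.del r x) * G.X k φ x = r * ((r⁻¹ ^ G.Q) * ∫ x, u x * G.X k ψ x) := by
    have := G.integral_del hr (fun x => u x * G.X k ψ x)
    rw [smul_eq_mul] at this
    rw [← this, ← integral_const_mul]
    refine integral_congr_ae (Eventually.of_forall fun x => ?_)
    simp only [h1]
    ring
  have e2 : ∫ x, (r • F (G.del r x)) k * φ x = r * ((r⁻¹ ^ G.Q) * ∫ x, F x k * ψ x) := by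
    have := G.integral_del hr (fun x => F x k * ψ x)
    rw [smul_eq_mul] at this
    rw [← this, ← integral_const_mul]
    refine integral_congr_ae (Eventually.of_forall fun x => ?_)
    simp only [h2, PiLp.smul_apply, smul_eq_mul]
    ring
  rw [e1, e2, hu.weak ψ hψ k]
  ring

theorem Sol.left {A : Hv m → Hv m} (hu : Sol G q Ω A u F) (g : Pt N) :
    Sol G q {x | G.mul g x ∈ Ω} A (fun x => u (G.mul g x)) (fun x => F (G.mul g x)) := by
  refine ⟨hu.toHW.left g, fun φ hφ => ?_⟩
  obtain ⟨hψ, he⟩ := test_back hφ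
  set ψ : Pt N → ℝ := fun y => φ (G.mul (-g) y) with hψd
  have h1 : ∀ x, G.grad φ x = G.grad ψ (G.mul g x) := by
    intro x
    conv_lhs => rw [he]
    exact G.grad_left g ψ x
  have e1 : ∫ x, inner ℝ (A (F (G.mul g x))) (G.grad φ x) = ∫ x, inner ℝ (A (F x)) (G.grad ψ x) := by
    rw [← int_left (G := G) g (fun x => inner ℝ (A (F x)) (G.grad ψ x))]
    simp only [h1]
  rw [e1]
  exact hu.eqn ψ hψ

theorem Sol.scale {A : Hv m → Hv m} (hu : Sol G q Ω A u F) {r : ℝ} (hr : 0 < r) :
    Sol G q {x | G.del r x ∈ Ω} A (fun x => r⁻¹ * u (G.del r x)) (fun x => F (G.del r x)) := by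
  have h0 : HW G q {x | G.del r x ∈ Ω} (fun x => r⁻¹ * u (G.del r x)) (fun x => F (G.del r x)) := by
    have h1 := (hu.toHW.del hr).smul r⁻¹
    have h2 : (fun x => r⁻¹ • r • F (G.del r x)) = fun x => F (G.del r x) := by
      funext x
      rw [smul_smul, inv_mul_cancel₀ hr.ne', one_smul]
    rwa [h2] at h1
  refine ⟨h0, fun φ hφ => ?_⟩
  obtain ⟨hψ, he⟩ := test_backD hr hφ
  set ψ : Pt N → ℝ := fun y => φ (G.del r⁻¹ y) with hψd
  have h1 : ∀ x, G.grad φ x = r • G.grad ψ (G.del r x) := by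
    intro x
    conv_lhs => rw [he]
    exact G.grad_del hr ψ x
  have e1 : ∫ x, inner ℝ (A (F (G.del r x))) (G.grad φ x) =
      r * ((r⁻¹ ^ G.Q) * ∫ x, inner ℝ (A (F x)) (G.grad ψ x)) := by
    have := G.integral_del hr (fun x => inner ℝ (A (F x)) (G.grad ψ x))
    rw [smul_eq_mul] at this
    rw [← this, ← integral_const_mul]
    refine integral_congr_ae (Eventually.of_forall fun x => ?_)
    simp only [h1, inner_smul_right]
  rw [e1, hu.eqn ψ hψ, mul_zero, mul_zero]

end Pool.Agent.CG
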