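import Pool.Agent.CG.B.Lq
import Pool.Agent.CG.A.Ell

/-!
# CG-B-Walk (helper66): the translation inequality for smooth functions (walking along words)

PLAN.  `f(s) = φ (y (s e_k))` has derivative `X_k φ (y (s e_k))` (`G.hasDerivAt_X`), `|X_k φ| ≤ ‖grad φ‖` (`PiLp.norm_apply_le`).
* `walk_step`: mean value inequality (`Convex.norm_image_sub_le_of_norm_hasDerivWithin_le` or
  `norm_image_sub_le_of_norm_deriv_le_segment`).
* `walk_word`: induction on `w`, generalising `y`: `y (ev (p :: w)) = (y (t e_k)) (ev w)` (`G.assoc`), for `g` with `ell g ≤ len w`: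
  `(y (t e_k)) g = y ((t e_k) g)` with `ell ((t e_k) g) ≤ |t| + len w` (`G.ell_mul_le`, `G.ell_smul_e_le`).
* `trans_step`: `q` real `≥ 1` (`q.toReal`).  `|φ(y (t e_k)) - φ y|^q ≤ |t|^{q-1} ∫_0^{|t|} |X_k φ (y (± s e_k))|^q ds` (Hölder /
  `ENNReal.lintegral_rpow_le` or Jensen; or `eLpNorm` of an average: `eLpNorm_le_eLpNorm_mul_rpow_measure_univ`), integrate over
  `y ∈ S`, Tonelli, and for each `s`: `∫_S |X_k φ (y (s e_k))|^q dy ≤ ∫_T |X_k φ|^q` (`G.mp_right`, `S (s e_k) ⊆ T`).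
  `S` may be taken measurable; all functions are continuous.
* `trans_word`: induction on `w`, generalising `S`: `eLpNorm_add_le` (triangle) with
  `φ(y (t e_k) ev w) - φ(y) = [ψ(y (t e_k))] + [φ(y (t e_k)) - φ y]`, `ψ z = φ (z ev w) - φ z`; the norm of `y ↦ ψ(y (t e_k))` on `S` is that of
  `ψ` on `S (t e_k)` (image under the homeomorphism `G.homeoR`, measurable; `G.mp_right`), apply the induction hypothesis to
  `S' = G.homeoR (t e_k) '' S`.
-/

set_option autoImplicit false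

namespace Pool.Agent.CG

open MeasureTheory Set Filter Topology
open scoped ContDiff ENNReal

variable {N m : ℕ} (G : Carnot N m) {φ : Pt N → ℝ}

private theorem wk_abs_X_le (k : Fin m) (x : Pt N) : ‖G.X k φ x‖ ≤ ‖G.grad φ x‖ :=
  PiLp.norm_apply_le (G.grad φ x) k

theorem walk_step (hφ : ContDiff ℝ 1 φ) (k : Fin m) (t : ℝ) {L : ℝ} (y : Pt N)
    (h : ∀ s : ℝ, |s| ≤ |t| → ‖G.grad φ (G.mul y (s • G.e k))‖ ≤ L) :
    |φ (G.mul y (t • G.e k)) - φ y| ≤ L * |t| := by
  have h1 := Convex.norm_image_sub_le_of_norm_hasDerivWithin_le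
    (f := fun s : ℝ => φ (G.mul y (s • G.e k))) (f' := fun s : ℝ => G.X k φ (G.mul y (s • G.e k)))
    (C := L) (s := Metric.closedBall (0 : ℝ) |t|) (x := 0) (y := t)
    (fun s _ => (G.hasDerivAt_X hφ k y s).hasDerivWithinAt)
    (fun s hs => (wk_abs_X_le G k _).trans (h s (by simpa using hs)))
    (convex_closedBall _ _) (by simp) (by simp)
  simpa [G.mul_zero] using h1

theorem walk_word (hφ : ContDiff ℝ 1 φ) (w : List (Fin m × ℝ)) {L : ℝ} (y : Pt N)
    (h : ∀ g : Pt N, G.ell g ≤ Carnot.len w → ‖G.grad φ (G.mul y g)‖ ≤ L) :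
    |φ (G.mul y (G.ev w)) - φ y| ≤ L * Carnot.len w := by
  induction w generalizing y with
  | nil => simp [G.mul_zero]
  | cons p w ih =>
    obtain ⟨k, t⟩ := p
    simp only [Carnot.len_cons] at h ⊢
    rw [Carnot.ev_cons, ← G.assoc]
    have hw := Carnot.len_nonneg w
    have h1 := ih (G.mul y (t • G.e k)) (by
      intro g hg
      rw [G.assoc]
      refine h _ ?_
      have h2 := G.ell_mul_le (t • G.e k) g
      have h3 := G.ell_smul_e_le k t
      linarith)
    have h2 := walk_step G hφ k t (L := L) y (by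
      intro s hs
      refine h _ ?_
      have h3 := G.ell_smul_e_le k s
      linarith)
    have h3 : φ (G.mul (G.mul y (t • G.e k)) (G.ev w)) - φ y =
        (φ (G.mul (G.mul y (t • G.e k)) (G.ev w)) - φ (G.mul y (t • G.e k))) +
        (φ (G.mul y (t • G.e k)) - φ y) := by ring
    rw [h3]
    refine (abs_add_le _ _).trans ?_
    rw [mul_add]
    linarith

private theorem wk_int (hφ : ContDiff ℝ 1 φ) (k : Fin m) (t : ℝ) (y : Pt N) :
    φ (G.mul y (t • G.e k)) - φ y =
      ∫ s in (0 : ℝ)..1, t * G.X k φ (G.mul y ((s * t) • G.e k)) := by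
  have hd : ∀ s : ℝ, HasDerivAt (fun s : ℝ => φ (G.mul y ((s * t) • G.e k)))
      (t * G.X k φ (G.mul y ((s * t) • G.e k))) s := by
    intro s
    have h1 := G.hasDerivAt_X hφ k y (s * t)
    have h2 : HasDerivAt (fun s : ℝ => s * t) t s := by
      simpa using (hasDerivAt_id s).mul_const t
    have h3 := HasDerivAt.comp s h1 h2
    rw [mul_comm] at h3
    exact h3
  have hc : Continuous (fun s : ℝ => t * G.X k φ (G.mul y ((s * t) • G.e k))) := by
    refine continuous_const.mul ((G.continuous_X hφ k).comp ((G.continuous_left y).comp ?_))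
    exact (continuous_id.mul continuous_const).smul continuous_const
  rw [intervalIntegral.integral_eq_sub_of_hasDerivAt (fun s _ => hd s) (hc.intervalIntegrable _ _)]
  simp [G.mul_zero]

private theorem wk_jensen {q : ℝ≥0∞} (hq : 1 ≤ q) (hq' : q ≠ ⊤) (f : ℝ → ℝ) (hf : Continuous f) :
    ‖∫ s in (0 : ℝ)..1, f s‖ₑ ^ q.toReal ≤ ∫⁻ s in Ioc (0 : ℝ) 1, ‖f s‖ₑ ^ q.toReal := by
  have hq0 : q ≠ 0 := (zero_lt_one.trans_le hq).ne'
  have hqr : 0 < q.toReal := ENNReal.toReal_pos hq0 hq'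
  rw [intervalIntegral.integral_of_le zero_le_one]
  have : IsProbabilityMeasure (volume.restrict (Ioc (0 : ℝ) 1)) :=
    ⟨by rw [Measure.restrict_apply_univ, Real.volume_Ioc]; simp⟩
  have h1 : ‖∫ s in Ioc (0 : ℝ) 1, f s‖ₑ ≤ eLpNorm f q (volume.restrict (Ioc (0 : ℝ) 1)) := by
    refine (enorm_integral_le_lintegral_enorm _).trans ?_
    rw [← eLpNorm_one_eq_lintegral_enorm]
    exact eLpNorm_le_eLpNorm_of_exponent_le hq hf.aestronglyMeasurable
  rw [eLpNorm_eq_lintegral_rpow_enorm_toReal hq0 hq'] at h1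
  have h2 := ENNReal.rpow_le_rpow h1 hqr.le
  rw [← ENNReal.rpow_mul, one_div, inv_mul_cancel₀ hqr.ne', ENNReal.rpow_one] at h2
  exact h2

private theorem wk_shift {S T : Set (Pt N)} (hT : MeasurableSet T) (g : Pt N)
    (h : ∀ y ∈ S, G.mul y g ∈ T) (f : Pt N → ℝ≥0∞) (hf : Measurable f) :
    ∫⁻ y in S, f (G.mul y g) ≤ ∫⁻ y in T, f y := by
  calc ∫⁻ y in S, f (G.mul y g) ≤ ∫⁻ y in (fun y => G.mul y g) ⁻¹' T, f (G.mul y g) :=
        lintegral_mono_set h
    _ = ∫⁻ y in T, f y := (G.mp_right g).setLIntegral_comp_preimage hT hf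

theorem trans_step {q : ℝ≥0∞} (hq : 1 ≤ q) (hq' : q ≠ ⊤) (hφ : ContDiff ℝ 1 φ) (k : Fin m) (t : ℝ)
    {S T : Set (Pt N)} (hS : MeasurableSet S) (hT : MeasurableSet T)
    (h : ∀ y ∈ S, ∀ s : ℝ, |s| ≤ |t| → G.mul y (s • G.e k) ∈ T) :
    eLpNorm (fun y => φ (G.mul y (t • G.e k)) - φ y) q (volume.restrict S) ≤
      ENNReal.ofReal |t| * eLpNorm (G.grad φ) q (volume.restrict T) := by
  have hq0 : q ≠ 0 := (zero_lt_one.trans_le hq).ne'
  have hqr : 0 < q.toReal := ENNReal.toReal_pos hq0 hq'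
  have hXc : Continuous (G.X k φ) := G.continuous_X hφ k
  have hmul : Continuous (fun p : Pt N × ℝ => G.mul p.1 ((p.2 * t) • G.e k)) :=
    G.continuous_mul.comp (continuous_fst.prodMk
      ((continuous_snd.mul continuous_const).smul continuous_const))
  have h1 : ∀ y : Pt N, ‖φ (G.mul y (t • G.e k)) - φ y‖ₑ ^ q.toReal ≤
      ENNReal.ofReal |t| ^ q.toReal *
        ∫⁻ s in Ioc (0 : ℝ) 1, ‖G.X k φ (G.mul y ((s * t) • G.e k))‖ₑ ^ q.toReal := by
    intro y
    rw [wk_int G hφ k t y]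
    have hc : Continuous (fun s : ℝ => G.X k φ (G.mul y ((s * t) • G.e k))) :=
      hXc.comp (hmul.comp (continuous_const.prodMk continuous_id))
    refine (wk_jensen hq hq' _ (continuous_const.mul hc)).trans ?_
    rw [← lintegral_const_mul' _ _ (ENNReal.rpow_ne_top_of_nonneg hqr.le ENNReal.ofReal_ne_top)]
    refine lintegral_mono fun s => ?_
    change ‖t * G.X k φ (G.mul y ((s * t) • G.e k))‖ₑ ^ q.toReal ≤ _
    rw [enorm_mul, ENNReal.mul_rpow_of_nonneg _ _ hqr.le, Real.enorm_eq_ofReal_abs t]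
  have hmeas : Measurable (fun p : Pt N × ℝ => ‖G.X k φ (G.mul p.1 ((p.2 * t) • G.e k))‖ₑ ^ q.toReal) :=
    ((hXc.comp hmul).enorm.measurable).pow_const _
  have h2 : ∫⁻ y in S, ‖φ (G.mul y (t • G.e k)) - φ y‖ₑ ^ q.toReal ≤
      ENNReal.ofReal |t| ^ q.toReal * ∫⁻ y in T, ‖G.grad φ y‖ₑ ^ q.toReal := by
    calc ∫⁻ y in S, ‖φ (G.mul y (t • G.e k)) - φ y‖ₑ ^ q.toReal
        ≤ ∫⁻ y in S, ENNReal.ofReal |t| ^ q.toReal *
          ∫⁻ s in Ioc (0 : ℝ) 1, ‖G.X k φ (G.mul y ((s * t) • G.e k))‖ₑ ^ q.toReal :=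
          lintegral_mono fun y => h1 y
      _ = ENNReal.ofReal |t| ^ q.toReal * ∫⁻ y in S,
          ∫⁻ s in Ioc (0 : ℝ) 1, ‖G.X k φ (G.mul y ((s * t) • G.e k))‖ₑ ^ q.toReal :=
          lintegral_const_mul' _ _ (ENNReal.rpow_ne_top_of_nonneg hqr.le ENNReal.ofReal_ne_top)
      _ = ENNReal.ofReal |t| ^ q.toReal * ∫⁻ s in Ioc (0 : ℝ) 1, ∫⁻ y in S,
          ‖G.X k φ (G.mul y ((s * t) • G.e k))‖ₑ ^ q.toReal := by
          rw [lintegral_lintegral_swap (hmeas.aemeasurable)]
      _ ≤ ENNReal.ofReal |t| ^ q.toReal * ∫⁻ s in Ioc (0 : ℝ) 1,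
          ∫⁻ y in T, ‖G.grad φ y‖ₑ ^ q.toReal := by
          refine mul_le_mul_right ?_ _
          refine setLIntegral_mono' measurableSet_Ioc fun s hs => ?_
          refine (wk_shift G hT ((s * t) • G.e k) ?_ (fun y => ‖G.X k φ y‖ₑ ^ q.toReal)
            (hXc.enorm.measurable.pow_const _)).trans ?_
          · intro y hy
            refine h y hy (s * t) ?_
            rw [abs_mul, abs_of_pos hs.1]
            exact mul_le_of_le_one_left (abs_nonneg _) hs.2
          · refine lintegral_mono fun y => ?_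
            refine ENNReal.rpow_le_rpow ?_ hqr.le
            rw [enorm_le_iff_norm_le]
            exact wk_abs_X_le G k y
      _ = ENNReal.ofReal |t| ^ q.toReal * ∫⁻ y in T, ‖G.grad φ y‖ₑ ^ q.toReal := by
          rw [lintegral_const]
          simp
  rw [eLpNorm_eq_lintegral_rpow_enorm_toReal hq0 hq', eLpNorm_eq_lintegral_rpow_enorm_toReal hq0 hq']
  have h3 := ENNReal.rpow_le_rpow h2 (one_div_nonneg.2 hqr.le)
  refine h3.trans (le_of_eq ?_)
  rw [ENNReal.mul_rpow_of_nonneg _ _ (one_div_nonneg.2 hqr.le), ← ENNReal.rpow_mul, mul_one_div,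
    div_self hqr.ne', ENNReal.rpow_one]

private theorem wk_comp {q : ℝ≥0∞} (g : Pt N) {ψ : Pt N → ℝ} (hψ : Continuous ψ)
    {S : Set (Pt N)} (hS : MeasurableSet S) :
    eLpNorm (fun y => ψ (G.mul y g)) q (volume.restrict S) =
      eLpNorm ψ q (volume.restrict ((fun z => G.mul z (-g)) ⁻¹' S)) := by
  have hS'm : MeasurableSet ((fun z => G.mul z (-g)) ⁻¹' S) := (G.continuous_right _).measurable hS
  have hpre : (fun z => G.mul z g) ⁻¹' ((fun z => G.mul z (-g)) ⁻¹' S) = S := by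
    ext y
    simp only [mem_preimage, G.mul_mul_neg]
  have h5 := (G.mp_right g).restrict_preimage hS'm
  rw [hpre] at h5
  exact eLpNorm_comp_measurePreserving (f := fun z => G.mul z g) (g := ψ) hψ.aestronglyMeasurable h5

theorem trans_word {q : ℝ≥0∞} (hq : 1 ≤ q) (hq' : q ≠ ⊤) (hφ : ContDiff ℝ 1 φ) (w : List (Fin m × ℝ))
    {S T : Set (Pt N)} (hS : MeasurableSet S) (hT : MeasurableSet T)
    (h : ∀ y ∈ S, ∀ g : Pt N, G.ell g ≤ Carnot.len w → G.mul y g ∈ T) :
    eLpNorm (fun y => φ (G.mul y (G.ev w)) - φ y) q (volume.restrict S) ≤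
      ENNReal.ofReal (Carnot.len w) * eLpNorm (G.grad φ) q (volume.restrict T) := by
  induction w generalizing S with
  | nil => simp [G.mul_zero]
  | cons p w ih =>
    obtain ⟨k, t⟩ := p
    simp only [Carnot.len_cons] at h ⊢
    have hw := Carnot.len_nonneg w
    rw [ENNReal.ofReal_add (abs_nonneg t) hw, add_mul, Carnot.ev_cons]
    have hcφ := hφ.continuous
    set ψ : Pt N → ℝ := fun z => φ (G.mul z (G.ev w)) - φ z with hψ
    have hψc : Continuous ψ := (hcφ.comp (G.continuous_right _)).sub hcφ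
    set R : Pt N → Pt N := fun y => G.mul y (t • G.e k) with hR
    have hRc : Continuous R := G.continuous_right _
    have h3 : (fun y => φ (G.mul y (G.mul (t • G.e k) (G.ev w))) - φ y) =
        (fun y => φ (G.mul y (t • G.e k)) - φ y) + (fun y => ψ (R y)) := by
      funext y
      simp only [hψ, hR, Pi.add_apply, ← G.assoc]
      ring
    rw [h3]
    have m1 : AEStronglyMeasurable (fun y => φ (G.mul y (t • G.e k)) - φ y) (volume.restrict S) :=
      ((hcφ.comp hRc).sub hcφ).aestronglyMeasurable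
    have m2 : AEStronglyMeasurable (fun y => ψ (R y)) (volume.restrict S) :=
      (hψc.comp hRc).aestronglyMeasurable
    refine (eLpNorm_add_le m1 m2 hq).trans ?_
    refine add_le_add ?_ ?_
    · refine trans_step G hq hq' hφ k t hS hT ?_
      intro y hy s hs
      refine h y hy _ ?_
      have h4 := G.ell_smul_e_le k s
      linarith
    · set S' : Set (Pt N) := (fun z => G.mul z (-(t • G.e k))) ⁻¹' S with hS'
      have hS'm : MeasurableSet S' := (G.continuous_right _).measurable hS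
      rw [wk_comp G (t • G.e k) hψc hS]
      refine ih hS'm ?_
      intro z hz g hg
      have h7 := h _ hz (G.mul (t • G.e k) g) (by
        have h8 := G.ell_mul_le (t • G.e k) g
        have h9 := G.ell_smul_e_le k t
        linarith)
      rw [← G.assoc, G.mul_neg_mul'] at h7
      exact h7

end Pool.Agent.CG
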